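import Pool.Agent.MP_2e2931_gt.ZHier

section

/-! Compactifications obtained from the Stone-Čech compactification by gluing. -/

open Set Topology Ordinal

universe u

namespace Pool.Agent.MP_2e2931_gt

theorem t2_quot {K : Type u} [TopologicalSpace K] [CompactSpace K] [T2Space K] (s : Setoid K)
    (h : IsClosed {p : K × K | s p.1 p.2}) : T2Space (Quotient s) := by
  have hc : IsClosedMap (Quotient.mk s) := fun C hC => by
    rw [← isQuotientMap_quotient_mk'.isClosed_preimage]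
    have e : Quotient.mk' ⁻¹' (Quotient.mk s '' C) =
        Prod.snd '' ((Prod.fst ⁻¹' C) ∩ {p : K × K | s p.1 p.2}) := by
      ext y
      constructor
      · rintro ⟨x, hx, e⟩
        exact ⟨(x, y), ⟨hx, Quotient.exact e⟩, rfl⟩
      · rintro ⟨p, ⟨h1, h2⟩, rfl⟩
        exact ⟨p.1, h1, Quotient.sound h2⟩
    rw [e]
    exact (((hC.preimage continuous_fst).inter h).isCompact.image continuous_snd).isClosed
  have hq : Continuous (Quotient.mk s) := continuous_quotient_mk'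
  have h1 : ∀ x : K, IsClosed (Quotient.mk s ⁻¹' {Quotient.mk s x}) := fun x => by
    rw [← image_singleton]
    exact (hc _ isClosed_singleton).preimage hq
  refine ⟨fun a b hab => ?_⟩
  obtain ⟨x, rfl⟩ := Quotient.exists_rep a
  obtain ⟨y, rfl⟩ := Quotient.exists_rep b
  obtain ⟨U, V, hU, hV, xU, yV, hd⟩ := normal_separation (h1 x) (h1 y)
    (disjoint_left.2 fun z h2 h3 => hab (h2.symm.trans h3))
  refine ⟨(Quotient.mk s '' Uᶜ)ᶜ, (Quotient.mk s '' Vᶜ)ᶜ, (hc _ hU.isClosed_compl).isOpen_compl,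
    (hc _ hV.isClosed_compl).isOpen_compl, fun ⟨z, z1, z2⟩ => z1 (xU z2),
    fun ⟨z, z1, z2⟩ => z1 (yV z2), disjoint_left.2 fun w w1 w2 => ?_⟩
  obtain ⟨z, rfl⟩ := Quotient.exists_rep w
  exact disjoint_left.1 hd (by_contra fun c => w1 ⟨z, c, rfl⟩) (by_contra fun c => w2 ⟨z, c, rfl⟩)

variable {X : Type u} [TopologicalSpace X]

/-- closure in the Stone-Čech compactification -/
def cb (A : Set X) : Set (StoneCech X) := closure (stoneCechUnit '' A)

theorem cb_mono {A B : Set X} (h : A ⊆ B) : cb A ⊆ cb B := closure_mono (image_mono h)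

theorem cb_union (A B : Set X) : cb (A ∪ B) = cb A ∪ cb B := by
  rw [cb, image_union, closure_union]; rfl

theorem cb_univ (u : StoneCech X) : u ∈ cb (univ : Set X) := by
  rw [cb, image_univ]; exact denseRange_stoneCechUnit u

/-- the canonical map onto a compactification -/
noncomputable def Cpt.q (c : Cpt X) : StoneCech X → c.Y := stoneCechExtend c.emb.continuous

theorem Cpt.q_cont (c : Cpt X) : Continuous c.q := continuous_stoneCechExtend _

theorem Cpt.q_unit (c : Cpt X) (x : X) : c.q (stoneCechUnit x) = c.e x :=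
  stoneCechExtend_stoneCechUnit _ x

theorem closure_eq {D : Type u} [TopologicalSpace D] [T2Space D] {π : StoneCech X → D}
    (hπ : Continuous π) {j : X → D} (hj : ∀ x, π (stoneCechUnit x) = j x) (A : Set X) :
    closure (j '' A) = π '' cb A := by
  rw [cb, ← hπ.isClosedMap.closure_image_eq_of_continuous hπ, image_image]
  simp only [hj]

theorem Cpt.fiber (c : Cpt X) {u : StoneCech X} {x : X} (h : c.q u = c.e x) :
    u = stoneCechUnit x := by
  by_contra hne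
  obtain ⟨U, V, hU, hV, uU, xV, hd⟩ := t2_separation hne
  obtain ⟨O, hO, e⟩ := c.emb.isInducing.isOpen_iff.1 (hV.preimage continuous_stoneCechUnit)
  have h1 : u ∈ cb (stoneCechUnit ⁻¹' V)ᶜ := by
    rcases (cb_union (stoneCechUnit ⁻¹' V) (stoneCechUnit ⁻¹' V)ᶜ).subset
      (by rw [union_compl_self]; exact cb_univ u) with h1 | h1
    · exfalso
      obtain ⟨_, z1, z, z2, rfl⟩ := mem_closure_iff.1 h1 U hU uU
      exact disjoint_left.1 hd z1 z2
    · exact h1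
  have h2 : c.e x ∈ closure (c.e '' (stoneCechUnit ⁻¹' V)ᶜ) := by
    rw [closure_eq c.q_cont c.q_unit]
    exact ⟨u, h1, h⟩
  obtain ⟨_, z1, z, z2, rfl⟩ := mem_closure_iff.1 h2 O hO (show x ∈ c.e ⁻¹' O from e ▸ xV)
  exact z2 (e ▸ (show z ∈ c.e ⁻¹' O from z1))

theorem Cpt.sep_beta (b : Cpt X) {α : Ordinal.{0}} (h : FB b.Y α (range b.e)) :
    Sep (stoneCechUnit : X → StoneCech X) α univ (range stoneCechUnit)ᶜ :=
  (sep_iff.2 h).transfer1 fun w hw => ⟨b.q w, fun ⟨x, hx⟩ => hw ⟨x, (b.fiber hx.symm).symm⟩,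
    fun A _ hA => by rw [closure_eq b.q_cont b.q_unit]; exact ⟨w, hA, rfl⟩⟩

theorem split {K : Set X} (hK : IsCompact K) (hiso : ∀ x ∉ K, IsOpen {x}) (A : Set X)
    {u : StoneCech X} (h1 : u ∈ cb A) (h2 : u ∈ cb Aᶜ) : u ∈ range stoneCechUnit := by
  classical
  by_contra hu
  obtain ⟨f, f0, f1, f2⟩ := exists_continuous_zero_one_of_isClosed
    (hK.image continuous_stoneCechUnit).isClosed (isClosed_singleton (x := u))
    (disjoint_singleton_right.2 fun ⟨x, _, hx⟩ => hu ⟨x, hx⟩)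
  let g : X → Icc (0 : ℝ) 1 := fun x =>
    if x ∈ A then ⟨f (stoneCechUnit x), f2 _⟩ else ⟨0, le_rfl, zero_le_one⟩
  have hf : Continuous fun x => f (stoneCechUnit x) := f.continuous.comp continuous_stoneCechUnit
  have hg : Continuous g := by
    refine continuous_induced_rng.2 (continuous_iff_continuousAt.2 fun x => ?_)
    by_cases hx : x ∈ K
    · have e0 : f (stoneCechUnit x) = 0 := f0 (mem_image_of_mem _ hx)
      have e1 : (g x : ℝ) = 0 := by
        simp only [g]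
        split_ifs
        · exact e0
        · rfl
      refine tendsto_of_tendsto_of_tendsto_of_le_of_le (g := fun _ => 0)
        (h := fun y => f (stoneCechUnit y)) ?_ ?_ (fun y => (g y).2.1) fun y => ?_
      · rw [Function.comp_apply, e1]; exact tendsto_const_nhds
      · rw [Function.comp_apply, e1, ← e0]; exact hf.continuousAt
      · simp only [g, Function.comp_apply]
        split_ifs
        · exact le_rfl
        · exact (f2 _).1
    · rw [ContinuousAt, (isOpen_singleton_iff_nhds_eq_pure x).1 (hiso x hx)]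
      exact tendsto_pure_nhds _ _
  have hG : Continuous fun w => (stoneCechExtend hg w).1 :=
    continuous_subtype_val.comp (continuous_stoneCechExtend hg)
  have a1 : (stoneCechExtend hg u).1 = f u := by
    refine closure_minimal ?_ (isClosed_eq hG f.continuous) h1
    rintro _ ⟨x, hx, rfl⟩
    simp only [mem_ofPred_eq, stoneCechExtend_stoneCechUnit, g, if_pos hx]
  have a2 : (stoneCechExtend hg u).1 = 0 := by
    refine closure_minimal ?_ (isClosed_eq hG continuous_const) h2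
    rintro _ ⟨x, hx, rfl⟩
    simp only [mem_ofPred_eq, stoneCechExtend_stoneCechUnit, g, if_neg hx]
  have a3 : f u = 1 := f1 rfl
  linarith

/-- the gluing relation -/
def Glue (c : Cpt X) (A : Set X) (p : X → ℕ) (Z : Set c.Y) (u v : StoneCech X) : Prop :=
  u ∈ cb A ∧ v ∈ cb A ∧ c.q u = c.q v ∧ c.q u ∈ closure Z ∧
    ∀ M : Set ℕ, (u ∈ cb (p ⁻¹' M) ∧ v ∈ cb (p ⁻¹' M)) ∨ (u ∈ cb (p ⁻¹' M)ᶜ ∧ v ∈ cb (p ⁻¹' M)ᶜ)

section Real

variable {K : Set X} (hK : IsCompact K) (hiso : ∀ x ∉ K, IsOpen {x})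
  {c : Cpt X} {A : Set X} {p : X → ℕ} {Z : Set c.Y}

theorem Glue.symm {u v : StoneCech X} (h : Glue c A p Z u v) : Glue c A p Z v u :=
  ⟨h.2.1, h.1, h.2.2.1.symm, h.2.2.1 ▸ h.2.2.2.1,
    fun M => (h.2.2.2.2 M).imp And.symm And.symm⟩

theorem Glue.eq {u v : StoneCech X} (h : Glue c A p Z u v) (hv : v ∈ range stoneCechUnit) :
    u = v := by
  obtain ⟨x, rfl⟩ := hv
  exact c.fiber (h.2.2.1.trans (c.q_unit x))

include hK hiso in
theorem Glue.mem {u v : StoneCech X} (h : Glue c A p Z u v) {M : Set ℕ}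
    (hv : v ∈ cb (p ⁻¹' M)) : u ∈ cb (p ⁻¹' M) := by
  rcases h.2.2.2.2 M with k | k
  · exact k.1
  · exact h.eq (split hK hiso _ hv k.2) ▸ hv

include hK hiso in
theorem Glue.trans {u v w : StoneCech X} (h : Glue c A p Z u v) (g : Glue c A p Z v w) :
    Glue c A p Z u w := by
  refine ⟨h.1, g.2.1, h.2.2.1.trans g.2.2.1, h.2.2.2.1, fun M => ?_⟩
  rcases g.2.2.2.2 M with k | k
  · exact Or.inl ⟨h.mem hK hiso k.1, k.2⟩
  · exact Or.inr ⟨h.mem hK hiso (M := Mᶜ) k.1, k.2⟩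

theorem glue_closed : IsClosed {t : StoneCech X × StoneCech X | Glue c A p Z t.1 t.2} := by
  have h1 : ∀ B : Set X, IsClosed {t : StoneCech X × StoneCech X | t.1 ∈ cb B} :=
    fun B => isClosed_closure.preimage continuous_fst
  have h2 : ∀ B : Set X, IsClosed {t : StoneCech X × StoneCech X | t.2 ∈ cb B} :=
    fun B => isClosed_closure.preimage continuous_snd
  refine (h1 A).inter ((h2 A).inter ((isClosed_eq (c.q_cont.comp continuous_fst)
    (c.q_cont.comp continuous_snd)).inter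
    ((isClosed_closure.preimage (c.q_cont.comp continuous_fst)).inter ?_)))
  change IsClosed {t : StoneCech X × StoneCech X | ∀ M : Set ℕ, _}
  rw [ofPred_forall]
  exact isClosed_iInter fun M => ((h1 _).inter (h2 _)).union ((h1 _).inter (h2 _))

include hK hiso in
theorem exists_glue (c : Cpt X) (A : Set X) (p : X → ℕ) (Z : Set c.Y) :
    ∃ (d : Cpt X) (π : StoneCech X → d.Y), Continuous π ∧ Function.Surjective π ∧
      (∀ x, π (stoneCechUnit x) = d.e x) ∧ ∀ u v, π u = π v ↔ u = v ∨ Glue c A p Z u v := by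
  let s : Setoid (StoneCech X) := ⟨fun u v => u = v ∨ Glue c A p Z u v, fun _ => Or.inl rfl,
    fun h => h.imp Eq.symm Glue.symm, fun h g => by
      rcases h with rfl | h
      · exact g
      rcases g with rfl | g
      · exact Or.inr h
      · exact Or.inr (h.trans hK hiso g)⟩
  have : T2Space (Quotient s) := t2_quot s (isClosed_diagonal.union glue_closed)
  have hq : Continuous (Quotient.mk s) := continuous_quotient_mk'
  let r : Quotient s → c.Y := Quotient.lift c.q fun u v h => h.elim (congrArg _) fun h => h.2.2.1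
  have hr : Continuous r := c.q_cont.quotient_lift _
  have he : r ∘ (Quotient.mk s ∘ stoneCechUnit) = c.e := funext c.q_unit
  refine ⟨⟨Quotient s, Quotient.mk s ∘ stoneCechUnit,
    IsEmbedding.of_comp (hq.comp continuous_stoneCechUnit) hr (he ▸ c.emb),
    (Quot.mk_surjective.denseRange).comp denseRange_stoneCechUnit hq⟩, Quotient.mk s, hq,
    Quot.mk_surjective, fun _ => rfl, fun u v => Quotient.eq⟩

include hK hiso in
theorem realize (c : Cpt X) (A : Set X) (p : X → ℕ) {Z : Set c.Y} (hZ : Z ⊆ (range c.e)ᶜ)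
    (hZc : closure Z ⊆ Z ∪ range c.e) : ∃ d : Cpt X,
      (∀ α, FB d.Y α (range d.e) → ∀ m, Sep c.e α (A ∩ p ⁻¹' {m}) Z) ∧
      ∀ α, α ≠ 0 → Sep (stoneCechUnit : X → StoneCech X) α univ (range stoneCechUnit)ᶜ →
        (¬ OddOrd α ∨ ∀ x, p x = 0) → (∀ m, Sep c.e α (A ∩ p ⁻¹' {m}) Z) →
        FB d.Y α (range d.e) := by
  obtain ⟨d, π, hπ, hs, hu, hg⟩ := exists_glue hK hiso c A p Z
  have cd := closure_eq hπ hu
  have cc := closure_eq c.q_cont c.q_unit
  have qq : ∀ u v, π u = π v → c.q u = c.q v := fun u v h =>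
    ((hg u v).1 h).elim (congrArg _) fun h => h.2.2.1
  refine ⟨d, fun α h m => (sep_iff.2 h).mono le_rfl (subset_univ _) subset_rfl |>.transfer
    fun z hz => ?_, fun α h0 hb ho hsep => sep_iff.1 ?_⟩
  · by_cases k : ∃ u ∈ cb (A ∩ p ⁻¹' {m}), c.q u = z
    · obtain ⟨u, u1, u2⟩ := k
      refine ⟨{π u}, singleton_subset_iff.2 fun ⟨x, hx⟩ => hZ hz ⟨x, ?_⟩, finite_singleton _,
        fun A' hA h1 => ⟨_, rfl, ?_⟩⟩
      · rw [← u2, ← c.q_unit]
        exact qq _ _ ((hu x).trans hx)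
      · rw [cc] at h1
        obtain ⟨v, v1, v2⟩ := h1
        rw [cd]
        have v3 := cb_mono hA v1
        refine ⟨v, v1, (hg _ _).2 (Or.inr ⟨cb_mono inter_subset_left v3,
          cb_mono inter_subset_left u1, v2.trans u2.symm, v2 ▸ subset_closure hz, fun M => ?_⟩)⟩
        by_cases hm : m ∈ M
        · have e : A ∩ p ⁻¹' {m} ⊆ p ⁻¹' M := fun x hx =>
            show p x ∈ M from (show p x = m from hx.2).symm ▸ hm
          exact Or.inl ⟨cb_mono e v3, cb_mono e u1⟩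
        · have e : A ∩ p ⁻¹' {m} ⊆ (p ⁻¹' M)ᶜ := fun x hx t =>
            hm ((show p x = m from hx.2) ▸ t)
          exact Or.inr ⟨cb_mono e v3, cb_mono e u1⟩
    · refine ⟨∅, empty_subset _, finite_empty, fun A' hA h1 => ?_⟩
      rw [cc] at h1
      obtain ⟨v, v1, v2⟩ := h1
      exact absurd ⟨v, cb_mono hA v1, v2⟩ k
  let W0 : Set d.Y := π '' {u | u ∉ range stoneCechUnit ∧ ∀ v, π v = π u → v = u}
  let W1 : Set d.Y := π '' {u | ∀ m, u ∉ cb (p ⁻¹' {m})}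
  let W : ℕ → Set d.Y := fun m =>
    π '' {u | u ∉ range stoneCechUnit ∧ c.q u ∈ Z ∧ u ∈ cb A ∧ u ∈ cb (p ⁻¹' {m})}
  have s0 : Sep d.e α univ W0 := hb.transfer1 <| by
    rintro _ ⟨u, ⟨u1, u2⟩, rfl⟩
    refine ⟨u, u1, fun A' _ h => ?_⟩
    rw [cd] at h
    obtain ⟨v, v1, v2⟩ := h
    exact u2 v v2 ▸ v1
  have s1 : Sep d.e α univ W1 := by
    refine (Sep.ileft zodd_one (A := fun m => p ⁻¹' {m}) fun m => sep_closure ?_).mono
      (Order.one_le_iff_ne_zero.2 h0) (fun x _ => mem_iUnion.2 ⟨p x, rfl⟩) subset_rfl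
    rintro _ ⟨u, u1, rfl⟩ h
    rw [cd] at h
    obtain ⟨v, v1, v2⟩ := h
    rcases (hg _ _).1 v2 with e | e
    · exact u1 m (e ▸ v1)
    · exact u1 m (e.symm.mem hK hiso v1)
  have s2 : ∀ m, Sep d.e α univ (W m) := fun m => by
    have t1 : Sep d.e α (A ∩ p ⁻¹' {m}) (W m) := (hsep m).transfer1 <| by
      rintro _ ⟨u, ⟨-, u2, -, -⟩, rfl⟩
      refine ⟨c.q u, u2, fun A' _ h => ?_⟩
      rw [cd] at h
      obtain ⟨v, v1, v2⟩ := h
      rw [cc]
      exact ⟨v, v1, qq _ _ v2⟩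
    have t2 : Sep d.e α (A ∩ p ⁻¹' {m})ᶜ (W m) := sep_closure <| by
      rintro _ ⟨u, ⟨u1, -, u3, u4⟩, rfl⟩ h
      rw [cd] at h
      obtain ⟨v, v1, v2⟩ := h
      have v3 : v ∈ cb A ∧ v ∈ cb (p ⁻¹' {m}) ∧ v ∉ range stoneCechUnit := by
        rcases (hg _ _).1 v2 with e | e
        · exact e ▸ ⟨u3, u4, u1⟩
        · exact ⟨e.1, e.mem hK hiso u4, fun t => u1 (e.symm.eq t ▸ t)⟩
      rw [compl_inter, cb_union] at v1
      exact v3.2.2 (v1.elim (split hK hiso _ v3.1) (split hK hiso _ v3.2.1))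
    exact (t1.left t2).mono le_rfl (union_compl_self _).ge subset_rfl
  have s3 : Sep d.e α univ (⋃ m, W m) := by
    rcases ho with ho | ho
    · exact Sep.iright ho s2
    · refine (s2 0).mono le_rfl subset_rfl (iUnion_subset fun m => ?_)
      rintro _ ⟨u, ⟨u1, u2, u3, -⟩, rfl⟩
      exact ⟨u, ⟨u1, u2, u3, cb_mono (fun x _ => ho x) (cb_univ u)⟩, rfl⟩
  refine ((s0.right s1).right s3).mono le_rfl subset_rfl fun w hw => ?_
  obtain ⟨u, rfl⟩ := hs w
  have u1 : u ∉ range stoneCechUnit := fun ⟨x, hx⟩ => hw ⟨x, hx ▸ (hu x).symm⟩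
  by_cases k0 : ∀ v, π v = π u → v = u
  · exact Or.inl (Or.inl ⟨u, ⟨u1, k0⟩, rfl⟩)
  by_cases k1 : ∀ m, u ∉ cb (p ⁻¹' {m})
  · exact Or.inl (Or.inr ⟨u, k1, rfl⟩)
  push Not at k0 k1
  obtain ⟨v, v1, v2⟩ := k0
  obtain ⟨m, hm⟩ := k1
  have g := (((hg _ _).1 v1).resolve_left v2).symm
  refine Or.inr (mem_iUnion.2 ⟨m, u, ⟨u1, (hZc g.2.2.2.1).resolve_right fun ⟨x, hx⟩ => ?_,
    g.1, hm⟩, rfl⟩)
  exact u1 ⟨x, (c.fiber hx.symm).symm⟩

end Real

end Pool.Agent.MP_2e2931_gt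

end

section

/-! Stepping down in the hierarchy. -/

open Set Topology Ordinal

universe u

namespace Pool.Agent.MP_2e2931_gt

variable {X : Type u} [TopologicalSpace X]

/-- `γ` is the exact class of `X` in some compactification -/
def Att (X : Type u) [TopologicalSpace X] (γ : Ordinal.{0}) : Prop :=
  ∃ d : Cpt X, FB d.Y γ (range d.e) ∧ ∀ δ < γ, ¬ FB d.Y δ (range d.e)

theorem Att.mem {γ : Ordinal.{0}} (h : Att X γ) (hγ : γ < ω₁) : γ ∈ Cplx X := by
  obtain ⟨d, h1, h2⟩ := h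
  refine ⟨d, Or.inl ⟨hγ, h1⟩, fun a ha => ?_⟩
  rcases ha with ⟨-, ha⟩ | ⟨rfl, -⟩
  · exact not_lt.1 fun c => h2 a c ha
  · exact hγ.le

theorem att_of_mem {γ : Ordinal.{0}} (h : γ ∈ Cplx X) (hγ : γ < ω₁) : Att X γ := by
  obtain ⟨d, h1, h2⟩ := h
  refine ⟨d, (h1.resolve_right fun c => hγ.ne c.1).2, fun δ hδ c => ?_⟩
  exact not_le.2 hδ (h2 (Or.inl ⟨hδ.trans hγ, c⟩))

theorem compl_le {γ : Ordinal.{0}} (h : γ ∈ Cplx X) : γ ≤ ω₁ := by
  obtain ⟨d, h1, -⟩ := h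
  exact h1.elim (fun h => h.1.le) fun h => h.1.le

theorem ne_zero_of {b c : Cpt X} {γ : Ordinal.{0}} (hb : FB b.Y γ (range b.e)) {A : Set X}
    {Z : Set c.Y} (hZ : Z ⊆ (range c.e)ᶜ) (h : ¬ Sep c.e γ A Z) : γ ≠ 0 := by
  rintro rfl
  have h1 : IsCompact (univ : Set X) := by
    rw [b.emb.isInducing.isCompact_iff, image_univ]
    exact hb.zero.isCompact
  have h2 := (h1.image c.emb.continuous).isClosed
  rw [image_univ] at h2
  exact h ((sep_iff.2 (FB.closed h2)).mono le_rfl (subset_univ _) hZ)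

omit [TopologicalSpace X] in
theorem odd_pieces {Y : Type u} [TopologicalSpace Y] {e : X → Y} {β : Ordinal.{0}} {A : Set X}
    {Z : Set Y} (o : OddOrd β) (h : Sep e β A Z) :
    ∃ p : X → ℕ, ∀ m, ∃ b < β, Sep e b (A ∩ p ⁻¹' {m}) Z := by
  obtain ⟨B, h1, h2, h3⟩ := h
  rcases h1.inv with ⟨rfl, -⟩ | ⟨b, f, b1, b2, ⟨-, rfl⟩ | ⟨o', -⟩⟩
  · exact absurd o zodd_zero
  · choose! p hp using fun x hx => mem_iUnion.1 (h2 x hx)
    exact ⟨p, fun m => ⟨b m, b1 m, f m, b2 m, fun x hx => (show p x = m from hx.2) ▸ hp x hx.1,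
      fun w hw c => h3 w hw (mem_iUnion.2 ⟨m, c⟩)⟩⟩
  · exact absurd o o'

omit [TopologicalSpace X] in
theorem even_pieces {Y : Type u} [TopologicalSpace Y] {e : X → Y} {β : Ordinal.{0}} {A : Set X}
    {Z : Set Y} (o : ¬ OddOrd β) (h0 : β ≠ 0) (h : Sep e β A Z) :
    ∃ W : ℕ → Set Y, Z = ⋃ n, W n ∧ ∀ n, ∃ b < β, Sep e b A (W n) := by
  obtain ⟨B, h1, h2, h3⟩ := h
  rcases h1.inv with ⟨e0, -⟩ | ⟨b, f, b1, b2, ⟨o', -⟩ | ⟨-, rfl⟩⟩
  · exact absurd e0 h0
  · exact absurd o' o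
  · refine ⟨fun n => Z \ f n, subset_antisymm (fun w hw => ?_) (iUnion_subset fun n => sdiff_subset),
      fun n => ⟨b n, b1 n, f n, b2 n, fun x hx => mem_iInter.1 (h2 x hx) n, fun w hw => hw.2⟩⟩
    by_contra c
    exact h3 w hw (mem_iInter.2 fun n => by_contra fun t => c (mem_iUnion.2 ⟨n, hw, t⟩))

omit [TopologicalSpace X] in
theorem glue_pieces {Y : Type u} [TopologicalSpace Y] {e : X → Y} {β : Ordinal.{0}} {A : Set X}
    {Z : Set Y} {p : X → ℕ} (o : OddOrd β) (h : ∀ m, Sep e β (A ∩ p ⁻¹' {m}) Z) : Sep e β A Z :=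
  (Sep.ileft o h).mono le_rfl (fun x hx => mem_iUnion.2 ⟨p x, hx, rfl⟩) subset_rfl

section Steps

variable {K : Set X} (hK : IsCompact K) (hiso : ∀ x ∉ K, IsOpen {x})

include hK hiso

theorem att_even {b c : Cpt X} {γ : Ordinal.{0}} (hb : FB b.Y γ (range b.e)) (o : ¬ OddOrd γ)
    {A : Set X} {Z : Set c.Y} (hZ : Z ⊆ (range c.e)ᶜ) (hZc : closure Z ⊆ Z ∪ range c.e)
    (h : ¬ Sep c.e γ A Z) {p : X → ℕ} (hp : ∀ m, Sep c.e γ (A ∩ p ⁻¹' {m}) Z) : Att X γ := by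
  obtain ⟨d, d1, d2⟩ := realize hK hiso c A p hZ hZc
  refine ⟨d, d2 γ (ne_zero_of hb hZ h) (b.sep_beta hb) (Or.inl o) hp, fun δ hδ k => h ?_⟩
  by_cases t : OddOrd δ
  · exact (glue_pieces t (d1 δ k)).mono hδ.le subset_rfl subset_rfl
  · exact (glue_pieces (zodd_succ t) fun m => (d1 δ k m).mono le_self_add subset_rfl
      subset_rfl).mono (Order.add_one_le_of_lt hδ) subset_rfl subset_rfl

theorem att_odd {b c : Cpt X} {γ : Ordinal.{0}} (hb : FB b.Y (γ + 1) (range b.e))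
    {A : Set X} {Z : Set c.Y} (hZ : Z ⊆ (range c.e)ᶜ) (hZc : closure Z ⊆ Z ∪ range c.e)
    (h : ¬ Sep c.e γ A Z) (h' : Sep c.e (γ + 1) A Z) : Att X (γ + 1) := by
  obtain ⟨d, d1, d2⟩ := realize hK hiso c A (fun _ => 0) hZ hZc
  refine ⟨d, d2 _ (add_pos_of_right zero_lt_one γ).ne' (b.sep_beta hb) (Or.inr fun _ => rfl)
    fun m => h'.mono le_rfl inter_subset_left subset_rfl, fun δ hδ k => h ?_⟩
  exact (d1 δ k 0).mono (Order.lt_add_one_iff.1 hδ) (fun x hx => ⟨hx, rfl⟩) subset_rfl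

theorem step_down {b c : Cpt X} {γ : Ordinal.{0}} (hb : FB b.Y γ (range b.e))
    (hc : ∀ Z ⊆ (range c.e)ᶜ, closure Z ⊆ Z ∪ range c.e) (β : Ordinal.{0}) :
    ∀ (A : Set X) (Z : Set c.Y), Z ⊆ (range c.e)ᶜ → Sep c.e β A Z → ¬ Sep c.e γ A Z →
      Att X γ := by
  induction β using WellFoundedLT.induction with
  | ind β ih =>
  intro A Z hZ h hn
  by_cases o : OddOrd β
  · obtain ⟨p, hp⟩ := odd_pieces o h
    by_cases k : ∀ m, Sep c.e γ (A ∩ p ⁻¹' {m}) Z
    · exact att_even hK hiso hb (fun t => hn (glue_pieces t k)) hZ (hc Z hZ) hn k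
    · obtain ⟨m, hm⟩ := not_forall.1 k
      obtain ⟨a, a1, a2⟩ := hp m
      exact ih a a1 _ Z hZ a2 hm
  · have h0 : β ≠ 0 := by
      rintro rfl
      exact hn (h.mono bot_le subset_rfl subset_rfl)
    obtain ⟨W, rfl, hW⟩ := even_pieces o h0 h
    have hs : ∀ n, W n ⊆ (range c.e)ᶜ := fun n => (subset_iUnion W n).trans hZ
    by_cases k : ∀ n, Sep c.e γ A (W n)
    · obtain ⟨δ, t, rfl⟩ := zodd_pred (by_contra fun t => hn (Sep.iright t k))
      have k' : ¬ ∀ n, Sep c.e δ A (W n) := fun k' =>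
        hn ((Sep.iright t k').mono le_self_add subset_rfl subset_rfl)
      obtain ⟨n, hn'⟩ := not_forall.1 k'
      exact att_odd hK hiso hb (hs n) (hc _ (hs n)) hn' (k n)
    · obtain ⟨n, hn'⟩ := not_forall.1 k
      obtain ⟨a, a1, a2⟩ := hW n
      exact ih a a1 A _ (hs n) a2 hn'

theorem max_prop {c : Cpt X} (hc : IsDiscrete (range c.e)ᶜ) (d : Cpt X) {β : Ordinal.{0}}
    (h : FB c.Y β (range c.e)) : FB d.Y β (range d.e) := by
  refine sep_iff.1 ((sep_iff.2 h).transfer fun w hw => ?_)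
  have hcl := (hK.image d.emb.continuous).isClosed
  obtain ⟨V, hV, V1, V2⟩ := exists_mem_nhds_isClosed_subset
    (hcl.isOpen_compl.mem_nhds (fun ⟨x, _, hx⟩ => hw ⟨x, hx⟩ : w ∈ (d.e '' K)ᶜ))
  have hH : IsClosed (d.e ⁻¹' V) := V1.preimage d.emb.continuous
  have hop : ∀ x ∉ K, IsOpen {c.e x} := fun x hx => by
    obtain ⟨O, hO, e⟩ := c.emb.isInducing.isOpen_iff.1 (hiso x hx)
    have h1 : O ∩ range c.e = {c.e x} := by
      rw [← image_preimage_eq_inter_range, e, image_singleton]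
    have h2 := c.dense.open_subset_closure_inter hO
    rw [h1, closure_singleton] at h2
    have h3 : c.e x ∈ O := show x ∈ c.e ⁻¹' O from e ▸ rfl
    rwa [← subset_antisymm h2 (singleton_subset_iff.2 h3)]
  have e1 : closure (c.e '' (d.e ⁻¹' V)) ∩ (range c.e)ᶜ =
      closure (c.e '' (d.e ⁻¹' V)) ∩ (⋃ x ∉ K, {c.e x})ᶜ := by
    ext z
    refine and_congr_right fun hz => not_congr ⟨?_, fun t => ?_⟩
    · rintro ⟨x, rfl⟩
      have h1 : x ∈ closure (d.e ⁻¹' V) := by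
        rw [c.emb.isInducing.closure_eq_preimage_closure_image]
        exact hz
      rw [hH.closure_eq] at h1
      exact mem_iUnion₂.2 ⟨x, fun t => V2 h1 (mem_image_of_mem _ t), rfl⟩
    · obtain ⟨x, -, hx⟩ := mem_iUnion₂.1 t
      exact ⟨x, hx.symm⟩
  refine ⟨closure (c.e '' (d.e ⁻¹' V)) ∩ (range c.e)ᶜ, inter_subset_right,
    IsCompact.finite ?_ (hc.mono inter_subset_right), fun A _ hA => ?_⟩
  · rw [e1]
    exact (isClosed_closure.inter (isOpen_biUnion hop).isClosed_compl).isCompact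
  by_contra k
  have h1 : closure (c.e '' (A ∩ d.e ⁻¹' V)) ⊆ range c.e := fun z hz => by_contra fun t =>
    k ⟨z, ⟨closure_mono (image_mono inter_subset_right) hz, t⟩,
      closure_mono (image_mono inter_subset_left) hz⟩
  have h2 := ((c.emb.isInducing.isCompact_preimage' isClosed_closure.isCompact h1).image
    d.emb.continuous).isClosed
  have h3 : w ∈ closure (d.e '' (A ∩ d.e ⁻¹' V)) := by
    rw [image_inter_preimage, inter_comm]
    exact mem_closure_iff_nhds.2 fun t ht => by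
      rw [← inter_assoc]
      exact mem_closure_iff_nhds.1 hA _ (Filter.inter_mem ht hV)
  have h4 : A ∩ d.e ⁻¹' V ⊆ c.e ⁻¹' closure (c.e '' (A ∩ d.e ⁻¹' V)) := fun x hx =>
    subset_closure (mem_image_of_mem c.e hx)
  obtain ⟨x, -, hx⟩ := closure_minimal (image_mono h4) h2 h3
  exact hw ⟨x, hx⟩

end Steps

theorem discrete_closure {Y : Type u} [TopologicalSpace Y] {R : Set Y} (h : IsDiscrete Rᶜ) :
    ∀ Z ⊆ Rᶜ, closure Z ⊆ Z ∪ R := fun Z hZ z hz => by
  by_contra c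
  have h1 : z ∈ Rᶜ := fun t => c (Or.inr t)
  obtain ⟨U, hU, e⟩ := isDiscrete_iff_forall_mem_exists_isOpen.1 h z h1
  obtain ⟨y, y1, y2⟩ := mem_closure_iff.1 hz U hU ((e ▸ rfl : z ∈ U ∩ Rᶜ).1)
  have : y = z := (e ▸ (⟨y1, hZ y2⟩ : y ∈ U ∩ Rᶜ) : y ∈ ({z} : Set Y))
  exact c (Or.inl (this ▸ y2))

theorem KAnalytic.suslin (h : KAnalytic X) (c : Cpt X) : Suslin c.Y (range c.e) := by
  obtain ⟨D, _, _, _, i, hi, F, hF, e⟩ := h
  let G : List ℕ → Set D := fun s => ⋂ k : ℕ, ⋂ _ : k < s.length, F (s.take (k + 1))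
  have hG : ∀ (σ : ℕ → ℕ) (k : ℕ) (y : D), y ∈ G (List.ofFn fun t : Fin (k + 1) => σ t) ↔
      ∀ m ≤ k, y ∈ F (List.ofFn fun t : Fin (m + 1) => σ t) := fun σ k y => by
    simp only [G, mem_iInter, List.length_ofFn, Nat.lt_succ_iff]
    refine forall₂_congr fun m hm => ?_
    have : (List.ofFn fun t : Fin (k + 1) => σ t).take (m + 1) =
        List.ofFn fun t : Fin (m + 1) => σ t := by
      refine List.ext_getElem (by simp; omega) fun n _ _ => ?_
      simp only [List.getElem_take, List.getElem_ofFn]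
    rw [this]
  refine ⟨fun s => closure (c.e '' (i ⁻¹' G s)), fun _ => isClosed_closure,
    subset_antisymm ?_ fun w hw => ?_⟩
  · rintro _ ⟨x, rfl⟩
    obtain ⟨σ, hσ⟩ := mem_iUnion.1 (e ▸ mem_range_self x)
    exact mem_iUnion.2 ⟨σ, mem_iInter.2 fun k => subset_closure (mem_image_of_mem _
      ((hG σ k _).2 fun m _ => mem_iInter.1 hσ m))⟩
  obtain ⟨σ, hσ⟩ := mem_iUnion.1 hw
  by_contra hn
  obtain ⟨U, V, hU, hV, hUV, hd⟩ : ∃ U V : Set c.Y, IsOpen U ∧ IsOpen V ∧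
      (c.e '' (i ⁻¹' ⋂ k, F (List.ofFn fun t : Fin (k + 1) => σ t)) ⊆ U ∧ w ∈ V) ∧
      Disjoint U V := by
    have h1 : IsCompact (c.e '' (i ⁻¹' ⋂ k, F (List.ofFn fun t : Fin (k + 1) => σ t))) :=
      (hi.isInducing.isCompact_preimage' (isClosed_iInter fun k => hF _).isCompact
        (e ▸ subset_iUnion (fun σ : ℕ → ℕ => ⋂ k, F (List.ofFn fun t : Fin (k + 1) => σ t))
          σ)).image c.emb.continuous
    obtain ⟨U, V, hU, hV, h2, h3, hd⟩ := h1.separation_of_notMem (x := w)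
      fun t => hn (image_subset_range _ _ t)
    exact ⟨U, V, hU, hV, ⟨h2, h3⟩, hd⟩
  obtain ⟨O, hO, eO⟩ := hi.isInducing.isOpen_iff.1 (hU.preimage c.emb.continuous)
  obtain ⟨T, hT⟩ := hO.isClosed_compl.isCompact.elim_finite_subfamily_closed
    (fun k => F (List.ofFn fun t : Fin (k + 1) => σ t)) (fun k => hF _) (by
      refine eq_empty_of_forall_notMem fun y hy => hy.1 ?_
      obtain ⟨x, rfl⟩ : y ∈ range i := e ▸ mem_iUnion.2 ⟨σ, hy.2⟩
      exact show x ∈ i ⁻¹' O from eO ▸ hUV.1 (mem_image_of_mem _ hy.2))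
  obtain ⟨N, hN⟩ := T.finite_toSet.bddAbove
  obtain ⟨_, z1, x, hx, rfl⟩ := mem_closure_iff.1 (mem_iInter.1 hσ N) V hV hUV.2
  have h2 : i x ∈ O := by_contra fun t => (hT ▸ (⟨t, mem_iInter₂.2 fun m hm =>
    (hG σ N _).1 hx m (hN hm)⟩ : i x ∈ Oᶜ ∩ ⋂ k ∈ T, _) : i x ∈ (∅ : Set D))
  exact disjoint_left.1 hd (show x ∈ c.e ⁻¹' U from eO ▸ h2) z1

theorem odd_step {K : Set X} (hK : IsCompact K) (hiso : ∀ x ∉ K, IsOpen {x})
    {α γ : Ordinal.{0}} (hα : α ∈ Cplx X) (hle : α ≤ γ) (o : ¬ OddOrd γ)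
    (h : γ + 1 ∈ Cplx X) : γ ∈ Cplx X := by
  have h1 : γ < ω₁ := (Order.lt_add_one_iff.2 le_rfl).trans_le (compl_le h)
  obtain ⟨b, hb, -⟩ := att_of_mem hα (hle.trans_lt h1)
  obtain ⟨c, c1, c2⟩ := att_of_mem h ((Cardinal.isSuccLimit_omega 1).add_one_lt h1)
  obtain ⟨p, hp⟩ := odd_pieces (zodd_succ o) (sep_iff.2 c1)
  refine (att_even hK hiso (hb.mono hle) o subset_rfl (compl_union_self _ ▸ subset_univ _)
    (fun t => c2 γ (Order.lt_add_one_iff.2 le_rfl) (sep_iff.1 t)) (p := p) fun m => ?_).mem h1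
  obtain ⟨a, a1, a2⟩ := hp m
  exact a2.mono (Order.lt_add_one_iff.1 a1) subset_rfl subset_rfl

theorem ad_interval {K : Set X} (hK : IsCompact K) (hiso : ∀ x ∉ K, IsOpen {x})
    (hX : KAnalytic X) {c : Cpt X} (hc : IsDiscrete (range c.e)ᶜ) (h1 : ω₁ ∉ Cplx X) :
    ∃ α β, Cplx X = Icc α β := by
  obtain ⟨β, hβ, hm⟩ := wellFounded_lt.has_min {a | InF c.Y a (range c.e)}
    ⟨ω₁, Or.inr ⟨rfl, hX.suslin c⟩⟩
  have m1 : β ∈ Cplx X := ⟨c, hβ, fun a ha => not_lt.1 (hm a ha)⟩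
  have lt : β < ω₁ := (compl_le m1).lt_of_ne fun t => h1 (t ▸ m1)
  have fb : FB c.Y β (range c.e) := (hβ.resolve_right fun t => lt.ne t.1).2
  obtain ⟨α, hα, hm'⟩ := wellFounded_lt.has_min (Cplx X) ⟨β, m1⟩
  have up : Cplx X ⊆ Icc α β := fun γ hγ => ⟨not_lt.1 (hm' γ hγ), by
    obtain ⟨d, -, hd⟩ := hγ
    exact hd (Or.inl ⟨lt, max_prop hK hiso hc d fb⟩)⟩
  refine ⟨α, β, subset_antisymm up fun γ hγ => ?_⟩
  rcases hγ.2.eq_or_lt with rfl | hlt
  · exact m1
  obtain ⟨b, hb, -⟩ := att_of_mem hα ((hγ.1.trans hγ.2).trans_lt lt)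
  exact (step_down hK hiso (hb.mono hγ.1) (discrete_closure hc) β univ _ subset_rfl
    (sep_iff.2 fb) fun t => hm γ (Or.inl ⟨hlt.trans lt, sep_iff.1 t⟩) hlt).mem (hlt.trans lt)

end Pool.Agent.MP_2e2931_gt

end
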