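import Pool.Agent.MP_2e2931_gt.ZHier

section

/-! Definitions for the counterexample with a gap at level three. -/

open Set Topology Filter Cardinal Function

namespace Pool.Agent.MP_2e2931_gt.Z3

/-- the first uncountable ordinal as a type -/
def Om : Type := (Cardinal.aleph.{0} 1).ord.ToType

noncomputable instance : LinearOrder Om :=
  inferInstanceAs (LinearOrder (Cardinal.aleph.{0} 1).ord.ToType)

instance : WellFoundedLT Om := inferInstanceAs (WellFoundedLT (Cardinal.aleph.{0} 1).ord.ToType)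

instance : Nonempty Om :=
  Ordinal.nonempty_toType_iff.2 (by rw [Cardinal.ord_aleph]; exact (Ordinal.omega_pos 1).ne')

noncomputable instance : OrderBot Om := WellFoundedLT.toOrderBot Om

/-- `δ` is closed under `β` -/
def Cl (β : Om → Om) (δ : Om) : Prop := ∀ γ < δ, β γ < δ

/-- stationary and co-stationary -/
def StatP (S : Set Om) : Prop :=
  (∀ β η, ∃ δ, δ ∈ S ∧ η < δ ∧ Cl β δ) ∧ ∀ β η, ∃ δ, δ ∉ S ∧ η < δ ∧ Cl β δ

noncomputable def SS : Set Om := Classical.epsilon StatP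

/-- code of an address; the children of `a` are the lists `k :: a` -/
def N (a : List ℕ) : ℕ := Encodable.encode a

def dl (n : ℕ) : List ℕ := (Encodable.decode (α := List ℕ) n).getD []

/-- the address of the index `i` -/
def lf (i : ℕ) : List ℕ := dl i.unpair.2

/-- labels are codes of triples: head, level, last index -/
def lc (m n k : ℕ) : ℕ := Nat.pair m (Nat.pair n k)

def hd (l : ℕ) : ℕ := l.unpair.1

def lv (l : ℕ) : ℕ := l.unpair.2.unpair.1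

@[simp] theorem dl_N (a : List ℕ) : dl (N a) = a := by simp [dl, N]

theorem N_inj : Injective N := Encodable.encode_injective

@[simp] theorem N_nil : N [] = 0 := rfl

theorem N_cons (k : ℕ) (a : List ℕ) : N (k :: a) = Nat.pair k (N a) + 1 := rfl

theorem N_lt_cons (k : ℕ) (a : List ℕ) : N a < N (k :: a) :=
  Nat.lt_succ_of_le (Nat.right_le_pair _ _)

theorem lt_N_cons (k : ℕ) (a : List ℕ) : k < N (k :: a) :=
  Nat.lt_succ_of_le (Nat.left_le_pair _ _)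

theorem N_mono {a b : List ℕ} (h : a <:+ b) : N a ≤ N b := by
  induction b with
  | nil => rw [List.suffix_nil.1 h]
  | cons k b ih =>
    rcases List.suffix_cons_iff.1 h with rfl | h
    · exact le_rfl
    · exact (ih h).trans (N_lt_cons k b).le

theorem N_fin (n : ℕ) : {a | N a < n}.Finite :=
  (Set.finite_lt_nat n).preimage N_inj.injOn

@[simp] theorem lf_pair (m : ℕ) (a : List ℕ) : lf (Nat.pair m (N a)) = a := by simp [lf]

@[simp] theorem hd_lc (m n k : ℕ) : hd (lc m n k) = m := by simp [hd, lc]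

@[simp] theorem lv_lc (m n k : ℕ) : lv (lc m n k) = n := by simp [lv, lc]

/-- `s` is a sequence of labels with head `m` and growing levels -/
def Seq (m : ℕ) (s : ℕ → ℕ) : Prop := ∀ t, hd (s t) = m ∧ t ≤ lv (s t)

/-- iterated power sets -/
def UU : ℕ → Type
  | 0 => ℕ
  | n + 1 => Set (UU n)

/-- a set of size `beth ω` -/
def MM : Type := Σ n, UU n

/-- column, row, point of the Baire space -/
abbrev DD : Type := Om × Set MM × (ℕ → ℕ)

/-- the small subsets of `DD` -/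
def Small (L : Set DD) : Prop :=
  ∃ (ξ : Om) (H : ℕ → ℕ → ℕ) (v : Set (Set MM)), #v ≤ #MM ∧
    ∀ y ∈ L, y.1 ≤ ξ ∨ (∃ n, ∀ l, y.2.2 l ≤ H n l) ∨ y.2.1 ∈ v

def pth (A : ∀ n, Set (UU n)) : ℕ → List MM
  | 0 => []
  | i + 1 => ⟨i + 1, A i⟩ :: pth A i

@[simp] theorem pth_length (A : ∀ n, Set (UU n)) (i : ℕ) : (pth A i).length = i := by
  induction i with
  | zero => rfl
  | succ i ih => simp [pth, ih]

structure ED where
  δ : Om
  I : Set ℕ
  y : ℕ → DD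
  spl : List ℕ → ℕ
  wt : List ℕ → ℕ

structure ED.Good (E : ED) : Prop where
  mem : E.δ ∈ SS
  inj : Injective E.y
  col : ∀ i, (E.y i).1 < E.δ
  fin : ∀ ξ < E.δ, {i | (E.y i).1 ≤ ξ}.Finite
  emax : ∀ u : Ultrafilter ℕ, E.I ∈ u → (u : Filter ℕ) ≤ atTop →
    ∃ a, {i | a <:+ lf i} ∈ u ∧ ∀ v, {i | (E.y i).2.2 (E.spl a) = v} ∉ u

structure Task where
  δ : Om
  I : Set ℕ
  mn : List MM → DD
  spl : List ℕ → ℕ
  wt : List ℕ → ℕ

def Task.sel (t : Task) (A : ∀ n, Set (UU n)) : ED :=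
  ⟨t.δ, t.I, fun i => t.mn (pth A i), t.spl, t.wt⟩

structure FamP (F : Set ED) : Prop where
  good : ∀ E ∈ F, E.Good
  ad : ∀ E ∈ F, ∀ E' ∈ F, E ≠ E' → (range E.y ∩ range E'.y).Finite
  gen : ∀ t : Task, Injective t.mn → (∀ A, (t.sel A).Good) → ∃ A, t.sel A ∈ F

/-- the almost disjoint family -/
noncomputable def EE : Set ED := Classical.epsilon FamP

abbrev VV : Type := ℕ × ℕ → ℕ∞

abbrev Ph (ι : Type) : Type := ι × ℕ → VV

abbrev L0 : Type := EE × ℕ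

/-- data describing a compactification -/
structure RD (ι : Type) where
  F : DD → ℕ → Set (Ph ι)
  A : EE → ℕ → ℕ → Set (Ph ι)
  perp : EE → ℕ → ℕ → Prop

structure RD.Valid {ι : Type} (r : RD ι) : Prop where
  clF : ∀ y l, IsClosed (r.F y l)
  cov : ∀ y p, ∃ m, ∀ n, ∃ k, p ∈ r.F y (lc m n k)
  clA : ∀ E i u, IsClopen (r.A E i u)
  rich : ∀ (E : EE) m s, Seq m s → ∃ Q : Finset (ℕ × ℕ × ℕ),
    (∀ q ∈ Q, r.perp E q.2.1 q.2.2 ∧ ∀ i, r.F (E.1.y i) (s q.1) ⊆ r.A E i q.2.2) ∧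
      ∀ᶠ i in atTop, i ∈ E.1.I → ∀ p, ∃ q ∈ Q, p ∈ r.A E i q.2.1

def RD.triv (ι : Type) : RD ι := ⟨fun _ _ => univ, fun _ _ _ => univ, fun _ _ _ => True⟩

/-- the coordinates of the fibres -/
inductive Sg : Type
  | base : Sg
  | mk (f : L0 → Sg) (d : RD L0) : Sg

abbrev PP : Type := Ph Sg

def res (f : L0 → Sg) (p : PP) : Ph L0 := fun a => p (f a.1, a.2)

def rd0 : Sg → RD Sg
  | .base => .triv Sg
  | .mk f d => ⟨fun y l => res f ⁻¹' d.F y l, fun E i u => res f ⁻¹' d.A E i u, d.perp⟩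

open Classical in
noncomputable def rd (σ : Sg) : RD Sg := if (rd0 σ).Valid then rd0 σ else .triv Sg

def Sub (τ σ : Sg) : Prop := ∃ f d l, σ = .mk f d ∧ τ = f l

/-- `c` is the shortest address on its path with code at least `k` -/
def IsRoot (k : ℕ) (c : List ℕ) : Prop := k ≤ N c ∧ ∀ c', c' <:+ c → c' ≠ c → N c' < k

def LabOK (wt : List ℕ → ℕ) (i : ℕ) (x : VV) (sub : ℕ → ℕ → Prop) (inA : ℕ → Prop)
    (c : List ℕ) : Prop :=
  ∃ l0 ≤ wt c, x (3, N c) = (l0 : ℕ) ∧ ∀ b, c <:+ b → b <:+ lf i →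
    ∃ l ≤ wt b, x (3, N b) = (l : ℕ) ∧ hd l = hd l0 ∧ N b ≤ lv l ∧ ∀ u ≤ i, sub l u → inA u

def RecOK (perp : ℕ → ℕ → Prop) (i : ℕ) (x : VV) (inA : ℕ → Prop) (c : List ℕ) : Prop :=
  (∀ n < N c, x (2, n) ≤ (N c : ℕ)) ∧ x (2, N c) ≠ 0 ∧
    ∀ e ≤ i, x (2, N c) = (e : ℕ) → (∀ w ∈ dl e, inA w) ∧
      ∀ n < N c, ∀ e' ≤ N c, x (2, n) = (e' : ℕ) → e' ≠ 0 → ∃ w ∈ dl e, ∃ w' ∈ dl e', perp w w'

/-- the value `x` is exempt at the index `i` -/
def Ex (wt : List ℕ → ℕ) (perp : ℕ → ℕ → Prop) (i : ℕ) (j : ℕ∞) (x : VV) (sub : ℕ → ℕ → Prop)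
    (inA : ℕ → Prop) : Prop :=
  ∃ k ≤ i, ∃ j' ≤ i, x (0, 0) = (k : ℕ) ∧ j = (j' : ℕ) ∧ k ≤ j' ∧ ∀ c, c <:+ lf i → IsRoot k c →
    LabOK wt i x sub inA c ∧ (x (1, 0) = (N c : ℕ) ∨ RecOK perp i x inA c)

/-- the killed value -/
def kil (y : DD) : VV := fun a => if a.1 = 4 then (y.2.2 a.2 : ℕ) else ⊤

def jv {ι : Type} (p : Ph ι) (σ : ι) : ℕ∞ := p (σ, 0) (0, 0)

def ExP (E : EE) (i : ℕ) (σ : Sg) (p : PP) : Prop :=
  Ex E.1.wt ((rd σ).perp E) i (jv p σ) (p (σ, i + 1))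
    (fun l u => (rd σ).F (E.1.y i) l ⊆ (rd σ).A E i u) (fun u => p ∈ (rd σ).A E i u)

open Classical in
noncomputable def hh (E : EE) (i : ℕ) (p : PP) : Sg → VV := fun σ =>
  if jv p σ = ((i + 1 : ℕ) : ℕ∞) ∨ ExP E i σ p then p (σ, i + 1) else kil (E.1.y i)

abbrev XP : Type := DD × PP

/-- the algebra of basic clopen sets -/
def InB (B : Set XP) : Prop :=
  (∀ y, IsClopen {p | (y, p) ∈ B}) ∧ ∀ E : EE, ∃ C : Set (Sg → VV), IsClopen C ∧
    ∀ᶠ i in atTop, i ∈ E.1.I → ∀ p, ((E.1.y i, p) ∈ B ↔ hh E i p ∈ C)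

def fib (y : DD) : Set XP := {x | x.1 = y}

def tube (E : EE) : Set XP := {x | ∃ i ∈ E.1.I, x.1 = E.1.y i}

/-- the union of the fibres of `E` with index in `J` -/
def un (E : EE) (J : Set ℕ) : Set XP := {x | ∃ i ∈ E.1.I, i ∈ J ∧ x.1 = E.1.y i}

/-- the points of the tube with a given value of `hh` -/
def tc (E : EE) (σ : Sg) (a : ℕ × ℕ) (v : ℕ) : Set XP :=
  {x | ∃ i ∈ E.1.I, x.1 = E.1.y i ∧ hh E i x.2 σ a = (v : ℕ)}

/-- the points of the tube in the sets `A i` -/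
def tA (E : EE) (A : ℕ → Set PP) : Set XP := {x | ∃ i ∈ E.1.I, x.1 = E.1.y i ∧ x.2 ∈ A i}

open Classical in
noncomputable def Th (u : Ultrafilter XP) : {B // InB B} → Bool := fun B => decide (B.1 ∈ u)

def XS : Set ({B // InB B} → Bool) := Th '' {u | (∃ y, fib y ∈ u) ∨ ∀ E, tube E ∉ u}

/-- the space -/
abbrev XX : Type := XS

noncomputable def eX (x : XP) : XX :=
  ⟨Th (pure x), _, Or.inl ⟨x.1, Ultrafilter.mem_pure.2 rfl⟩, rfl⟩

/-- what is used about a compactification -/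
structure Frame (Y : Type) [TopologicalSpace Y] where
  ι : XP → Y
  P : Set Y
  cont : ∀ y, Continuous fun p => ι (y, p)
  cP : IsClosed P
  sep : ∀ B, InB B → ∀ z ∈ P ∪ range ι, z ∈ closure (ι '' B) → z ∉ closure (ι '' Bᶜ)
  cov : ∀ C, IsClosed C → Disjoint C P → ∃ (T : Finset EE) (D0 : Finset DD),
    ∀ x, ι x ∈ C → (∃ E ∈ T, x ∈ tube E) ∨ x.1 ∈ D0
  ptube : ∀ E, Disjoint P (closure (ι '' tube E))

def Frame.R {Y : Type} [TopologicalSpace Y] (fr : Frame Y) : Set Y := fr.P ∪ range fr.ι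

/-- limits along a tube in the special compactification -/
def KLim (c : Cpt XX) : Prop :=
  ∀ (E : EE) (p : ℕ → PP) (φ : Sg → VV) (Y : Set ℕ), Y ⊆ E.1.I → Y.Infinite →
    Tendsto (fun i => hh E i (p i)) (atTop ⊓ 𝓟 Y) (𝓝 φ) →
      ∃ z, z ∉ range c.e ∧ Tendsto (fun i => c.e (eX (E.1.y i, p i))) (atTop ⊓ 𝓟 Y) (𝓝 z)

/-- the set `Y` of indices branches at `b` with rank `γ` -/
noncomputable def Br (Y : Set ℕ) : Om → List ℕ → Prop :=
  WellFounded.fix (C := fun _ => List ℕ → Prop) wellFounded_lt fun γ ih b =>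
    (γ = ⊥ → ∃ i ∈ Y, lf i = b) ∧
      ∀ γ' (h : γ' < γ) (n : ℕ), ∃ k ≥ n, ∃ c, k :: b <:+ c ∧ ih γ' h c

def Rk (Y : Set ℕ) (γ : Om) (a : List ℕ) : Prop := ∃ c, a <:+ c ∧ Br Y γ c

theorem br_iff {Y : Set ℕ} {γ : Om} {b : List ℕ} : Br Y γ b ↔
    (γ = ⊥ → ∃ i ∈ Y, lf i = b) ∧ ∀ γ' < γ, ∀ n : ℕ, ∃ k ≥ n, Rk Y γ' (k :: b) := by
  unfold Rk
  conv_lhs => unfold Br
  rw [WellFounded.fix_eq]
  rfl

/-- the combinatorial situation of the fusion argument -/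
structure Sit (W : Type) [LinearOrder W] where
  I : Set ℕ
  pres : List ℕ → Set W
  dec : List ℕ → Set W
  jj : List ℕ → W → ℕ
  lab : List ℕ → W → ℕ
  wt : List ℕ → ℕ
  perp : W → ℕ → ℕ → Prop
  sub : W → ℕ → ℕ → ℕ → Prop
  inA : W → (W → VV) → ℕ → ℕ → Prop
  inj : InjOn lf I
  pfin : ∀ c, (pres c).Finite
  mono : ∀ b c σ, b <:+ c → σ ∈ pres b → σ ∈ pres c ∧ jj c σ = jj b σ
  jnew : ∀ b k c σ, k :: b <:+ c → σ ∈ pres c → σ ∉ pres b → N (k :: b) < jj c σ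
  jpos : ∀ c σ, σ ∈ pres c → 0 < jj c σ
  decp : ∀ c σ, σ ∈ dec c → σ ∈ pres c
  pdec : ∀ b k σ, σ ∈ pres b → σ ∈ dec (k :: b)
  labb : ∀ c σ, σ ∈ dec c → lab c σ ≤ wt c ∧ N c ≤ lv (lab c σ)
  labh : ∀ b c σ, b <:+ c → σ ∈ dec b → hd (lab c σ) = hd (lab b σ)
  insub : ∀ i ∈ I, ∀ c σ φ u, c <:+ lf i → σ ∈ dec c → sub σ i (lab c σ) u → inA σ φ i u
  jle : ∀ i ∈ I, ∀ σ ∈ pres (lf i), jj (lf i) σ ≤ i
  ent : ∀ σ, {c | σ ∉ dec c ∧ ∃ c', c <:+ c' ∧ σ ∈ pres c'}.Finite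
  rich : ∀ σ φ m s, Seq m s → ∃ Q : Finset (ℕ × ℕ × ℕ),
    (∀ q ∈ Q, perp σ q.2.1 q.2.2 ∧ ∀ i, sub σ i (s q.1) q.2.2) ∧
      ∀ᶠ i in atTop, i ∈ I → ∃ q ∈ Q, inA σ φ i q.2.1
  dep : ∀ σ φ φ' i u, (∀ τ < σ, φ τ = φ' τ) → (inA σ φ i u ↔ inA σ φ' i u)

section

variable {W : Type} [LinearOrder W] (s : Sit W)

/-- the value at `σ` is preserved at the index `i` -/
def Sit.Pz (φ : W → VV) (i : ℕ) (σ : W) : Prop :=
  σ ∉ s.pres (lf i) ∨
    Ex s.wt (s.perp σ) i (s.jj (lf i) σ : ℕ) (φ σ) (s.sub σ i) (s.inA σ φ i)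

/-- the indices at which all values below `η` are preserved -/
def Sit.Yb (φ : W → VV) (η : WithTop W) : Set ℕ :=
  {i | i ∈ s.I ∧ ∀ σ : W, (σ : WithTop W) < η → s.Pz φ i σ}

/-- `σ` is present in at most one object, with a large value -/
def Sit.Inv (Λ : Set (List ℕ × Om)) (σ : W) : Prop :=
  ∀ o ∈ Λ, σ ∈ s.pres o.1 → ∀ o' ∈ Λ, o'.1 ≠ o.1 → σ ∉ s.pres o'.1 ∧ N o'.1 < s.jj o.1 σ

/-- the record `r` is fine at the root `c` for the index `i` -/
def Sit.OK (σ : W) (φ : W → VV) (r : ℕ → ℕ) (c : List ℕ) (i : ℕ) : Prop :=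
  (∀ n < N c, r n ≤ N c) ∧ r (N c) ≠ 0 ∧ (∀ w ∈ dl (r (N c)), s.inA σ φ i w) ∧
    ∀ n < N c, r n ≠ 0 → ∃ w ∈ dl (r (N c)), ∃ w' ∈ dl (r n), s.perp σ w w'

end

/-- ranks closed under `β` survive the choice of the values below `η` -/
def Pv (W : Type) [LinearOrder W] (η : WithTop W) (β : Om → Om) : Prop :=
  ∀ (s : Sit W) (ξ : WithTop W) (φ : W → VV) (Λ : Set (List ℕ × Om)), ξ ≤ η → Λ.Finite →
    (∀ o ∈ Λ, Cl β o.2 ∧ Br (s.Yb φ ξ) o.2 o.1) →
    (∀ σ : W, ξ ≤ (σ : WithTop W) → (σ : WithTop W) < η → s.Inv Λ σ) →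
      ∃ φ' : W → VV, (∀ σ : W, (σ : WithTop W) < ξ → φ' σ = φ σ) ∧
        ∀ o ∈ Λ, Br (s.Yb φ' η) o.2 o.1

/-- conditions in a fibre -/
structure Cond (ι : Type) where
  a : Finset ι
  p : Ph ι
  d : ℕ
  J : ℕ
  fin : ∀ σ ∈ a, jv p σ ≠ ⊤

def Cond.K {ι : Type} (q : Cond ι) : Set (Ph ι) :=
  {p | (∀ σ ∈ q.a, ∀ n ≤ q.d, p (σ, n) = q.p (σ, n)) ∧ ∀ σ ∉ q.a, (q.J : ℕ∞) ≤ jv p σ}

/-- `q'` extends `q` -/
def Cond.Le {ι : Type} (q' q : Cond ι) : Prop :=
  q.a ⊆ q'.a ∧ q.d ≤ q'.d ∧ q.J ≤ q'.J ∧ (∀ σ ∈ q.a, ∀ n ≤ q.d, q'.p (σ, n) = q.p (σ, n)) ∧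
    ∀ σ ∈ q'.a, σ ∉ q.a → (q.J : ℕ∞) ≤ jv q'.p σ

/-- below `q` the head `m` works densely -/
def Cond.Hd {ι : Type} (q : Cond ι) (F : ℕ → Set (Ph ι)) (m : ℕ) : Prop :=
  ∀ q' : Cond ι, q'.Le q → ∀ n, ∃ (q'' : Cond ι) (k : ℕ), q''.Le q' ∧ q''.K ⊆ F (lc m n k)

/-- the tasks at the list `l` -/
def Tk {ι : Type} (a : List ℕ → Finset ι) (l : List ℕ) : Option ι → Prop
  | none => True
  | some σ => l ≠ [] ∧ σ ∈ a l.tail

/-- a tree of conditions in one fibre -/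
structure Sys {ι : Type} (FF : Option ι → ℕ → Set (Ph ι)) where
  a : List ℕ → Finset ι
  jj : List ℕ → ι → ℕ
  lab : List ℕ → Option ι → ℕ
  M : List ℕ → ℕ
  K : List ℕ → Set (Ph ι)
  pt : List ℕ → ℕ → (ι → VV) → Ph ι
  mono : ∀ l l' σ, l <:+ l' → σ ∈ a l → σ ∈ a l' ∧ jj l' σ = jj l σ
  kmono : ∀ l l', l <:+ l' → K l' ⊆ K l
  jnew : ∀ k l l' σ, k :: l <:+ l' → σ ∈ a l' → σ ∉ a l → k < jj l' σ
  jpos : ∀ l σ, σ ∈ a l → 0 < jj l σ ∧ jj l σ ≤ M l
  lab1 : ∀ l t, Tk a l t → K l ⊆ FF t (lab l t) ∧ lv (lab l t) = l.length ∧ lab l t ≤ M l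
  lab2 : ∀ l l' t, l <:+ l' → Tk a l t → hd (lab l' t) = hd (lab l t)
  ptK : ∀ l i φ, M l ≤ i → pt l i φ ∈ K l
  ptx : ∀ l i φ σ, M l ≤ i → pt l i φ (σ, i + 1) = φ σ
  ptj : ∀ l i φ σ, (σ ∈ a l → jv (pt l i φ) σ = (jj l σ : ℕ)) ∧
    (σ ∉ a l → jv (pt l i φ) σ = ((i + 1 : ℕ) : ℕ∞))
  ptdep : ∀ l i φ φ' σ n, φ σ = φ' σ → pt l i φ (σ, n) = pt l i φ' (σ, n)

/-- `y` and `y'` have the same type over `W` up to `l` and `n` -/
def Same {ι Ω : Type} (a : DD → List ℕ → Finset ι) (info : DD → List ℕ → ι → Ω)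
    (e : DD → List ℕ → Ω) (W : Set ι) (y y' : DD) (l : List ℕ) (n : ℕ) : Prop :=
  (∀ l', l' <:+ l → e y l' = e y' l' ∧ ∀ σ ∈ W, (σ ∈ a y l' ↔ σ ∈ a y' l') ∧
    (σ ∈ a y l' → info y l' σ = info y' l' σ)) ∧ ∀ k < n, y.2.2 k = y'.2.2 k

/-- the tree of types -/
structure Tree {ι Ω : Type} (a : DD → List ℕ → Finset ι) (info : DD → List ℕ → ι → Ω)
    (e : DD → List ℕ → Ω) where
  W : Set ι
  yy : List ℕ → DD
  ll : List ℕ → List ℕ
  nn : List ℕ → ℕ
  spl : List ℕ → ℕ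
  cnt : W.Countable
  pos : ∀ c (u : Finset ι), ¬ Small {y | Same a info e W y (yy c) (ll c) (nn c) ∧
    ∀ σ ∈ a y (ll c), σ ∈ u → σ ∈ W}
  step : ∀ k b, N (k :: b) :: ll b <:+ ll (k :: b) ∧ spl b < nn (k :: b)
  len : ∀ c, N c ≤ (ll c).length
  mono : ∀ b c, b <:+ c → ll b <:+ ll c ∧ nn b ≤ nn c ∧ Same a info e W (yy c) (yy b) (ll b) (nn b)
  inj : ∀ b, Injective fun k => (yy (k :: b)).2.2 (spl b)
  ent : ∀ σ ∈ W, {c | ¬ Tk (a (yy c)) (ll c) (some σ) ∧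
    ∃ c', c <:+ c' ∧ σ ∈ a (yy c') (ll c')}.Finite

end Pool.Agent.MP_2e2931_gt.Z3

end

section

open Set Topology Filter Cardinal Function

namespace Pool.Agent.MP_2e2931_gt.Z3

theorem clopen_dep {α β : Type} [TopologicalSpace β] [CompactSpace β] {C : Set (α → β)}
    (hC : IsClopen C) :
    ∃ Z : Finset α, ∀ p p' : α → β, (∀ a ∈ Z, p a = p' a) → p ∈ C → p' ∈ C := by
  classical
  have h := isOpen_pi_iff.1 hC.isOpen
  choose! I u hu hsub using h
  have hcomp : IsCompact C := hC.isClosed.isCompact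
  obtain ⟨t, htC, ht⟩ := hcomp.elim_nhds_subcover (fun q => (I q : Set α).pi (u q)) fun q hq =>
    set_pi_mem_nhds (I q).finite_toSet fun a ha => (hu q hq a ha).1.mem_nhds (hu q hq a ha).2
  refine ⟨t.biUnion I, fun p p' hpp hp => ?_⟩
  obtain ⟨q, hq, hpq⟩ := mem_iUnion₂.1 (ht hp)
  refine hsub q (htC q hq) fun a ha => ?_
  rw [← hpp a (Finset.mem_biUnion.2 ⟨q, hq, ha⟩)]
  exact hpq a ha

theorem rd_triv (ι : Type) : (RD.triv ι).Valid where
  clF _ _ := isClosed_univ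
  cov _ _ := ⟨0, fun _ => ⟨0, mem_univ _⟩⟩
  clA _ _ _ := isClopen_univ
  rich _ _ _ _ := ⟨{(0, 0, 0)}, fun _ _ => ⟨trivial, fun _ => subset_univ _⟩,
    Eventually.of_forall fun _ _ _ => ⟨(0, 0, 0), Finset.mem_singleton_self _, mem_univ _⟩⟩

theorem rd_valid (σ : Sg) : (rd σ).Valid := by
  unfold rd
  split_ifs with h
  exacts [h, rd_triv Sg]

theorem rd_dep (σ : Sg) {p p' : PP} (h : ∀ τ n, Sub τ σ → p (τ, n) = p' (τ, n)) (E : EE)
    (i u : ℕ) : p ∈ (rd σ).A E i u ↔ p' ∈ (rd σ).A E i u := by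
  unfold rd
  split_ifs
  · cases σ with
    | base => exact Iff.rfl
    | mk f d =>
      have e : res f p = res f p' := funext fun a => h _ _ ⟨f, d, a.1, rfl, rfl⟩
      change res f p ∈ d.A E i u ↔ res f p' ∈ d.A E i u
      rw [e]
  · exact Iff.rfl

theorem rd_wf : WellFounded Sub := by
  refine ⟨fun σ => ?_⟩
  induction σ with
  | base =>
    refine ⟨_, fun τ h => ?_⟩
    obtain ⟨f, d, l, e, -⟩ := h
    cases e
  | mk f d ih =>
    refine ⟨_, fun τ h => ?_⟩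
    obtain ⟨f', d', l, e, rfl⟩ := h
    cases e
    exact ih l

theorem sg_ord : ∃ o : Sg → Ordinal.{0}, Injective o ∧ ∀ τ σ, Sub τ σ → o τ < o σ := by
  obtain ⟨s, hs, hw⟩ := @IsWellFounded.exists_well_order_ge Sg Sub ⟨rd_wf⟩
  exact ⟨Ordinal.typein s, Ordinal.typein_injective s,
    fun τ σ h => (Ordinal.typein_lt_typein s).2 (hs τ σ h)⟩

theorem rd_cont (f : L0 → Sg) : Continuous (res f) :=
  continuous_pi fun a => continuous_apply (f a.1, a.2)

theorem rd_real (r : RD Sg) (h : r.Valid) : ∃ σ, (rd σ).A = r.A ∧ (rd σ).perp = r.perp := by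
  choose Z hZ using fun E i u => clopen_dep (h.clA E i u)
  have hc : ∀ E : EE, ∃ g : ℕ → Sg, ∀ i u, ∀ a ∈ Z E i u, ∃ n, g n = a.1 := fun E => by
    have c : (insert Sg.base (⋃ i, ⋃ u, Prod.fst '' (Z E i u : Set (Sg × ℕ)))).Countable :=
      (countable_iUnion fun i => countable_iUnion fun u =>
        (Z E i u).countable_toSet.image _).insert _
    obtain ⟨g, hg⟩ := c.exists_eq_range (insert_nonempty _ _)
    refine ⟨g, fun i u a ha => ?_⟩
    have : a.1 ∈ range g := by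
      rw [← hg]
      exact Or.inr (mem_iUnion.2 ⟨i, mem_iUnion.2 ⟨u, a, ha, rfl⟩⟩)
    exact this
  choose g hg using hc
  let f : L0 → Sg := fun l => g l.1 l.2
  have hA : ∀ E i u, res f ⁻¹' (res f '' r.A E i u) = r.A E i u := fun E i u => by
    refine Subset.antisymm ?_ (subset_preimage_image _ _)
    rintro p ⟨p', hp', e⟩
    refine hZ E i u p' p (fun a ha => ?_) hp'
    obtain ⟨n, hn⟩ := hg E i u a ha
    have := congrFun e ((E, n), a.2)
    change p' (g E n, a.2) = p (g E n, a.2) at this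
    rwa [hn] at this
  let d : RD L0 := ⟨fun y l => res f '' r.F y l, fun E i u => res f '' r.A E i u, r.perp⟩
  have eA : (rd0 (.mk f d)).A = r.A := funext fun E => funext fun i => funext fun u => hA E i u
  have hv : (rd0 (.mk f d)).Valid := by
    refine ⟨fun y l => ?_, fun y p => ?_, fun E i u => ?_, fun E m s hs => ?_⟩
    · exact (((h.clF y l).isCompact.image (rd_cont f)).isClosed).preimage (rd_cont f)
    · obtain ⟨m, hm⟩ := h.cov y p
      refine ⟨m, fun n => ?_⟩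
      obtain ⟨k, hk⟩ := hm n
      exact ⟨k, p, hk, rfl⟩
    · rw [eA]
      exact h.clA E i u
    · obtain ⟨Q, h1, h2⟩ := h.rich E m s hs
      refine ⟨Q, fun q hq => ⟨(h1 q hq).1, fun i => ?_⟩, ?_⟩
      · exact preimage_mono (image_mono ((h1 q hq).2 i))
      · rw [eA]
        exact h2
  refine ⟨.mk f d, ?_, ?_⟩
  · rw [rd, if_pos hv, eA]
  · rw [rd, if_pos hv]
    rfl

end Pool.Agent.MP_2e2931_gt.Z3

end

section

open Set Topology Filter Cardinal Function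

namespace Pool.Agent.MP_2e2931_gt.Z3

section

variable {X : Type} [TopologicalSpace X] {P Q : X → Prop}

theorem clop_const (c : Prop) : IsClopen {_p : X | c} := by
  by_cases h : c
  · simpa [h] using isClopen_univ
  · simpa [h] using isClopen_empty

theorem clop_and (hP : IsClopen {p | P p}) (hQ : IsClopen {p | Q p}) : IsClopen {p | P p ∧ Q p} :=
  hP.inter hQ

theorem clop_or (hP : IsClopen {p | P p}) (hQ : IsClopen {p | Q p}) : IsClopen {p | P p ∨ Q p} :=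
  hP.union hQ

theorem clop_not (hP : IsClopen {p | P p}) : IsClopen {p | ¬ P p} := hP.compl

theorem clop_imp (hP : IsClopen {p | P p}) (hQ : IsClopen {p | Q p}) :
    IsClopen {p | P p → Q p} := by
  simpa only [imp_iff_not_or] using clop_or (clop_not hP) hQ

theorem clop_all {α : Type} {S : α → Prop} {R : α → X → Prop} (hS : {a | S a}.Finite)
    (h : ∀ a, IsClopen {p | R a p}) : IsClopen {p | ∀ a, S a → R a p} := by
  have : {p | ∀ a, S a → R a p} = ⋂ a ∈ {a | S a}, {p | R a p} := by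
    ext p
    simp
  rw [this]
  exact hS.isClopen_biInter fun a _ => h a

theorem clop_ex {α : Type} {S : α → Prop} {R : α → X → Prop} (hS : {a | S a}.Finite)
    (h : ∀ a, IsClopen {p | R a p}) : IsClopen {p | ∃ a, S a ∧ R a p} := by
  have : {p | ∃ a, S a ∧ R a p} = ⋃ a ∈ {a | S a}, {p | R a p} := by
    ext p
    simp
  rw [this]
  exact hS.isClopen_biUnion fun a _ => h a

theorem clop_eq {f : X → ℕ∞} (hf : Continuous f) (n : ℕ) : IsClopen {p | f p = (n : ℕ)} :=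
  IsClopen.preimage (s := {(n : ℕ∞)})
    ⟨isClosed_singleton, ENat.isOpen_singleton (ENat.coe_ne_top n)⟩ hf

theorem clop_le {f : X → ℕ∞} (hf : Continuous f) (n : ℕ) : IsClopen {p | f p ≤ (n : ℕ)} := by
  have : {p | f p ≤ (n : ℕ)} = {p | ∃ m, m ≤ n ∧ f p = (m : ℕ)} := by
    ext p
    simp only [mem_setOf_eq]
    constructor
    · intro h
      obtain ⟨m, hm⟩ := ENat.ne_top_iff_exists.1 (ne_top_of_le_ne_top (ENat.coe_ne_top n) h)
      exact ⟨m, by rw [← hm] at h; exact_mod_cast h, hm.symm⟩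
    · rintro ⟨m, hm, h⟩
      rw [h]
      exact_mod_cast hm
  rw [this]
  exact clop_ex (Set.finite_le_nat n) fun m => clop_eq hf m

theorem clop_suf (l : List ℕ) : {c | c <:+ l}.Finite :=
  (List.finite_toSet l.tails).subset fun _ hc => (List.mem_tails _ _).2 hc

theorem clop_lab (wt : List ℕ → ℕ) (i : ℕ) {x : X → VV} (hx : ∀ a, Continuous fun p => x p a)
    (sub : ℕ → ℕ → Prop) {inA : X → ℕ → Prop} (hA : ∀ u, IsClopen {p | inA p u}) (c : List ℕ) :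
    IsClopen {p | LabOK wt i (x p) sub (inA p) c} := by
  unfold LabOK
  refine clop_ex (Set.finite_le_nat _) fun l0 => clop_and (clop_eq (hx _) _) ?_
  simp only [← and_imp]
  refine clop_all ((clop_suf (lf i)).subset fun b hb => hb.2) fun b => ?_
  refine clop_ex (Set.finite_le_nat _) fun l => clop_and (clop_eq (hx _) _)
    (clop_and (clop_const _) (clop_and (clop_const _) ?_))
  exact clop_all ((Set.finite_le_nat i).subset fun u hu => hu.1) hA

theorem clop_rec (perp : ℕ → ℕ → Prop) (i : ℕ) {x : X → VV} (hx : ∀ a, Continuous fun p => x p a)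
    {inA : X → ℕ → Prop} (hA : ∀ u, IsClopen {p | inA p u}) (c : List ℕ) :
    IsClopen {p | RecOK perp i (x p) (inA p) c} := by
  unfold RecOK
  refine clop_and (clop_all (Set.finite_lt_nat _) fun n => clop_le (hx _) _)
    (clop_and (clop_not (clop_eq (hx _) 0)) ?_)
  refine clop_all (Set.finite_le_nat _) fun e => clop_imp (clop_eq (hx _) _)
    (clop_and (clop_all (List.finite_toSet _) hA) ?_)
  exact clop_all (Set.finite_lt_nat _) fun n => clop_all (Set.finite_le_nat _) fun e' =>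
    clop_imp (clop_eq (hx _) _) (clop_const _)

theorem clop_Ex (wt : List ℕ → ℕ) (perp : ℕ → ℕ → Prop) (i : ℕ) {j : X → ℕ∞} (hj : Continuous j)
    {x : X → VV} (hx : ∀ a, Continuous fun p => x p a) (sub : ℕ → ℕ → Prop)
    {inA : X → ℕ → Prop} (hA : ∀ u, IsClopen {p | inA p u}) :
    IsClopen {p | Ex wt perp i (j p) (x p) sub (inA p)} := by
  unfold Ex
  refine clop_ex (Set.finite_le_nat _) fun k => clop_ex (Set.finite_le_nat _) fun j' =>
    clop_and (clop_eq (hx _) _) (clop_and (clop_eq hj _) (clop_and (clop_const _) ?_))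
  exact clop_all (clop_suf _) fun c => clop_imp (clop_const _) (clop_and (clop_lab wt i hx sub hA c)
    (clop_or (clop_eq (hx _) _) (clop_rec perp i hx hA c)))

end

theorem clop_jv (σ : Sg) : Continuous fun p : PP => jv p σ :=
  (continuous_apply (0, 0)).comp (continuous_apply (σ, 0))

theorem exP_clopen (E : EE) (i : ℕ) (σ : Sg) : IsClopen {p | ExP E i σ p} :=
  clop_Ex _ _ i (clop_jv σ) (x := fun p : PP => p (σ, i + 1))
    (fun a => (continuous_apply a).comp (continuous_apply (σ, i + 1))) _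
    (inA := fun p u => p ∈ (rd σ).A E i u) fun u => (rd_valid σ).clA E i u

theorem hh_cont (E : EE) (i : ℕ) : Continuous (hh E i) := by
  classical
  refine continuous_pi fun σ => ?_
  have h : IsClopen {p : PP | jv p σ = ((i + 1 : ℕ) : ℕ∞) ∨ ExP E i σ p} :=
    clop_or (clop_eq (clop_jv σ) _) (exP_clopen E i σ)
  unfold hh
  refine Continuous.if ?_ (continuous_apply (σ, i + 1)) continuous_const
  intro p hp
  rw [isClopen_iff_frontier_eq_empty.1 h] at hp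
  exact absurd hp (Set.notMem_empty p)

end Pool.Agent.MP_2e2931_gt.Z3

end

section

open Set Topology Filter Cardinal Function

namespace Pool.Agent.MP_2e2931_gt.Z3

theorem oml_mk : #Om = aleph 1 := by
  change #(Cardinal.aleph.{0} 1).ord.ToType = _
  rw [mk_toType, card_ord]

theorem om_cnt (a : Om) : (Iic a).Countable := by
  have h : #(Iio a) < aleph 1 := Cardinal.mk_Iio_toType_ord_lt (c := aleph 1) a
  have h1 : (Iio a).Countable := by
    rwa [Cardinal.countable_iff_lt_aleph_one]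
  rw [← Iio_insert]
  exact h1.insert a

theorem om_bdd {A : Set Om} (h : A.Countable) : ∃ b, ∀ a ∈ A, a < b := by
  by_contra hc
  push Not at hc
  have h1 : (univ : Set Om).Countable := by
    refine (h.biUnion fun a _ => om_cnt a).mono fun b _ => ?_
    obtain ⟨a, ha, hb⟩ := hc b
    exact mem_biUnion ha hb
  rw [Cardinal.countable_iff_lt_aleph_one, mk_univ, oml_mk] at h1
  exact lt_irrefl _ h1

theorem om_card : #Om ≤ continuum := by
  rw [oml_mk]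
  exact aleph_one_le_continuum

theorem cl_exists (β : Om → Om) (η : Om) : ∃ δ, η < δ ∧ Cl β δ := by
  have h1 : ∀ x : Om, ∃ y, x < y ∧ ∀ γ ≤ x, β γ < y := fun x => by
    obtain ⟨y, hy⟩ := om_bdd (((om_cnt x).image β).insert x)
    exact ⟨y, hy x (mem_insert _ _), fun γ hγ => hy _ (mem_insert_of_mem _ ⟨γ, hγ, rfl⟩)⟩
  choose g hg hg' using h1
  have h2 : {b | ∀ n : ℕ, g^[n] η < b}.Nonempty := by
    obtain ⟨b, hb⟩ := om_bdd (countable_range fun n : ℕ => g^[n] η)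
    exact ⟨b, fun n => hb _ ⟨n, rfl⟩⟩
  have h3 := wellFounded_lt.min_mem _ h2
  refine ⟨_, h3 0, fun γ hγ => ?_⟩
  have h4 : ∃ n : ℕ, γ ≤ g^[n] η := by
    by_contra hc
    push Not at hc
    exact wellFounded_lt.not_lt_min {b | ∀ n : ℕ, g^[n] η < b} hc hγ
  obtain ⟨n, hn⟩ := h4
  have h5 := h3 (n + 1)
  rw [iterate_succ_apply'] at h5
  exact (hg' _ γ hn).trans h5

/-- the sets that contain a closed unbounded set -/
def oml_big (A : Set Om) : Prop := ∃ β η, ∀ δ, η < δ → Cl β δ → δ ∈ A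

theorem oml_inter {A : ℕ → Set Om} (h : ∀ n, oml_big (A n)) : oml_big (⋂ n, A n) := by
  choose β η h using h
  have h1 : ∀ γ, ∃ b, ∀ n, β n γ < b := fun γ => by
    obtain ⟨b, hb⟩ := om_bdd (countable_range fun n => β n γ)
    exact ⟨b, fun n => hb _ ⟨n, rfl⟩⟩
  choose b hb using h1
  obtain ⟨e, he⟩ := om_bdd (countable_range η)
  exact ⟨b, e, fun δ h1 h2 => mem_iInter.2 fun n =>
    h n δ ((he _ ⟨n, rfl⟩).trans h1) fun γ hγ => (hb γ n).trans (h2 γ hγ)⟩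

theorem oml_two {A : Set Om} (h : oml_big A) : ∃ a ∈ A, ∃ b ∈ A, a < b := by
  obtain ⟨β, η, h⟩ := h
  obtain ⟨a, h1, h2⟩ := cl_exists β η
  obtain ⟨b, h3, h4⟩ := cl_exists β a
  exact ⟨a, h a h1 h2, b, h b (h1.trans h3) h4, h3⟩

theorem stat : StatP SS := by
  refine Classical.epsilon_spec (p := StatP) ?_
  by_contra hc
  push Not at hc
  have h1 : ∀ A : Set Om, oml_big A ∨ oml_big Aᶜ := fun A => by
    by_contra h
    push Not at h
    refine hc A ⟨fun β η => ?_, fun β η => ?_⟩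
    · by_contra h'
      push Not at h'
      exact h.2 ⟨β, η, fun δ h1 h2 hA => h' δ hA h1 h2⟩
    · by_contra h'
      push Not at h'
      exact h.1 ⟨β, η, fun δ h1 h2 => by_contra fun hA => h' δ hA h1 h2⟩
  have h2 : #Om ≤ #(Set ℕ) := by
    rw [mk_set, mk_nat, two_power_aleph0]
    exact om_card
  obtain ⟨r⟩ := (Cardinal.le_def _ _).1 h2
  have h3 : ∀ n : ℕ, ∃ A : Set Om, oml_big A ∧ ∀ a ∈ A, ∀ b ∈ A, (n ∈ r a ↔ n ∈ r b) := fun n => by
    rcases h1 {a | n ∈ r a} with h | h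
    · exact ⟨_, h, fun a ha b hb => iff_of_true ha hb⟩
    · exact ⟨_, h, fun a ha b hb => iff_of_false ha hb⟩
  choose A hA hA' using h3
  obtain ⟨a, ha, b, hb, hab⟩ := oml_two (oml_inter hA)
  exact hab.ne (r.injective (Set.ext fun n =>
    hA' n a (mem_iInter.1 ha n) b (mem_iInter.1 hb n)))

theorem theta (Q : Om → Prop) (h0 : Q ⊥) (h : ∀ γ, ∃ Γ, γ < Γ ∧ Q Γ) :
    ∃ θ : Om → Om, θ ⊥ = ⊥ ∧ (∀ γ, Q (θ γ)) ∧ StrictMono θ := by
  classical
  have h1 : ∀ (γ : Om) (f : ∀ γ', γ' < γ → Om), ∃ Γ, Q Γ ∧ (γ = ⊥ → Γ = ⊥) ∧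
      ∀ γ' (hγ : γ' < γ), f γ' hγ < Γ := fun γ f => by
    by_cases hb : γ = ⊥
    · exact ⟨⊥, h0, fun _ => rfl, fun γ' hγ => absurd (hb ▸ hγ) not_lt_bot⟩
    · have : Countable (Iio γ) := ((om_cnt γ).mono Iio_subset_Iic_self).to_subtype
      obtain ⟨b, hb'⟩ := om_bdd (countable_range fun x : Iio γ => f x.1 x.2)
      obtain ⟨Γ, h2, h3⟩ := h b
      exact ⟨Γ, h3, fun e => absurd e hb, fun γ' hγ => (hb' _ ⟨⟨γ', hγ⟩, rfl⟩).trans h2⟩
  choose F hQ hF0 hF using h1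
  obtain ⟨θ, hθ⟩ : ∃ θ : Om → Om, ∀ γ, θ γ = F γ fun γ' _ => θ γ' :=
    ⟨wellFounded_lt.fix F, fun γ => WellFounded.fix_eq _ _ _⟩
  refine ⟨θ, ?_, fun γ => ?_, fun γ' γ hγ => ?_⟩
  · rw [hθ]
    exact hF0 _ _ rfl
  · rw [hθ]
    exact hQ _ _
  · rw [hθ γ]
    exact hF γ (fun γ' _ => θ γ') γ' hγ

end Pool.Agent.MP_2e2931_gt.Z3

end

section

open Set Topology Filter Cardinal Function

namespace Pool.Agent.MP_2e2931_gt.Z3

theorem mm_cont : continuum ≤ #MM := by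
  have h : #(Set ℕ) ≤ #MM :=
    mk_le_of_injective (f := fun s : Set ℕ => (⟨1, s⟩ : MM))
      fun _ _ h => sigma_mk_injective (β := UU) (i := 1) h
  rwa [mk_set, mk_nat, two_power_aleph0] at h

theorem sm_inf : ℵ₀ ≤ #MM := aleph0_le_continuum.trans mm_cont

theorem sel_card : #(∀ n, Set (UU n)) = 2 ^ #MM := by
  rw [← mk_set]
  exact mk_congr (Equiv.piCurry fun n (_ : UU n) => Prop).symm

theorem dd_card : #DD ≤ 2 ^ #MM := by
  have h1 : continuum ≤ 2 ^ #MM := mm_cont.trans (cantor _).le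
  have h0 : ℵ₀ ≤ 2 ^ #MM := aleph0_le_continuum.trans h1
  have h2 : #(ℕ → ℕ) ≤ 2 ^ #MM := by simpa using h1
  simp only [mk_prod, lift_id, mk_set]
  exact mul_le_of_le h0 (om_card.trans h1) (mul_le_of_le h0 le_rfl h2)

theorem pth_inj {A A' : ∀ n, Set (UU n)} {i : ℕ} (h : pth A i = pth A' i) :
    ∀ j < i, A j = A' j := by
  induction i with
  | zero => exact fun j hj => absurd hj (Nat.not_lt_zero _)
  | succ i ih =>
    intro j hj
    obtain ⟨h1, h2⟩ := List.cons.inj h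
    rcases Nat.lt_succ_iff_lt_or_eq.1 hj with hj | rfl
    · exact ih h2 j hj
    · exact sigma_mk_injective (β := UU) h1

theorem Small.mono {A B : Set DD} (h : A ⊆ B) (hB : Small B) : Small A :=
  let ⟨ξ, H, v, h1, h2⟩ := hB
  ⟨ξ, H, v, h1, fun y hy => h2 y (h hy)⟩

theorem small_iUnion {κ : Type} [Countable κ] {f : κ → Set DD} (h : ∀ i, Small (f i)) :
    Small (⋃ i, f i) := by
  choose ξ H v h1 h2 using h
  obtain ⟨η, hη⟩ := om_bdd (countable_range ξ)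
  obtain ⟨e, he⟩ := exists_surjective_nat (Option κ × ℕ)
  refine ⟨η, fun n l => (e n).1.elim 0 fun i => H i (e n).2 l, ⋃ i, v i,
    (mk_iUnion_le _).trans (mul_le_of_le sm_inf (mk_le_aleph0.trans sm_inf) (ciSup_le' h1)),
    fun y hy => ?_⟩
  obtain ⟨i, hi⟩ := mem_iUnion.1 hy
  rcases h2 i y hi with a | ⟨n, a⟩ | a
  · exact Or.inl (a.trans (hη _ ⟨i, rfl⟩).le)
  · obtain ⟨m, hm⟩ := he (some i, n)
    exact Or.inr (Or.inl ⟨m, fun l => by simpa [hm] using a l⟩)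
  · exact Or.inr (Or.inr (mem_iUnion.2 ⟨i, a⟩))

theorem not_small_univ : ¬ Small univ := by
  rintro ⟨ξ, H, v, h1, h2⟩
  obtain ⟨η, hη⟩ := om_bdd (countable_singleton ξ)
  obtain ⟨ρ, hρ⟩ : ∃ ρ, ρ ∉ v := by
    by_contra hc
    push Not at hc
    rw [eq_univ_of_forall hc, mk_univ, mk_set] at h1
    exact (cantor _).not_ge h1
  rcases h2 (η, ρ, fun l => H l l + 1) trivial with a | ⟨n, a⟩ | a
  · exact (hη ξ rfl).not_ge a
  · exact absurd (a n) (Nat.not_succ_le_self _)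
  · exact hρ a

theorem sm_union {A B : Set DD} (hA : Small A) (hB : Small B) : Small (A ∪ B) := by
  rw [union_eq_iUnion]
  exact small_iUnion fun b => by cases b <;> assumption

theorem small_split {L : Set DD} (h : ¬ Small L) :
    ∃ l, {v | ¬ Small {y | y ∈ L ∧ y.2.2 l = v}}.Infinite := by
  by_contra hc
  push Not at hc
  choose H hH using fun l => (hc l).bddAbove
  have h1 : Small {y : DD | ∀ l, y.2.2 l ≤ H l} :=
    ⟨⊥, fun _ => H, ∅, by simp, fun y hy => Or.inr (Or.inl ⟨0, hy⟩)⟩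
  have h2 := small_iUnion (κ := {p : ℕ × ℕ // Small {y | y ∈ L ∧ y.2.2 p.1 = p.2}})
    (f := fun p => {y | y ∈ L ∧ y.2.2 p.1.1 = p.1.2}) fun p => p.2
  refine h ((sm_union h1 h2).mono fun y hy => ?_)
  by_cases a : ∀ l, y.2.2 l ≤ H l
  · exact Or.inl a
  · obtain ⟨l, hl⟩ := not_forall.1 a
    exact Or.inr (mem_iUnion.2 ⟨⟨(l, y.2.2 l), by_contra fun b => hl (hH l b)⟩, hy, rfl⟩)

theorem small_col {L : Set DD} (h : ¬ Small L) (η : Om) :
    ∃ ξ, η < ξ ∧ ¬ #{ρ : Set MM | ∃ y ∈ L, y.1 = ξ ∧ y.2.1 = ρ} ≤ #MM := by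
  by_contra hc
  push Not at hc
  refine h ⟨η, fun _ _ => 0, ⋃ ξ : Ioi η, {ρ : Set MM | ∃ y ∈ L, y.1 = ξ ∧ y.2.1 = ρ},
    (mk_iUnion_le _).trans (mul_le_of_le sm_inf ((mk_set_le _).trans (om_card.trans mm_cont))
      (ciSup_le' fun ξ => hc ξ ξ.2)), fun y hy => ?_⟩
  rcases le_or_gt y.1 η with a | a
  · exact Or.inl a
  · exact Or.inr (Or.inr (mem_iUnion.2 ⟨⟨y.1, a⟩, y, hy, rfl, rfl⟩))

end Pool.Agent.MP_2e2931_gt.Z3

end

section

open Set Topology Filter Cardinal Function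

namespace Pool.Agent.MP_2e2931_gt.Z3

theorem card_iUnion {α ι : Type} {c : Cardinal.{0}} (hc : ℵ₀ ≤ c) (f : ι → Set α) (hι : #ι ≤ c)
    (hf : ∀ i, #(f i) ≤ c) : #(⋃ i, f i) ≤ c :=
  (mk_iUnion_le f).trans (mul_le_of_le hc hι (ciSup_le' hf))

theorem card_fin {α : Type} {c : Cardinal.{0}} (hc : ℵ₀ ≤ c) {S : Set α} (hS : #S ≤ c) :
    #{r : Finset α | ↑r ⊆ S} ≤ c := by
  classical
  have h : {r : Finset α | ↑r ⊆ S} ⊆ range fun l : List S => (l.map Subtype.val).toFinset := by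
    intro r hr
    refine ⟨r.toList.attach.map fun x => ⟨x.1, hr (Finset.mem_toList.1 x.2)⟩, ?_⟩
    ext x
    simp
  exact (mk_le_mk_of_subset h).trans (mk_range_le.trans ((mk_list_le_max S).trans (max_le hc hS)))

theorem clos {α : Type} {c : Cardinal.{0}} (hc : ℵ₀ ≤ c) (G : Finset α → Set α)
    (hG : ∀ r, #(G r) ≤ c) : ∃ W : Set α, #W ≤ c ∧ ∀ r : Finset α, ↑r ⊆ W → G r ⊆ W := by
  classical
  let W : ℕ → Set α := fun n => Nat.rec ∅ (fun _ S => S ∪ ⋃ r : {r : Finset α | ↑r ⊆ S}, G r) n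
  have hW : ∀ n, W (n + 1) = W n ∪ ⋃ r : {r : Finset α | ↑r ⊆ W n}, G r := fun _ => rfl
  have hm : Monotone W := monotone_nat_of_le_succ fun n => by
    rw [hW]
    exact subset_union_left
  have hcW : ∀ n : ℕ, #↥(W n) ≤ c := by
    intro n
    induction n with
    | zero => simp [W]
    | succ n ih =>
      rw [hW]
      exact (mk_union_le _ _).trans
        (add_le_of_le hc ih (card_iUnion hc _ (card_fin hc ih) fun r => hG r))
  refine ⟨⋃ n, W n, card_iUnion hc W (by simpa using hc) hcW, fun r hr => ?_⟩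
  have h1 : ∃ n, ↑r ⊆ W n := by
    induction r using Finset.induction_on with
    | empty => exact ⟨0, by simp⟩
    | insert x s _ ih =>
      rw [Finset.coe_insert, insert_subset_iff] at hr
      obtain ⟨n, hn⟩ := ih hr.2
      obtain ⟨m, hm'⟩ := mem_iUnion.1 hr.1
      refine ⟨max n m, ?_⟩
      rw [Finset.coe_insert, insert_subset_iff]
      exact ⟨hm (le_max_right _ _) hm', hn.trans (hm (le_max_left _ _))⟩
  obtain ⟨n, hn⟩ := h1
  refine subset_iUnion_of_subset (n + 1) ?_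
  rw [hW]
  exact subset_union_of_subset_right
    (subset_iUnion (fun r : {r : Finset α | (r : Set α) ⊆ W n} => G r) ⟨r, hn⟩) _

theorem clo {Y α T Ω : Type} [Countable T] [Countable Ω] {c : Cardinal.{0}} (hc : ℵ₀ ≤ c)
    (Sm : Set Y → Prop)
    (hU : ∀ (κ : Type) (f : κ → Set Y), #κ ≤ c → (∀ i, Sm (f i)) → Sm (⋃ i, f i))
    (hM : ∀ A B, A ⊆ B → Sm B → Sm A)
    (a : Y → T → Finset α) (code : Y → T → α → Ω) (e : Y → T → Ω) :
    ∃ (W : Set α) (Z : Set Y), #W ≤ c ∧ Sm Z ∧ ∀ y ∉ Z, ∀ (t : T) (u : Set α), #u ≤ c →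
      ¬ Sm {y' | (∀ σ ∈ a y t, σ ∈ W → σ ∈ a y' t ∧ code y' t σ = code y t σ) ∧ e y' t = e y t ∧
        ∀ σ ∈ a y' t, σ ∈ u → σ ∈ a y t ∧ σ ∈ W} := by
  classical
  let L : Finset α → List Ω × Ω × T → Set α → Set Y := fun r d u =>
    {y' | r ⊆ a y' d.2.2 ∧ r.toList.map (code y' d.2.2) = d.1 ∧ e y' d.2.2 = d.2.1 ∧
      ∀ σ ∈ a y' d.2.2, σ ∈ u → σ ∈ r}
  have h0 : Sm ∅ := by
    have := hU Empty (fun _ => ∅) (by simp) fun i => i.elim
    simpa using this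
  have h1 : ∀ r d, ∃ u : Set α, #u ≤ c ∧
      ((∃ u' : Set α, #u' ≤ c ∧ Sm (L r d u')) → Sm (L r d u)) := by
    intro r d
    by_cases h : ∃ u' : Set α, #u' ≤ c ∧ Sm (L r d u')
    · obtain ⟨u, hu, hs⟩ := h
      exact ⟨u, hu, fun _ => hs⟩
    · exact ⟨∅, by simp, fun h' => absurd h' h⟩
  choose uu hu1 hu2 using h1
  have hd : #(List Ω × Ω × T) ≤ c := mk_le_aleph0.trans hc
  obtain ⟨W, hW, hWc⟩ := clos hc (fun r => ⋃ d, uu r d) fun r => card_iUnion hc _ hd (hu1 r)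
  refine ⟨W, ⋃ r : {r : Finset α | ↑r ⊆ W}, ⋃ d,
    if Sm (L r d (uu r d)) then L r d (uu r d) else ∅, hW, ?_, fun y hy t u hu hs => hy ?_⟩
  · refine hU _ _ (card_fin hc hW) fun r => hU _ _ hd fun d => ?_
    split_ifs with h
    · exact h
    · exact h0
  · have hr : (↑((a y t).filter (· ∈ W)) : Set α) ⊆ W := fun σ hσ => (Finset.mem_filter.1 hσ).2
    have h2 : Sm (L ((a y t).filter (· ∈ W))
        (((a y t).filter (· ∈ W)).toList.map (code y t), e y t, t) u) := by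
      refine hM _ _ ?_ hs
      rintro y' ⟨h3, h4, h5, h6⟩
      refine ⟨fun σ hσ hσW => ?_, h5, fun σ hσ hσu => Finset.mem_filter.1 (h6 σ hσ hσu)⟩
      have h7 : σ ∈ (a y t).filter (· ∈ W) := Finset.mem_filter.2 ⟨hσ, hσW⟩
      exact ⟨h3 h7, List.map_inj_left.1 h4 σ (Finset.mem_toList.2 h7)⟩
    have h3 := hu2 _ _ ⟨u, hu, h2⟩
    refine mem_iUnion.2 ⟨⟨_, hr⟩, mem_iUnion.2
      ⟨(((a y t).filter (· ∈ W)).toList.map (code y t), e y t, t), ?_⟩⟩
    rw [if_pos h3]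
    exact ⟨Finset.filter_subset _ _, rfl, rfl, fun σ hσ hσu =>
      Finset.mem_filter.2 ⟨hσ, hWc _ hr (mem_iUnion.2 ⟨_, hσu⟩)⟩⟩

theorem pick {T Y : Type} [Nonempty Y] (P : T → Y → Prop) (R : T → Y → T → Y → Prop)
    (h : ∀ (t : T) (T' : Set T) (g : T → Y), #T' < #T →
      ∃ y, P t y ∧ ∀ t' ∈ T', R t' (g t') t y) :
    ∃ g : T → Y, (∀ t, P t (g t)) ∧
      ∀ t t', t ≠ t' → R t' (g t') t (g t) ∨ R t (g t) t' (g t') := by
  classical
  obtain ⟨r, _, hr⟩ := exists_ord_eq T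
  have hs : ∀ t, #{t' | r t' t} < #T := fun t => card_typein_lt t hr
  choose F hF1 hF2 using fun t g => h t {t' | r t' t} g (hs t)
  let g : T → Y := (IsWellFounded.wf (r := r)).fix fun t ih =>
    F t fun t' => if h : r t' t then ih t' h else Classical.arbitrary Y
  have hg : ∀ t, g t = F t fun t' => if r t' t then g t' else Classical.arbitrary Y := fun t => by
    simp only [g]
    rw [WellFounded.fix_eq]
    simp only [dite_eq_ite]
  have h2 : ∀ t t', r t' t → R t' (g t') t (g t) := fun t t' ht => by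
    have := hF2 t (fun t' => if r t' t then g t' else Classical.arbitrary Y) t' ht
    rwa [← hg, if_pos ht] at this
  refine ⟨g, fun t => by rw [hg]; exact hF1 _ _, fun t t' ht => ?_⟩
  rcases trichotomous_of r t t' with h3 | h3 | h3
  · exact Or.inr (h2 _ _ h3)
  · exact absurd h3 ht
  · exact Or.inl (h2 _ _ h3)

end Pool.Agent.MP_2e2931_gt.Z3

end

section

open Set Topology Filter Cardinal Function

namespace Pool.Agent.MP_2e2931_gt.Z3

theorem fam_inf : ℵ₀ ≤ #MM := aleph0_le_continuum.trans mm_cont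

theorem fam_inf2 : ℵ₀ ≤ 2 ^ #MM := fam_inf.trans (cantor _).le

theorem fam_c : continuum.{0} < 2 ^ #MM := mm_cont.trans_lt (cantor _)

theorem fam_mul {a b : Cardinal.{0}} (ha : a ≤ 2 ^ #MM) (hb : b ≤ 2 ^ #MM) :
    a * b ≤ 2 ^ #MM :=
  (mul_le_mul' ha hb).trans (mul_eq_self fam_inf2).le

theorem fam_task : #Task ≤ 2 ^ #MM := by
  have hinj : Injective (fun t : Task =>
      ((t.δ, t.I, t.mn, t.spl, t.wt) :
        Om × Set ℕ × (List MM → DD) × (List ℕ → ℕ) × (List ℕ → ℕ))) := by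
    rintro ⟨a, b, c, d, e⟩ ⟨a', b', c', d', e'⟩ h
    simp only [Prod.mk.injEq] at h
    obtain ⟨rfl, rfl, rfl, rfl, rfl⟩ := h
    rfl
  refine (mk_le_of_injective hinj).trans ?_
  have h1 : #(List ℕ → ℕ) ≤ 2 ^ #MM := by
    have : #(List ℕ → ℕ) = continuum := by
      rw [← power_def, mk_nat, mk_eq_aleph0 (List ℕ), aleph0_power_aleph0]
    rw [this]
    exact fam_c.le
  have h2 : #(Set ℕ) ≤ 2 ^ #MM := by
    rw [mk_set_nat]
    exact fam_c.le
  haveI : Infinite MM := infinite_iff.2 fam_inf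
  have h3 : #(List MM → DD) ≤ 2 ^ #MM := by
    rw [← power_def, mk_list_eq_mk MM]
    refine (power_le_power_right dd_card).trans ?_
    rw [← power_mul, mul_eq_self fam_inf]
  simp only [mk_prod, lift_id]
  exact fam_mul (om_card.trans fam_c.le) (fam_mul h2 (fam_mul h3 (fam_mul h1 h1)))

theorem fam_block (t : Task) (ht : Injective t.mn) (y : ℕ → DD) :
    #{A : ∀ n, Set (UU n) | ¬ (range y ∩ range (t.sel A).y).Finite} ≤ continuum := by
  rw [← mk_set_nat]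
  refine mk_le_of_injective
    (f := fun A => {i' | ∃ i, y i' = t.mn (pth A.1 i)}) ?_
  rintro ⟨A, hA⟩ ⟨A2, hA2⟩ h
  refine Subtype.ext (funext fun j => ?_)
  have hex : ∃ i, j < i ∧ t.mn (pth A i) ∈ range y := by
    by_contra hc
    push Not at hc
    refine hA (((Set.finite_le_nat j).image fun i => t.mn (pth A i)).subset ?_)
    rintro z ⟨hz, i, rfl⟩
    refine ⟨i, ?_, rfl⟩
    by_contra hi
    exact hc i (not_le.1 hi) hz
  obtain ⟨i, hji, i', hi'⟩ := hex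
  have hm : i' ∈ {i' | ∃ i, y i' = t.mn (pth A i)} := ⟨i, hi'⟩
  have h' : {i' | ∃ i, y i' = t.mn (pth A i)} = {i' | ∃ i, y i' = t.mn (pth A2 i)} := h
  rw [h'] at hm
  obtain ⟨i2, hi2⟩ := hm
  have hp : pth A i = pth A2 i2 := ht (hi'.symm.trans hi2)
  have hl : i = i2 := by simpa using congrArg List.length hp
  subst hl
  exact pth_inj hp j hji

theorem fam_ex : ∃ F, FamP F := by
  let T := {t : Task // Injective t.mn ∧ ∀ A, (t.sel A).Good}
  have hT : #T ≤ 2 ^ #MM := (mk_subtype_le _).trans fam_task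
  obtain ⟨g, -, hg⟩ := pick (T := T) (Y := ∀ n, Set (UU n)) (fun _ _ => True)
    (fun t' A' t A => (range (t'.1.sel A').y ∩ range (t.1.sel A).y).Finite) (by
      intro t T' g hT'
      by_contra hc
      push Not at hc
      have hsub : (univ : Set (∀ n, Set (UU n))) ⊆ ⋃ t' : T',
          {A | ¬ (range (t'.1.1.sel (g t'.1)).y ∩ range (t.1.sel A).y).Finite} := by
        intro A _
        obtain ⟨t', ht', h⟩ := hc A trivial
        exact mem_iUnion.2 ⟨⟨t', ht'⟩, h⟩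
      have h1 := (mk_le_mk_of_subset hsub).trans mk_iUnion_le_sum_mk
      have h2 := h1.trans (sum_le_sum _ (fun _ => continuum) fun t' => fam_block t.1 t.2.1 _)
      rw [sum_const', mk_univ, sel_card] at h2
      exact absurd h2 (not_le.2 (mul_lt_of_lt fam_inf2 (hT'.trans_le hT) fam_c)))
  refine ⟨range fun t : T => t.1.sel (g t), ?_, ?_, ?_⟩
  · rintro _ ⟨t, rfl⟩
    exact t.2.2 _
  · rintro _ ⟨t, rfl⟩ _ ⟨t', rfl⟩ hne
    have : t ≠ t' := fun h => hne (by rw [h])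
    rcases hg t t' this with h | h
    · rw [inter_comm]; exact h
    · exact h
  · intro t h1 h2
    exact ⟨g ⟨t, h1, h2⟩, ⟨t, h1, h2⟩, rfl⟩

theorem fam : FamP EE := Classical.epsilon_spec fam_ex

end Pool.Agent.MP_2e2931_gt.Z3

end

section

open Set Topology Filter Cardinal Function

namespace Pool.Agent.MP_2e2931_gt.Z3

theorem inbl_off (E : EE) {S : Set DD} (hS : S.Finite) : ∀ᶠ i in atTop, E.1.y i ∉ S := by
  rw [← Nat.cofinite_eq_atTop]
  exact (hS.preimage (fam.good E.1 E.2).inj.injOn).eventually_cofinite_notMem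

theorem inbl_ad {E E' : EE} (h : E' ≠ E) : ∀ᶠ i in atTop, E'.1.y i ∉ range E.1.y :=
  (inbl_off E' (fam.ad E'.1 E'.2 E.1 E.2 fun h' => h (Subtype.ext h'))).mono
    fun i hi h' => hi ⟨mem_range_self i, h'⟩

theorem inbl_tube (E : EE) {C : Set (Sg → VV)} (hC : IsClopen C) :
    InB {x | ∃ i ∈ E.1.I, x.1 = E.1.y i ∧ hh E i x.2 ∈ C} := by
  have hi := (fam.good E.1 E.2).inj
  refine ⟨fun y => ?_, fun E' => ?_⟩
  · by_cases h : ∃ i ∈ E.1.I, y = E.1.y i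
    · obtain ⟨i, h1, rfl⟩ := h
      convert hC.preimage (hh_cont E i) using 1
      ext p
      exact ⟨fun ⟨j, _, h2, h3⟩ => by obtain rfl := hi h2; exact h3, fun h2 => ⟨i, h1, rfl, h2⟩⟩
    · convert isClopen_empty using 1
      exact eq_empty_of_forall_notMem fun p ⟨j, h1, h2, _⟩ => h ⟨j, h1, h2⟩
  · by_cases h : E' = E
    · subst h
      exact ⟨C, hC, Eventually.of_forall fun i h1 p =>
        ⟨fun ⟨j, _, h2, h3⟩ => by obtain rfl := hi h2; exact h3, fun h2 => ⟨i, h1, rfl, h2⟩⟩⟩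
    · exact ⟨∅, isClopen_empty, (inbl_ad h).mono fun i h1 _ p =>
        ⟨fun ⟨j, _, h2, _⟩ => (h1 ⟨j, h2.symm⟩).elim, fun h2 => h2.elim⟩⟩

theorem inB_pt (y : DD) {U : Set PP} (hU : IsClopen U) : InB {x | x.1 = y ∧ x.2 ∈ U} := by
  refine ⟨fun y' => ?_, fun E => ⟨∅, isClopen_empty, (inbl_off E (finite_singleton y)).mono
    fun i h1 _ p => ⟨fun h2 => (h1 h2.1).elim, fun h2 => h2.elim⟩⟩⟩
  by_cases h : y' = y
  · convert hU using 1
    ext p
    exact ⟨fun h1 => h1.2, fun h1 => ⟨h, h1⟩⟩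
  · convert isClopen_empty using 1
    exact eq_empty_of_forall_notMem fun p h1 => h h1.1

theorem inB_fib (y : DD) : InB (fib y) := by
  convert inB_pt y isClopen_univ using 1
  ext x
  exact ⟨fun h => ⟨h, trivial⟩, fun h => h.1⟩

theorem inB_tube (E : EE) : InB (tube E) := by
  convert inbl_tube E isClopen_univ using 1
  ext x
  exact ⟨fun ⟨i, h1, h2⟩ => ⟨i, h1, h2, trivial⟩, fun ⟨i, h1, h2, _⟩ => ⟨i, h1, h2⟩⟩

theorem inB_tc (E : EE) (σ : Sg) (a : ℕ × ℕ) (v : ℕ) : InB (tc E σ a v) := by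
  have h : IsClopen ({(v : ℕ∞)} : Set ℕ∞) :=
    ⟨isClosed_singleton, ENat.isOpen_singleton (ENat.natCast_ne_top v)⟩
  have hc : Continuous fun φ : Sg → VV => φ σ a := (continuous_apply a).comp (continuous_apply σ)
  exact inbl_tube E (h.preimage hc)

theorem inB_glue (T : ℕ → Set DD) (B : ℕ → Set XP) (hB : ∀ n, InB (B n))
    (hT : ∀ n m, n ≠ m → Disjoint (T n) (T m))
    (hE : ∀ E : EE, (∃ n, ∀ᶠ i in atTop, i ∈ E.1.I → E.1.y i ∈ T n) ∨
      ∀ᶠ i in atTop, ∀ n, E.1.y i ∉ T n) :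
    InB {x | ∃ n, x.1 ∈ T n ∧ x ∈ B n} := by
  have key : ∀ n (x : XP), x.1 ∈ T n → (x ∈ {x : XP | ∃ n, x.1 ∈ T n ∧ x ∈ B n} ↔ x ∈ B n) :=
    fun n x h => ⟨fun ⟨m, h1, h2⟩ => by
      obtain rfl : m = n := by_contra fun h3 => disjoint_left.1 (hT m n h3) h1 h
      exact h2, fun h1 => ⟨n, h, h1⟩⟩
  refine ⟨fun y => ?_, fun E => ?_⟩
  · by_cases h : ∃ n, y ∈ T n
    · obtain ⟨n, h⟩ := h
      convert (hB n).1 y using 1
      ext p
      exact key n (y, p) h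
    · convert isClopen_empty using 1
      exact eq_empty_of_forall_notMem fun p ⟨n, h1, _⟩ => h ⟨n, h1⟩
  · rcases hE E with ⟨n, h⟩ | h
    · obtain ⟨C, hC, h1⟩ := (hB n).2 E
      refine ⟨C, hC, ?_⟩
      filter_upwards [h, h1] with i h2 h3 h4 p
      exact (key n (_, p) (h2 h4)).trans (h3 h4 p)
    · exact ⟨∅, isClopen_empty, h.mono fun i h1 _ p =>
        ⟨fun ⟨n, h2, _⟩ => (h1 n h2).elim, fun h2 => h2.elim⟩⟩

end Pool.Agent.MP_2e2931_gt.Z3

end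

section

open Set Topology Filter Cardinal Function

namespace Pool.Agent.MP_2e2931_gt.Z3

variable {Y : Type} [TopologicalSpace Y]

theorem nf_two : ¬ OddOrd 2 := by
  have := zodd_iff 0 2
  simp only [mul_zero, zero_add, Nat.cast_ofNat] at this
  rw [this]
  decide

theorem nf_three : OddOrd 3 := by
  have := zodd_iff 0 3
  simp only [mul_zero, zero_add, Nat.cast_ofNat] at this
  rw [this]
  decide

theorem nf_one {A : Set Y} (h : FB Y 1 A) :
    ∃ G : ℕ → Set Y, (∀ k, IsClosed (G k)) ∧ A = ⋃ k, G k := by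
  rcases h.inv with ⟨e, -⟩ | ⟨b, f, b1, b2, ⟨-, e⟩ | ⟨o, -⟩⟩
  · exact absurd e one_ne_zero
  · refine ⟨f, fun k => FB.zero ?_, e⟩
    rw [← Order.lt_one_iff.1 (b1 k)]
    exact b2 k
  · exact absurd zodd_one o

theorem nf_level2 {A : Set Y} (h : FB Y 2 A) :
    ∃ G : ℕ → ℕ → Set Y, (∀ n k, IsClosed (G n k)) ∧ A = ⋂ n, ⋃ k, G n k := by
  rcases h.inv with ⟨e, -⟩ | ⟨b, f, b1, b2, ⟨o, -⟩ | ⟨-, e⟩⟩
  · exact absurd e two_ne_zero
  · exact absurd o nf_two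
  · have k : ∀ n, b n ≤ 1 := fun n =>
      Order.lt_add_one_iff.1 (by rw [one_add_one_eq_two]; exact b1 n)
    choose G g1 g2 using fun n => nf_one ((b2 n).mono (k n))
    exact ⟨G, g1, by rw [e]; exact iInter_congr g2⟩

theorem nf_level3 {A : Set Y} (h : FB Y 3 A) :
    ∃ G : ℕ → ℕ → ℕ → Set Y, (∀ m n k, IsClosed (G m n k)) ∧ A = ⋃ m, ⋂ n, ⋃ k, G m n k := by
  rcases h.inv with ⟨e, -⟩ | ⟨b, f, b1, b2, ⟨-, e⟩ | ⟨o, -⟩⟩
  · exact absurd e three_ne_zero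
  · have k : ∀ n, b n ≤ 2 := fun n =>
      Order.lt_add_one_iff.1 (by rw [two_add_one_eq_three]; exact b1 n)
    choose G g1 g2 using fun n => nf_level2 ((b2 n).mono (k n))
    exact ⟨G, g1, by rw [e]; exact iUnion_congr g2⟩
  · exact absurd nf_three o

theorem fb3_nf {R : Set Y} (h : FB Y 3 R) : ∃ F : ℕ → Set Y, (∀ l, IsClosed (F l)) ∧
    (∀ z ∈ R, ∃ m, ∀ n, ∃ k, z ∈ F (lc m n k)) ∧
      ∀ z ∉ R, ∀ m s, Seq m s → ∃ t, z ∉ F (s t) := by
  obtain ⟨G, hG, rfl⟩ := nf_level3 h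
  refine ⟨fun l => ⋂ n ∈ Iic (lv l), ⋃ k ∈ Iic l.unpair.2.unpair.2, G (hd l) n k,
    fun l => isClosed_biInter fun n _ => (finite_Iic _).isClosed_biUnion fun k _ => hG _ _ _,
    fun z hz => ?_, fun z hz m s hs => ?_⟩
  · obtain ⟨m, hm⟩ := mem_iUnion.1 hz
    choose k hk using fun n => mem_iUnion.1 (mem_iInter.1 hm n)
    refine ⟨m, fun n => ⟨(Finset.range (n + 1)).sup k, mem_iInter₂.2 fun n' hn' => ?_⟩⟩
    rw [lv_lc] at hn'
    refine mem_iUnion₂.2 ⟨k n', ?_, by rw [hd_lc]; exact hk n'⟩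
    simp only [lc, Nat.unpair_pair, mem_Iic]
    exact Finset.le_sup (f := k) (Finset.mem_range.2 (Nat.lt_succ_of_le hn'))
  · by_contra hc
    refine hz (mem_iUnion.2 ⟨m, mem_iInter.2 fun n => ?_⟩)
    have h1 := not_not.1 (not_exists.1 hc n)
    obtain ⟨k, -, hk⟩ := mem_iUnion₂.1 (mem_iInter₂.1 h1 n (hs n).2)
    rw [(hs n).1] at hk
    exact mem_iUnion.2 ⟨k, hk⟩

theorem fb2_of {κ : Type} [Countable κ] [Nonempty κ] (G : ℕ → κ → Set Y)
    (hG : ∀ n t, IsClosed (G n t)) : FB Y 2 (⋂ n, ⋃ t, G n t) := by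
  obtain ⟨e, he⟩ := exists_surjective_nat κ
  refine FB.inter (fun _ => 1) _ nf_two (fun _ => one_lt_two) fun n => ?_
  rw [← he.iUnion_comp]
  exact FB.union (fun _ => 0) _ zodd_one (fun _ => zero_lt_one) fun k => .closed (hG n _)

end Pool.Agent.MP_2e2931_gt.Z3

end

section

open Set Topology Filter Cardinal Function

namespace Pool.Agent.MP_2e2931_gt.Z3

variable {Y Y' : Set ℕ} {γ γ' : Om} {a b : List ℕ}

theorem Br.mono (h : Br Y γ b) (hY : ∀ i ∈ Y, b <:+ lf i → i ∈ Y') : Br Y' γ b := by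
  induction γ using WellFoundedLT.induction generalizing b with
  | ind γ ih =>
    rw [br_iff] at h ⊢
    refine ⟨fun h0 => ?_, fun g hg n => ?_⟩
    · obtain ⟨i, hi, e⟩ := h.1 h0
      exact ⟨i, hY i hi (e ▸ List.suffix_refl _), e⟩
    · obtain ⟨k, hk, c, hc, hb⟩ := h.2 g hg n
      exact ⟨k, hk, c, hc, ih g hg hb fun i hi hs =>
        hY i hi (((List.suffix_cons k b).trans hc).trans hs)⟩

theorem Rk.mono (h : Rk Y γ a) (hY : ∀ i ∈ Y, a <:+ lf i → i ∈ Y') : Rk Y' γ a := by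
  obtain ⟨c, hc, hb⟩ := h
  exact ⟨c, hc, hb.mono fun i hi hs => hY i hi (hc.trans hs)⟩

theorem Rk.le (h : Rk Y γ a) (hle : γ' ≤ γ) : Rk Y γ' a := by
  rcases hle.eq_or_lt with rfl | hlt
  · exact h
  · obtain ⟨c, hc, hb⟩ := h
    obtain ⟨k, -, c', hc', hb'⟩ := (br_iff.1 hb).2 γ' hlt 0
    exact ⟨c', (hc.trans (List.suffix_cons k c)).trans hc', hb'⟩

theorem Br.ne (h : Br Y γ b) : ∃ i ∈ Y, b <:+ lf i := by
  obtain ⟨c, hc, hb⟩ := Rk.le (γ' := ⊥) ⟨b, List.suffix_refl b, h⟩ bot_le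
  obtain ⟨i, hi, e⟩ := (br_iff.1 hb).1 rfl
  exact ⟨i, hi, e ▸ hc⟩

theorem Br.inf (h : Br Y γ b) (h0 : ⊥ < γ) : {i | i ∈ Y ∧ b <:+ lf i}.Infinite := by
  intro hf
  obtain ⟨n, hn⟩ := (hf.image fun i => N (lf i)).bddAbove
  obtain ⟨k, hk, c, hc, hb⟩ := (br_iff.1 h).2 ⊥ h0 n
  obtain ⟨i, hi, hs⟩ := hb.ne
  have h1 : N (lf i) ≤ n :=
    hn ⟨i, ⟨hi, ((List.suffix_cons k b).trans hc).trans hs⟩, rfl⟩
  have h2 := N_mono (hc.trans hs)
  have h3 := lt_N_cons k b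
  omega

theorem Br.union (h : Br (Y ∪ Y') γ b) : Br Y γ b ∨ Br Y' γ b := by
  induction γ using WellFoundedLT.induction generalizing b with
  | ind γ ih =>
    rw [br_iff] at h
    by_cases h0 : γ = ⊥
    · subst h0
      obtain ⟨i, hi | hi, e⟩ := h.1 rfl
      · exact Or.inl (br_iff.2 ⟨fun _ => ⟨i, hi, e⟩, fun g hg => absurd hg not_lt_bot⟩)
      · exact Or.inr (br_iff.2 ⟨fun _ => ⟨i, hi, e⟩, fun g hg => absurd hg not_lt_bot⟩)
    · by_contra hc
      rw [not_or, br_iff, br_iff] at hc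
      obtain ⟨h1, h2⟩ := hc
      have h1' : ¬ ∀ g < γ, ∀ n : ℕ, ∃ k ≥ n, Rk Y g (k :: b) :=
        fun hh => h1 ⟨fun e => absurd e h0, hh⟩
      have h2' : ¬ ∀ g < γ, ∀ n : ℕ, ∃ k ≥ n, Rk Y' g (k :: b) :=
        fun hh => h2 ⟨fun e => absurd e h0, hh⟩
      push Not at h1' h2'
      obtain ⟨g1, hg1, n1, hn1⟩ := h1'
      obtain ⟨g2, hg2, n2, hn2⟩ := h2'
      obtain ⟨k, hk, c, hc, hb⟩ := h.2 (max g1 g2) (max_lt hg1 hg2) (max n1 n2)
      rcases ih _ (max_lt hg1 hg2) hb with hb | hb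
      · exact hn1 k ((le_max_left _ _).trans hk) (Rk.le ⟨c, hc, hb⟩ (le_max_left _ _))
      · exact hn2 k ((le_max_right _ _).trans hk) (Rk.le ⟨c, hc, hb⟩ (le_max_right _ _))

theorem Br.ultra (h : Br Y γ b) (h0 : ⊥ < γ) :
    ∃ u : Ultrafilter ℕ, Y ∈ u ∧ (u : Filter ℕ) ≤ atTop ∧ ∀ Z ∈ u, Br Z γ b := by
  have hemp : ∀ Z : Set ℕ, Y ⊆ Z → ¬ Br (Y \ Z) γ b := fun Z hZ hb => by
    obtain ⟨i, hi, -⟩ := hb.ne
    exact hi.2 (hZ hi.1)
  let F : Filter ℕ :=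
    { sets := {Z | ¬ Br (Y \ Z) γ b}
      univ_sets := hemp _ (subset_univ _)
      sets_of_superset := fun {Z Z'} hZ hs hb =>
        hZ (hb.mono fun i hi _ => ⟨hi.1, fun hz => hi.2 (hs hz)⟩)
      inter_sets := fun {Z Z'} hZ hZ' hb => by
        rw [Set.sdiff_inter] at hb
        exact hb.union.elim hZ hZ' }
  have hF : ∀ Z, Z ∈ F ↔ ¬ Br (Y \ Z) γ b := fun Z => Iff.rfl
  have : F.NeBot := by
    rw [Filter.neBot_iff, Ne, ← Filter.empty_mem_iff_bot, hF, Set.sdiff_empty, not_not]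
    exact h
  have hle : (Ultrafilter.of F : Filter ℕ) ≤ F := Ultrafilter.of_le F
  refine ⟨Ultrafilter.of F, hle ((hF Y).2 (hemp Y subset_rfl)), hle.trans ?_, fun Z hZ => ?_⟩
  · refine le_iInf fun n => le_principal_iff.2 ((hF _).2 fun hb => hb.inf h0 ?_)
    exact (Set.finite_lt_nat n).subset fun i hi => (not_le.1 hi.1.2 : i < n)
  · by_contra hb
    have hc : Zᶜ ∈ F := (hF _).2 fun hb' => hb (hb'.mono fun i hi _ => not_not.1 hi.2)
    exact (Ultrafilter.compl_mem_iff_notMem.1 (hle hc)) hZ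

theorem rank_tree (α : Om) : ∃ (r : List ℕ → Om) (Lf : Set (List ℕ)),
    (∀ c ∈ Lf, ∀ k b, k :: b <:+ c → r (k :: b) < r b) ∧
      ∀ M : List ℕ → ℕ, Br ((fun c => Nat.pair (M c) (N c)) '' Lf) α [] := by
  have hen : ∀ g : Om, ∃ f : ℕ → Om, g ≠ ⊥ → Iio g = range f := fun g => by
    by_cases hg : g = ⊥
    · exact ⟨fun _ => g, fun h => absurd hg h⟩
    · obtain ⟨f, hf⟩ := ((om_cnt g).mono Iio_subset_Iic_self).exists_eq_range
        ⟨⊥, bot_lt_iff_ne_bot.2 hg⟩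
      exact ⟨f, fun _ => hf⟩
  choose en hen using hen
  let r : List ℕ → Om := fun l => l.foldr (fun k g => en g k.unpair.1) α
  have hr : ∀ k b, r (k :: b) = en (r b) k.unpair.1 := fun _ _ => rfl
  refine ⟨r, {c | r c = ⊥ ∧ ∀ k b, k :: b <:+ c → r b ≠ ⊥}, fun c hc k b hs => ?_, fun M => ?_⟩
  · have : r (k :: b) ∈ Iio (r b) := by
      rw [hen _ (hc.2 k b hs), hr]
      exact mem_range_self _
    exact this
  · suffices H : ∀ g b, r b = g → (∀ k b', k :: b' <:+ b → r b' ≠ ⊥) →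
        Br ((fun c => Nat.pair (M c) (N c)) ''
          {c | r c = ⊥ ∧ ∀ k b, k :: b <:+ c → r b ≠ ⊥}) g b from
      H α [] rfl fun k b' hs => absurd (List.suffix_nil.1 hs) (List.cons_ne_nil _ _)
    intro g
    induction g using WellFoundedLT.induction with
    | ind g ih =>
      intro b hb hs
      refine br_iff.2 ⟨fun h0 => ⟨_, ⟨b, ⟨hb.trans h0, hs⟩, rfl⟩, lf_pair _ _⟩, fun g' hg' n => ?_⟩
      have hne : g ≠ ⊥ := ne_bot_of_gt hg'
      obtain ⟨j, hj⟩ : g' ∈ range (en g) := hen g hne ▸ hg'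
      refine ⟨Nat.pair j n, Nat.right_le_pair _ _, _, List.suffix_refl _, ih g' hg' _ ?_ ?_⟩
      · rw [hr, hb, Nat.unpair_pair, hj]
      · intro k b' hs'
        rcases List.suffix_cons_iff.1 hs' with e | hs'
        · rw [(List.cons.inj e).2, hb]
          exact hne
        · exact hs k b' hs'

end Pool.Agent.MP_2e2931_gt.Z3

end

section

open Set Topology Filter Cardinal Function

namespace Pool.Agent.MP_2e2931_gt.Z3

variable {W : Type} [LinearOrder W]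

theorem Sit.dec_mono (s : Sit W) {b c : List ℕ} {σ : W} (h : b <:+ c) (hb : σ ∈ s.dec b) :
    σ ∈ s.dec c := by
  cases c with
  | nil => rwa [List.suffix_nil.1 h] at hb
  | cons k c =>
    rcases List.suffix_cons_iff.1 h with rfl | h
    · exact hb
    · exact s.pdec c k σ (s.mono b c σ h (s.decp b σ hb)).1

theorem Sit.good_cof (s : Sit W) (σ : W) (φ : W → VV) (v : Ultrafilter ℕ) (hI : s.I ∈ v)
    (hv : (v : Filter ℕ) ≤ atTop) {d : List ℕ} (hd : σ ∈ s.dec d) :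
    {k | ¬ ∃ u u', s.perp σ u u' ∧ (∀ i, s.sub σ i (s.lab (k :: d) σ) u') ∧
      {i | s.inA σ φ i u} ∈ v}.Finite := by
  by_contra hinf
  have hinf' := Set.not_finite.1 hinf
  choose kk hk1 hk2 using fun t => hinf'.exists_gt t
  have hseq : Seq (Z3.hd (s.lab d σ)) (fun t => s.lab (kk t :: d) σ) := by
    intro t
    have hdec := s.dec_mono (List.suffix_cons (kk t) d) hd
    refine ⟨s.labh d _ σ (List.suffix_cons _ _) hd, ?_⟩
    have h1 := (s.labb _ σ hdec).2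
    have h2 := lt_N_cons (kk t) d
    have h3 := hk2 t
    show t ≤ lv (s.lab (kk t :: d) σ)
    omega
  obtain ⟨Q, hQ, hev⟩ := s.rich σ φ _ _ hseq
  have h1 : (⋃ q ∈ (Q : Set (ℕ × ℕ × ℕ)), {i | s.inA σ φ i q.2.1}) ∈ v := by
    have h2 : {i | i ∈ s.I → ∃ q ∈ Q, s.inA σ φ i q.2.1} ∈ v := hv hev
    refine Filter.mem_of_superset (Filter.inter_mem hI h2) ?_
    rintro i ⟨hi, hi2⟩
    obtain ⟨q, hq, hq2⟩ := hi2 hi
    exact Set.mem_biUnion (Finset.mem_coe.2 hq) hq2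
  obtain ⟨q, hq, hq2⟩ := (Ultrafilter.finite_biUnion_mem_iff Q.finite_toSet).1 h1
  exact hk1 q.1 ⟨q.2.1, q.2.2, (hQ q hq).1, (hQ q hq).2, hq2⟩

theorem sel_rec {St : Type} (P : St → Prop) (R : ℕ → St → St → Prop) (s0 : St) (h0 : P s0)
    (step : ∀ t s, P s → ∃ s', P s' ∧ R t s s') : ∃ S : ℕ → St, ∀ t, R t (S t) (S (t + 1)) := by
  choose f hf1 hf2 using step
  let S : ℕ → {s // P s} := fun t =>
    Nat.rec ⟨s0, h0⟩ (fun t s => ⟨f t s.1 s.2, hf1 t s.1 s.2⟩) t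
  exact ⟨fun t => (S t).1, fun t => hf2 t (S t).1 (S t).2⟩

/-- the invariant of the selection -/
def sel_Inv (s : Sit W) (σ : W) (φ : W → VV) (Λ : Set (List ℕ × Om))
    (v : List ℕ × Om → Ultrafilter ℕ) (B : ℕ) (U : List ℕ × Om → List ℕ) (r : ℕ → ℕ) : Prop :=
  (∀ o ∈ Λ, ∀ u ∈ U o, {i | s.inA σ φ i u} ∈ v o) ∧
    ∀ n, r n ≠ 0 → n < B ∧ r n ≤ B ∧ ∀ o ∈ Λ, ∃ u ∈ U o, ∃ w' ∈ dl (r n), s.perp σ u w'

theorem sel_step (s : Sit W) (σ : W) (φ : W → VV) {Y : Set ℕ} (hY : Y ⊆ s.I) (k0 : ℕ)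
    {Λ : Set (List ℕ × Om)} (hΛ : Λ.Finite) (v : List ℕ × Om → Ultrafilter ℕ)
    (hv : ∀ o ∈ Λ, {i | i ∈ Y ∧ σ ∈ s.pres (lf i)} ∈ v o ∧ (v o : Filter ℕ) ≤ atTop ∧
      ∀ Z ∈ v o, Br Z o.2 o.1)
    {B : ℕ} {U : List ℕ × Om → List ℕ} {r : ℕ → ℕ} (hi : sel_Inv s σ φ Λ v B U r)
    {o : List ℕ × Om} (ho : o ∈ Λ) {g g' : Om} (hg : g < g') (hg' : g' < o.2) (t : ℕ) :
    ∃ (B' : ℕ) (U' : List ℕ × Om → List ℕ) (r' : ℕ → ℕ), sel_Inv s σ φ Λ v B' U' r' ∧ t < B' ∧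
      B ≤ B' ∧ (∀ n < B, r' n = r n) ∧ ∃ k ≥ t, k0 ≤ N (k :: o.1) ∧ σ ∈ s.dec (k :: o.1) ∧
        N (k :: o.1) < B' ∧ Rk {i | i ∈ Y ∧ s.OK σ φ r' (k :: o.1) i} g (k :: o.1) := by
  classical
  set Yt : Set ℕ := {i | (i ∈ Y ∧ σ ∈ s.pres (lf i)) ∧ ∀ u ∈ U o, s.inA σ φ i u} with hYt
  have hYv : Yt ∈ v o := by
    have h1 : (⋂ u ∈ {u | u ∈ U o}, {i | s.inA σ φ i u}) ∈ (v o : Filter ℕ) :=
      (Filter.biInter_mem (List.finite_toSet (U o))).2 fun u hu => hi.1 o ho u hu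
    refine Filter.mem_of_superset (Filter.inter_mem (hv o ho).1 h1) ?_
    rintro i ⟨h2, h3⟩
    exact ⟨h2, fun u hu => Set.mem_iInter₂.1 h3 u hu⟩
  have hBr := (hv o ho).2.2 Yt hYv
  obtain ⟨M, hM⟩ := ((s.ent σ).image N).bddAbove
  obtain ⟨k, hk, d, hcd, hd⟩ := (br_iff.1 hBr).2 g' hg' (max (max t B) (max k0 M))
  have hkN := lt_N_cons k o.1
  have hk1 : t ≤ k := le_trans (le_trans (le_max_left _ _) (le_max_left _ _)) hk
  have hk2 : B ≤ k := le_trans (le_trans (le_max_right _ _) (le_max_left _ _)) hk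
  have hk3 : k0 ≤ k := le_trans (le_trans (le_max_left _ _) (le_max_right _ _)) hk
  have hk4 : M ≤ k := le_trans (le_trans (le_max_right _ _) (le_max_right _ _)) hk
  have hcdec : σ ∈ s.dec (k :: o.1) := by
    by_contra hn
    obtain ⟨i, hi1, hi2⟩ := hd.ne
    have := hM ⟨k :: o.1, ⟨hn, lf i, hcd.trans hi2, hi1.1.2⟩, rfl⟩
    omega
  have hddec := s.dec_mono hcd hcdec
  have hfin : (⋃ o' ∈ Λ, {k' | ¬ ∃ u u', s.perp σ u u' ∧
      (∀ i, s.sub σ i (s.lab (k' :: d) σ) u') ∧ {i | s.inA σ φ i u} ∈ v o'}).Finite :=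
    hΛ.biUnion fun o' ho' => s.good_cof σ φ (v o')
      (Filter.mem_of_superset (hv o' ho').1 fun i hi => hY hi.1) (hv o' ho').2.1 hddec
  obtain ⟨M', hM'⟩ := hfin.bddAbove
  obtain ⟨k', hk', hRk⟩ := (br_iff.1 hd).2 g hg (M' + 1)
  have hgood : ∀ o', ∃ u u', o' ∈ Λ → s.perp σ u u' ∧
      (∀ i, s.sub σ i (s.lab (k' :: d) σ) u') ∧ {i | s.inA σ φ i u} ∈ v o' := by
    intro o'
    by_cases ho' : o' ∈ Λ
    · by_contra hn
      have : k' ≤ M' := hM' (Set.mem_biUnion ho' (by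
        rintro ⟨u, u', h⟩
        exact hn ⟨u, u', fun _ => h⟩))
      omega
    · exact ⟨0, 0, fun h => absurd h ho'⟩
  choose u u' hu using hgood
  set e : List ℕ := U o ++ hΛ.toFinset.toList.map u' with he
  have hmem : ∀ o' ∈ Λ, u' o' ∈ e := fun o' ho' =>
    List.mem_append_right _ (List.mem_map.2 ⟨o', by simpa using ho', rfl⟩)
  have hne : N e ≠ 0 := by
    intro h0
    have : e = [] := N_inj (h0.trans N_nil.symm)
    have h1 := hmem o ho
    rw [this] at h1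
    exact absurd h1 List.not_mem_nil
  refine ⟨max (N (k :: o.1) + 1) (N e), fun o' => u o' :: U o', update r (N (k :: o.1)) (N e),
    ⟨?_, ?_⟩, ?_, ?_, ?_, k, hk1, by omega, hcdec, ?_, ?_⟩
  · intro o' ho' w hw
    rcases List.mem_cons.1 hw with rfl | hw
    · exact (hu o' ho').2.2
    · exact hi.1 o' ho' w hw
  · intro n hn
    by_cases hnc : n = N (k :: o.1)
    · subst hnc
      rw [update_self]
      refine ⟨by omega, by omega, fun o' ho' => ⟨u o', List.mem_cons_self, u' o', ?_, (hu o' ho').1⟩⟩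
      rw [dl_N]
      exact hmem o' ho'
    · rw [update_of_ne hnc] at hn ⊢
      obtain ⟨h1, h2, h3⟩ := hi.2 n hn
      refine ⟨by omega, by omega, fun o' ho' => ?_⟩
      obtain ⟨w, hw, h4⟩ := h3 o' ho'
      exact ⟨w, List.mem_cons_of_mem _ hw, h4⟩
  · omega
  · omega
  · intro n hn
    exact update_of_ne (by omega) _ _
  · omega
  · have hsuf : k :: o.1 <:+ k' :: d := hcd.trans (List.suffix_cons _ _)
    have hdec' := s.dec_mono (List.suffix_cons k' d) hddec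
    have h1 : Rk {i | i ∈ Y ∧ s.OK σ φ (update r (N (k :: o.1)) (N e)) (k :: o.1) i} g
        (k' :: d) := by
      refine hRk.mono fun i hi1 hi2 => ⟨hi1.1.1, ?_, ?_, ?_, ?_⟩
      · intro n hn
        rw [update_of_ne hn.ne]
        by_cases h0 : r n = 0
        · omega
        · have := (hi.2 n h0).2.1
          omega
      · rwa [update_self]
      · rw [update_self, dl_N]
        intro w hw
        rcases List.mem_append.1 hw with hw | hw
        · exact hi1.2 w hw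
        · obtain ⟨o', ho', rfl⟩ := List.mem_map.1 hw
          have ho'' : o' ∈ Λ := by simpa using ho'
          exact s.insub i (hY hi1.1.1) _ σ φ _ hi2 hdec' ((hu o' ho'').2.1 i)
      · intro n hn h0
        rw [update_of_ne hn.ne] at h0 ⊢
        rw [update_self, dl_N]
        obtain ⟨w, hw, h4⟩ := (hi.2 n h0).2.2 o ho
        exact ⟨w, List.mem_append_left _ hw, h4⟩
    obtain ⟨c', hc', hb⟩ := h1
    exact ⟨c', hsuf.trans hc', hb⟩

theorem sel_ok_congr (s : Sit W) (σ : W) (φ : W → VV) {r r' : ℕ → ℕ} {c : List ℕ} {i : ℕ}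
    (h : ∀ n ≤ N c, r' n = r n) (hok : s.OK σ φ r c i) : s.OK σ φ r' c i := by
  obtain ⟨h1, h2, h3, h4⟩ := hok
  refine ⟨fun n hn => ?_, ?_, ?_, fun n hn => ?_⟩
  · rw [h n hn.le]
    exact h1 n hn
  · rwa [h _ le_rfl]
  · rwa [h _ le_rfl]
  · rw [h n hn.le, h _ le_rfl]
    exact h4 n hn

theorem Sit.sel (s : Sit W) (σ : W) (φ : W → VV) {Y : Set ℕ} (hY : Y ⊆ s.I) (k0 : ℕ)
    {Λ : Set (List ℕ × Om)} (hΛ : Λ.Finite)
    (h : ∀ o ∈ Λ, ⊥ < o.2 ∧ (∀ γ < o.2, ∃ γ', γ < γ' ∧ γ' < o.2) ∧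
      Br {i | i ∈ Y ∧ σ ∈ s.pres (lf i)} o.2 o.1) :
    ∃ r : ℕ → ℕ, ∀ o ∈ Λ, ∀ γ < o.2, ∀ n : ℕ, ∃ k ≥ n, k0 ≤ N (k :: o.1) ∧
      σ ∈ s.dec (k :: o.1) ∧ Rk {i | i ∈ Y ∧ s.OK σ φ r (k :: o.1) i} γ (k :: o.1) := by
  classical
  have hv0 : ∀ o : List ℕ × Om, ∃ v : Ultrafilter ℕ, o ∈ Λ →
      {i | i ∈ Y ∧ σ ∈ s.pres (lf i)} ∈ v ∧ (v : Filter ℕ) ≤ atTop ∧ ∀ Z ∈ v, Br Z o.2 o.1 := by
    intro o
    by_cases ho : o ∈ Λ
    · obtain ⟨v, hv⟩ := (h o ho).2.2.ultra (h o ho).1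
      exact ⟨v, fun _ => hv⟩
    · exact ⟨pure 0, fun h => absurd h ho⟩
  choose v hv using hv0
  have hcnt : {p : (List ℕ × Om) × Om | p.1 ∈ Λ ∧ p.2 < p.1.2}.Countable := by
    refine (hΛ.countable.biUnion fun o _ => (om_cnt o.2).image fun g => (o, g)).mono ?_
    rintro ⟨o, g⟩ ⟨h1, h2⟩
    exact Set.mem_biUnion h1 ⟨g, le_of_lt h2, rfl⟩
  obtain ⟨f, hf⟩ := Set.countable_iff_exists_subset_range.1 hcnt
  obtain ⟨S, hS⟩ := sel_rec (St := ℕ × (List ℕ × Om → List ℕ) × (ℕ → ℕ))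
    (fun z => sel_Inv s σ φ Λ v z.1 z.2.1 z.2.2)
    (fun t z z' => t < z'.1 ∧ z.1 ≤ z'.1 ∧ (∀ n < z.1, z'.2.2 n = z.2.2 n) ∧
      ∀ o ∈ Λ, ∀ g < o.2, f t.unpair.1 = (o, g) → ∃ k ≥ t, k0 ≤ N (k :: o.1) ∧
        σ ∈ s.dec (k :: o.1) ∧ N (k :: o.1) < z'.1 ∧
          Rk {i | i ∈ Y ∧ s.OK σ φ z'.2.2 (k :: o.1) i} g (k :: o.1))
    (0, fun _ => [], fun _ => 0)
    ⟨fun _ _ _ hu => absurd hu List.not_mem_nil, fun _ hn => absurd rfl hn⟩
    (by
      rintro t ⟨B, U, r⟩ hi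
      by_cases hq : (f t.unpair.1).1 ∈ Λ ∧ (f t.unpair.1).2 < (f t.unpair.1).1.2
      · obtain ⟨g', hg, hg'⟩ := (h _ hq.1).2.1 _ hq.2
        obtain ⟨B', U', r', h1, h2, h3, h4, h5⟩ := sel_step s σ φ hY k0 hΛ v hv hi hq.1 hg hg' t
        refine ⟨(B', U', r'), h1, h2, h3, h4, fun o _ g _ he => ?_⟩
        rw [he] at h5
        exact h5
      · refine ⟨(max B (t + 1), U, r), ⟨hi.1, fun n hn => ?_⟩, ?_, le_max_left _ _,
          fun _ _ => rfl, fun o ho g hg he => ?_⟩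
        · obtain ⟨h1, h2, h3⟩ := hi.2 n hn
          exact ⟨lt_of_lt_of_le h1 (le_max_left _ _), le_trans h2 (le_max_left _ _), h3⟩
        · exact lt_of_lt_of_le (Nat.lt_succ_self t) (le_max_right _ _)
        · rw [he] at hq
          exact absurd ⟨ho, hg⟩ hq)
  have hmono : Monotone fun t => (S t).1 := monotone_nat_of_le_succ fun t => (hS t).2.1
  have hst : ∀ n a b, a ≤ b → n < (S a).1 → (S b).2.2 n = (S a).2.2 n := by
    intro n a b hab hn
    induction b, hab using Nat.le_induction with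
    | base => rfl
    | succ b hab ih => rw [(hS b).2.2.1 n (lt_of_lt_of_le hn (hmono hab)), ih]
  refine ⟨fun n => (S (n + 1)).2.2 n, fun o ho g hg n => ?_⟩
  obtain ⟨m, hm⟩ := hf (show (o, g) ∈ {p : (List ℕ × Om) × Om | p.1 ∈ Λ ∧ p.2 < p.1.2} from ⟨ho, hg⟩)
  obtain ⟨k, hk, h1, h2, h3, h4⟩ := (hS (Nat.pair m n)).2.2.2 o ho g hg (by simpa using hm)
  refine ⟨k, le_trans (Nat.right_le_pair m n) hk, h1, h2, h4.mono fun i hi _ =>
    ⟨hi.1, sel_ok_congr s σ φ (fun j hj => ?_) hi.2⟩⟩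
  have e1 := hst j (j + 1) (max (j + 1) (Nat.pair m n + 1)) (le_max_left _ _) (hS j).1
  have e2 := hst j (Nat.pair m n + 1) (max (j + 1) (Nat.pair m n + 1)) (le_max_right _ _)
    (lt_of_le_of_lt hj h3)
  exact e1.symm.trans e2

end Pool.Agent.MP_2e2931_gt.Z3

end

section

open Set Topology Filter Cardinal Function

namespace Pool.Agent.MP_2e2931_gt.Z3

variable {W : Type} [LinearOrder W]

theorem succ_root_uniq {k : ℕ} {c c' l : List ℕ} (h : c <:+ l) (h' : c' <:+ l) (hc : IsRoot k c)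
    (hc' : IsRoot k c') : c = c' := by
  by_contra hne
  rcases List.suffix_or_suffix_of_suffix h h' with h1 | h1
  · exact absurd (hc'.2 c h1 hne) (not_lt.2 hc.1)
  · exact absurd (hc.2 c' h1 (Ne.symm hne)) (not_lt.2 hc'.1)

/-- the value chosen at the successor step -/
def succ_x (s : Sit W) (σ : W) (k fr : ℕ) (r : ℕ → ℕ) : VV := fun a =>
  if a.1 = 0 then (k : ℕ) else if a.1 = 1 then (fr : ℕ) else if a.1 = 2 then (r a.2 : ℕ)
    else (s.lab (dl a.2) σ : ℕ)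

theorem succ_labOK (s : Sit W) (σ : W) (k fr : ℕ) (r : ℕ → ℕ) (φ : W → VV) {i : ℕ}
    (hi : i ∈ s.I) {c : List ℕ} (hc : σ ∈ s.dec c) :
    LabOK s.wt i (succ_x s σ k fr r) (s.sub σ i) (s.inA σ φ i) c := by
  refine ⟨s.lab c σ, (s.labb c σ hc).1, by simp [succ_x], fun b hb hb' => ?_⟩
  have hd' := s.dec_mono hb hc
  exact ⟨s.lab b σ, (s.labb b σ hd').1, by simp [succ_x], s.labh c b σ hb hc, (s.labb b σ hd').2,
    fun u _ hu => s.insub i hi b σ φ u hb' hd' hu⟩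

theorem succ_recOK (s : Sit W) (σ : W) (k fr : ℕ) (r : ℕ → ℕ) {φ φ' : W → VV} {i : ℕ}
    (hφ : ∀ τ < σ, φ τ = φ' τ) {c : List ℕ} (h : s.OK σ φ r c i) :
    RecOK (s.perp σ) i (succ_x s σ k fr r) (s.inA σ φ' i) c := by
  obtain ⟨h1, h2, h3, h4⟩ := h
  have hx : ∀ n, succ_x s σ k fr r (2, n) = (r n : ℕ) := fun n => by simp [succ_x]
  refine ⟨fun n hn => ?_, ?_, fun e _ he => ?_⟩
  · rw [hx]
    exact_mod_cast h1 n hn
  · rw [hx]
    exact_mod_cast h2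
  · rw [hx] at he
    have he' : r (N c) = e := by exact_mod_cast he
    subst he'
    refine ⟨fun w hw => (s.dep σ φ φ' i w hφ).1 (h3 w hw), fun n hn e' _ he2 h0 => ?_⟩
    rw [hx] at he2
    have he' : r n = e' := by exact_mod_cast he2
    subst he'
    exact h4 n hn h0

theorem succ_k (s : Sit W) (σ : W) {Λ : Set (List ℕ × Om)} (hΛ : Λ.Finite) (hinv : s.Inv Λ σ) :
    ∃ k fr : ℕ, ∀ o ∈ Λ, (σ ∈ s.pres o.1 → s.jj o.1 σ = k) ∧
      (k ≤ N o.1 → σ ∈ s.pres o.1 ∧ ∀ c, c <:+ o.1 → IsRoot k c → fr = N c) := by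
  by_cases h : ∃ o ∈ Λ, σ ∈ s.pres o.1
  · obtain ⟨o0, ho0, hp⟩ := h
    have hfr : ∃ fr, ∀ c, c <:+ o0.1 → IsRoot (s.jj o0.1 σ) c → fr = N c := by
      by_cases h2 : ∃ c, c <:+ o0.1 ∧ IsRoot (s.jj o0.1 σ) c
      · obtain ⟨c, hc, hr⟩ := h2
        exact ⟨N c, fun c' hc' hr' => by rw [succ_root_uniq hc hc' hr hr']⟩
      · exact ⟨0, fun c hc hr => absurd ⟨c, hc, hr⟩ h2⟩
    obtain ⟨fr, hfr⟩ := hfr
    refine ⟨s.jj o0.1 σ, fr, fun o ho => ?_⟩
    by_cases he : o.1 = o0.1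
    · rw [he]
      exact ⟨fun _ => rfl, fun _ => ⟨hp, hfr⟩⟩
    · obtain ⟨h1, h2⟩ := hinv o0 ho0 hp o ho he
      exact ⟨fun h3 => absurd h3 h1, fun h3 => absurd h2 (not_lt.2 h3)⟩
  · obtain ⟨M, hM⟩ := (hΛ.image fun o => N o.1).bddAbove
    refine ⟨M + 1, 0, fun o ho => ⟨fun h3 => absurd ⟨o, ho, h3⟩ h, fun h3 => ?_⟩⟩
    have : N o.1 ≤ M := hM ⟨o, ho, rfl⟩
    omega

theorem Sit.succ_step (s : Sit W) (σ : W) (φ : W → VV) {Y : Set ℕ} (hY : Y ⊆ s.I)
    {Λ : Set (List ℕ × Om)} (hΛ : Λ.Finite)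
    (h : ∀ o ∈ Λ, (∀ γ < o.2, ∃ γ', γ < γ' ∧ γ' < o.2) ∧ Br Y o.2 o.1) (hinv : s.Inv Λ σ) :
    ∃ x : VV, ∀ o ∈ Λ, Br {i | i ∈ Y ∧ s.Pz (update φ σ x) i σ} o.2 o.1 := by
  classical
  obtain ⟨k, fr, hk⟩ := succ_k s σ hΛ hinv
  obtain ⟨r, hr⟩ := s.sel σ φ hY k
    (Λ := {o | o ∈ Λ ∧ ⊥ < o.2 ∧ ¬ Br {i | i ∈ Y ∧ σ ∉ s.pres (lf i)} o.2 o.1})
    (hΛ.subset fun o ho => ho.1) (by
      rintro o ⟨ho, h0, hn⟩
      refine ⟨h0, (h o ho).1, ?_⟩
      have h1 : Br ({i | i ∈ Y ∧ σ ∈ s.pres (lf i)} ∪ {i | i ∈ Y ∧ σ ∉ s.pres (lf i)}) o.2 o.1 := by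
        refine (h o ho).2.mono fun i hi _ => ?_
        by_cases hp : σ ∈ s.pres (lf i)
        · exact Or.inl ⟨hi, hp⟩
        · exact Or.inr ⟨hi, hp⟩
      exact h1.union.resolve_right hn)
  refine ⟨succ_x s σ k fr r, fun o ho => ?_⟩
  have hφ : ∀ τ < σ, φ τ = update φ σ (succ_x s σ k fr r) τ := fun τ hτ =>
    (update_of_ne hτ.ne _ _).symm
  have key : ∀ i ∈ Y, σ ∈ s.pres (lf i) → k ≤ s.jj (lf i) σ →
      (∀ c, c <:+ lf i → IsRoot k c → σ ∈ s.dec c ∧ (fr = N c ∨ s.OK σ φ r c i)) →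
        s.Pz (update φ σ (succ_x s σ k fr r)) i σ := by
    intro i hi hp hkj hc
    have hj := s.jle i (hY hi) σ hp
    refine Or.inr ⟨k, hkj.trans hj, s.jj (lf i) σ, hj, ?_, rfl, hkj, fun c h1 h2 => ?_⟩
    · rw [update_self]
      simp [succ_x]
    · rw [update_self]
      obtain ⟨h3, h4⟩ := hc c h1 h2
      refine ⟨succ_labOK s σ k fr r _ (hY hi) h3, h4.imp (fun h5 => ?_)
        fun h5 => succ_recOK s σ k fr r hφ h5⟩
      rw [← h5]
      simp [succ_x]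
  by_cases hkN : k ≤ N o.1
  · obtain ⟨hp, hfr⟩ := (hk o ho).2 hkN
    have hjk := (hk o ho).1 hp
    refine (h o ho).2.mono fun i hi hb => ⟨hi, key i hi (s.mono _ _ σ hb hp).1 ?_ ?_⟩
    · rw [(s.mono _ _ σ hb hp).2, hjk]
    · intro c h1 h2
      have hcb : c <:+ o.1 := by
        rcases List.suffix_or_suffix_of_suffix h1 hb with h3 | h3
        · exact h3
        · by_cases he : o.1 = c
          · rw [he]
          · exact absurd (h2.2 _ h3 he) (not_lt.2 hkN)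
      refine ⟨?_, Or.inl (hfr c hcb h2)⟩
      have hpos := s.jpos _ σ hp
      have hkc := h2.1
      cases c with
      | nil =>
        rw [N_nil] at hkc
        omega
      | cons k1 c1 =>
        by_cases hp1 : σ ∈ s.pres c1
        · exact s.pdec c1 k1 σ hp1
        · have := s.jnew c1 k1 _ σ hcb hp hp1
          omega
  · rw [not_le] at hkN
    rcases eq_or_lt_of_le (bot_le (a := o.2)) with h0 | h0
    · obtain ⟨i, hi, hl⟩ := (br_iff.1 (h o ho).2).1 h0.symm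
      refine br_iff.2 ⟨fun _ => ⟨i, ⟨hi, ?_⟩, hl⟩, fun g hg => ?_⟩
      · by_cases hp : σ ∈ s.pres (lf i)
        · refine key i hi hp ?_ fun c h1 h2 => ?_
          · rw [hl] at hp ⊢
            rw [(hk o ho).1 hp]
          · rw [hl] at h1
            have := N_mono h1
            have := h2.1
            omega
        · exact Or.inl hp
      · rw [← h0] at hg
        exact absurd hg not_lt_bot
    · by_cases hn : Br {i | i ∈ Y ∧ σ ∉ s.pres (lf i)} o.2 o.1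
      · exact hn.mono fun i hi _ => ⟨hi.1, Or.inl hi.2⟩
      · refine br_iff.2 ⟨fun he => absurd he h0.ne', fun g hg n => ?_⟩
        obtain ⟨k', hk', h1, h2, h3⟩ := hr o ⟨ho, h0, hn⟩ g hg n
        refine ⟨k', hk', h3.mono fun i hi hb => ⟨hi.1, ?_⟩⟩
        have hpi := (s.mono _ _ σ hb (s.decp _ σ h2)).1
        refine key i hi.1 hpi ?_ fun c h4 h5 => ?_
        · by_cases hp : σ ∈ s.pres o.1
          · rw [(s.mono _ _ σ ((List.suffix_cons k' o.1).trans hb) hp).2, (hk o ho).1 hp]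
          · have := s.jnew _ k' _ σ hb hpi hp
            omega
        · have hroot : IsRoot k (k' :: o.1) := by
            refine ⟨h1, fun c' h6 h7 => ?_⟩
            rcases List.suffix_cons_iff.1 h6 with h8 | h8
            · exact absurd h8 h7
            · exact lt_of_le_of_lt (N_mono h8) hkN
          rw [succ_root_uniq h4 hb h5 hroot]
          exact ⟨h2, Or.inr hi.2⟩

end Pool.Agent.MP_2e2931_gt.Z3

end

section

open Set Topology Filter Cardinal Function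

namespace Pool.Agent.MP_2e2931_gt.Z3

variable {W : Type} [LinearOrder W]

theorem Sit.pz_congr (s : Sit W) {φ φ' : W → VV} {σ : W} (h : ∀ τ ≤ σ, φ τ = φ' τ) (i : ℕ) :
    s.Pz φ i σ ↔ s.Pz φ' i σ := by
  have e : s.inA σ φ i = s.inA σ φ' i :=
    funext fun u => propext (s.dep σ φ φ' i u fun τ hτ => h τ hτ.le)
  unfold Sit.Pz
  rw [e, h σ le_rfl]

theorem Sit.yb_congr (s : Sit W) {φ φ' : W → VV} {η : WithTop W}
    (h : ∀ τ : W, (τ : WithTop W) < η → φ τ = φ' τ) : s.Yb φ η = s.Yb φ' η := by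
  ext i
  refine and_congr_right fun _ => forall_congr' fun σ => forall_congr' fun hσ => ?_
  exact s.pz_congr (fun τ hτ => h τ ((WithTop.coe_le_coe.2 hτ).trans_lt hσ)) i

theorem lim_seq {S : Type} (P : S → Prop) (R : ℕ → S → S → Prop) (s0 : S) (h0 : P s0)
    (h : ∀ n s, P s → ∃ s', P s' ∧ R n s s') :
    ∃ f : ℕ → S, f 0 = s0 ∧ ∀ n, P (f n) ∧ R n (f n) (f (n + 1)) := by
  choose! g g1 g2 using h
  let f : ℕ → S := fun n => Nat.rec s0 g n
  have hP : ∀ n, P (f n) := fun n => by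
    induction n with
    | zero => exact h0
    | succ n ih => exact g1 n _ ih
  exact ⟨f, rfl, fun n => ⟨hP n, g2 n _ (hP n)⟩⟩

theorem lim_bound {η : WithTop W}
    (hη : ∀ σ : W, (σ : WithTop W) < η → ∃ τ : W, σ < τ ∧ (τ : WithTop W) < η) {Z : Set W}
    (hZ : Z.Finite) (ζ : W) (hζ : (ζ : WithTop W) < η) : ∃ τ : W, ζ ≤ τ ∧ (τ : WithTop W) < η ∧
      ∀ σ ∈ Z, (σ : WithTop W) < η → σ < τ := by
  induction Z, hZ using Set.Finite.induction_on with
  | empty => exact ⟨ζ, le_rfl, hζ, by simp⟩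
  | @insert a Z _ _ ih =>
    obtain ⟨τ, t1, t2, t3⟩ := ih
    by_cases c : (a : WithTop W) < η
    · obtain ⟨ρ, r1, r2⟩ := hη a c
      refine ⟨max τ ρ, t1.trans (le_max_left _ _), ?_, ?_⟩
      · rcases max_choice τ ρ with e | e <;> rw [e] <;> assumption
      · rintro σ (rfl | k) k'
        · exact r1.trans_le (le_max_right _ _)
        · exact (t3 σ k k').trans_le (le_max_left _ _)
    · refine ⟨τ, t1, t2, ?_⟩
      rintro σ (rfl | k) k'
      · exact absurd k' c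
      · exact t3 σ k k'

/-- states of the fusion -/
structure LimSt (W : Type) where
  φ : W → VV
  ζ : W
  Λ : Set (List ℕ × Om)

def LimP (s : Sit W) (η : WithTop W) (β : Om → Om) (G : Om) (x : LimSt W) : Prop :=
  (x.ζ : WithTop W) < η ∧ x.Λ.Finite ∧ ∀ o ∈ x.Λ, Cl β o.2 ∧ o.2 ≤ G ∧
    Br (s.Yb x.φ x.ζ) o.2 o.1 ∧ ∀ σ ∈ s.pres o.1, (σ : WithTop W) < η → σ < x.ζ

def LimR (η : WithTop W) (β : Om → Om) (n : ℕ) (σ : W) (q : List ℕ × Om × Om)
    (x x' : LimSt W) : Prop :=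
  x.Λ ⊆ x'.Λ ∧ x.ζ ≤ x'.ζ ∧ (∀ τ < x.ζ, x'.φ τ = x.φ τ) ∧ ((σ : WithTop W) < η → σ < x'.ζ) ∧
    ((q.1, q.2.1) ∈ x.Λ → q.2.2 < q.2.1 → Cl β q.2.2 →
      ∃ k ≥ n, ∃ c, k :: q.1 <:+ c ∧ (c, q.2.2) ∈ x'.Λ)

theorem lim_one (s : Sit W) {η : WithTop W} {β : Om → Om} {G : Om}
    (hη : ∀ σ : W, (σ : WithTop W) < η → ∃ τ : W, σ < τ ∧ (τ : WithTop W) < η)
    (ih : ∀ τ : W, (τ : WithTop W) < η → Pv W τ β) (n : ℕ) (σ : W) (q : List ℕ × Om × Om)
    (x : LimSt W) (hx : LimP s η β G x) : ∃ x', LimP s η β G x' ∧ LimR η β n σ q x x' := by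
  obtain ⟨x1, x2, x3⟩ := hx
  have key : ∃ Λ' : Set (List ℕ × Om), x.Λ ⊆ Λ' ∧ Λ'.Finite ∧
      (∀ o ∈ Λ', Cl β o.2 ∧ o.2 ≤ G ∧ Br (s.Yb x.φ x.ζ) o.2 o.1) ∧
      (∀ τ : W, x.ζ ≤ τ → (τ : WithTop W) < η → s.Inv Λ' τ) ∧
      ((q.1, q.2.1) ∈ x.Λ → q.2.2 < q.2.1 → Cl β q.2.2 →
        ∃ k ≥ n, ∃ c, k :: q.1 <:+ c ∧ (c, q.2.2) ∈ Λ') := by
    by_cases c : (q.1, q.2.1) ∈ x.Λ ∧ q.2.2 < q.2.1 ∧ Cl β q.2.2
    swap
    · exact ⟨x.Λ, subset_rfl, x2, fun o ho => ⟨(x3 o ho).1, (x3 o ho).2.1, (x3 o ho).2.2.1⟩,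
        fun τ t1 t2 o ho k => absurd ((x3 o ho).2.2.2 τ k t2) (not_lt.2 t1),
        fun a b d => absurd ⟨a, b, d⟩ c⟩
    obtain ⟨c1, c2, c3⟩ := c
    obtain ⟨B, hB⟩ := (x2.image fun o => N o.1).bddAbove
    obtain ⟨k, k1, c, k2, k3⟩ := (br_iff.1 (x3 _ c1).2.2.1).2 _ c2 (max n B)
    refine ⟨insert (c, q.2.2) x.Λ, subset_insert _ _, x2.insert _, ?_, ?_,
      fun _ _ _ => ⟨k, (le_max_left _ _).trans k1, c, k2, mem_insert _ _⟩⟩
    · rintro o (rfl | ho)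
      · exact ⟨c3, c2.le.trans (x3 _ c1).2.1, k3⟩
      · exact ⟨(x3 o ho).1, (x3 o ho).2.1, (x3 o ho).2.2.1⟩
    · intro τ t1 t2
      have no : ∀ o ∈ x.Λ, τ ∉ s.pres o.1 := fun o ho k =>
        absurd ((x3 o ho).2.2.2 τ k t2) (not_lt.2 t1)
      rintro o (rfl | ho) hp
      · rintro o' (rfl | ho') hne
        · exact absurd rfl hne
        · exact ⟨no _ ho', ((hB (mem_image_of_mem _ ho')).trans ((le_max_right _ _).trans k1)).trans_lt
            ((lt_N_cons k _).trans (s.jnew _ _ _ _ k2 hp (no _ c1)))⟩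
      · exact absurd hp (no o ho)
  obtain ⟨Λ', l1, l2, l3, l4, l5⟩ := key
  obtain ⟨ζ', z1, z2, z3⟩ := lim_bound hη
    ((l2.biUnion fun o _ => s.pfin o.1).insert σ) x.ζ x1
  obtain ⟨φ', p1, p2⟩ := ih ζ' z2 s x.ζ x.φ Λ' (WithTop.coe_le_coe.2 z1) l2
    (fun o ho => ⟨(l3 o ho).1, (l3 o ho).2.2⟩)
    fun τ t1 t2 => l4 τ (WithTop.coe_le_coe.1 t1) (t2.trans z2)
  exact ⟨⟨φ', ζ', Λ'⟩, ⟨z2, l2, fun o ho => ⟨(l3 o ho).1, (l3 o ho).2.1, p2 o ho,
    fun τ t => z3 τ (Or.inr (mem_biUnion ho t))⟩⟩, l1, z1,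
    fun τ t => p1 τ (WithTop.coe_lt_coe.2 t), z3 σ (Or.inl rfl), l5⟩

theorem lim_step [Countable W] (η : WithTop W)
    (hη : ∀ σ : W, (σ : WithTop W) < η → ∃ τ : W, σ < τ ∧ (τ : WithTop W) < η)
    (ih : ∀ τ : W, (τ : WithTop W) < η → ∃ β, Pv W τ β) : ∃ β, Pv W η β := by
  classical
  choose! b hb using ih
  choose β' hβ' using fun γ => om_bdd (countable_range fun τ => b τ γ)
  have ih' : ∀ τ : W, (τ : WithTop W) < η → Pv W τ β' := fun τ t s ξ φ Λ h1 h2 h3 =>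
    hb τ t s ξ φ Λ h1 h2 fun o ho =>
      ⟨fun γ k => (hβ' γ _ (mem_range_self τ)).trans ((h3 o ho).1 γ k), (h3 o ho).2⟩
  obtain ⟨θ, θ0, θ1, θ2⟩ := theta (Cl β') (fun γ k => absurd k not_lt_bot) (cl_exists β')
  refine ⟨fun γ => max (β' γ) (θ γ), fun s ξ φ Λ h1 h2 h3 h4 => ?_⟩
  rcases h1.eq_or_lt with rfl | h1
  · exact ⟨φ, fun _ _ => rfl, fun o ho => (h3 o ho).2⟩
  lift ξ to W using h1.ne_top
  have c1 : ∀ o ∈ Λ, Cl β' o.2 := fun o ho γ k => (le_max_left _ _).trans_lt ((h3 o ho).1 γ k)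
  obtain ⟨G, hG⟩ := om_bdd (h2.image Prod.snd).countable
  obtain ⟨ζ0, z1, z2, z3⟩ := lim_bound hη (h2.biUnion fun o _ => s.pfin o.1) ξ h1
  obtain ⟨φ0, p1, p2⟩ := ih' ζ0 z2 s ξ φ Λ (WithTop.coe_le_coe.2 z1) h2
    (fun o ho => ⟨c1 o ho, (h3 o ho).2⟩) fun τ t1 t2 => h4 τ t1 (t2.trans z2)
  have : Nonempty W := ⟨ξ⟩
  obtain ⟨sg, hsg⟩ := exists_surjective_nat W
  obtain ⟨en, hen⟩ := (om_cnt G).exists_eq_range ⟨G, mem_Iic.2 le_rfl⟩
  let rq : ℕ → List ℕ × Om × Om := fun n =>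
    (dl n.unpair.1.unpair.1, en n.unpair.1.unpair.2.unpair.1, en n.unpair.1.unpair.2.unpair.2)
  obtain ⟨f, f0, hf⟩ := lim_seq (LimP s η β' G) (fun n => LimR η β' n (sg n) (rq n)) ⟨φ0, ζ0, Λ⟩
    ⟨z2, h2, fun o ho => ⟨c1 o ho, (hG _ (mem_image_of_mem _ ho)).le, p2 o ho,
      fun τ t => z3 τ (mem_biUnion ho t)⟩⟩ fun n => lim_one s hη ih' n _ _
  have mz : Monotone fun n => (f n).ζ := monotone_nat_of_le_succ fun n => (hf n).2.2.1
  have mΛ : Monotone fun n => (f n).Λ := monotone_nat_of_le_succ fun n => (hf n).2.1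
  have st : ∀ n m, n ≤ m → ∀ τ < (f n).ζ, (f m).φ τ = (f n).φ τ := fun n m h τ t => by
    induction m, h using Nat.le_induction with
    | base => rfl
    | succ m h ih => exact ((hf m).2.2.2.1 τ (t.trans_le (mz h))).trans ih
  let ψ : W → VV := fun τ => (f ((hsg τ).choose + 1)).φ τ
  have big : ∀ τ : W, (τ : WithTop W) < η → τ < (f ((hsg τ).choose + 1)).ζ := fun τ t => by
    have := (hf (hsg τ).choose).2.2.2.2.1
    rw [(hsg τ).choose_spec] at this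
    exact this t
  have ag : ∀ n, ∀ τ < (f n).ζ, ψ τ = (f n).φ τ := fun n τ t =>
    (st _ _ (le_max_left _ n) τ (big τ ((WithTop.coe_lt_coe.2 t).trans (hf n).1.1))).symm.trans
      (st _ _ (le_max_right _ n) τ t)
  have yb : ∀ n, s.Yb ψ (f n).ζ = s.Yb (f n).φ (f n).ζ := fun n =>
    s.yb_congr fun τ t => ag n τ (WithTop.coe_lt_coe.1 t)
  have main : ∀ γ : Om, ∀ n, ∀ o ∈ (f n).Λ, (γ = ⊥ → o.2 = ⊥) → (∀ γ' < γ, θ γ' < o.2) →
      Br (s.Yb ψ η) γ o.1 := fun γ => by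
    induction γ using WellFoundedLT.induction with
    | ind γ ih =>
    intro n o ho g0 g1
    refine br_iff.2 ⟨fun e => ?_, fun γ' t m => ?_⟩
    · have k : ∀ m, n ≤ m → ∃ i ∈ s.Yb ψ (f m).ζ, lf i = o.1 := fun m hm => by
        rw [yb]
        exact (br_iff.1 ((hf m).1.2.2 o (mΛ hm ho)).2.2.1).1 (g0 e)
      obtain ⟨i, i1, i2⟩ := k n le_rfl
      refine ⟨i, ⟨i1.1, fun τ t => ?_⟩, i2⟩
      obtain ⟨j, j1, j2⟩ := k (max ((hsg τ).choose + 1) n) (le_max_right _ _)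
      rw [s.inj i1.1 j1.1 (i2.trans j2.symm)]
      exact j1.2 τ (WithTop.coe_lt_coe.2 ((big τ t).trans_le (mz (le_max_left _ _))))
    · have o2 := ((hf n).1.2.2 o ho).2.1
      obtain ⟨a, ha⟩ : o.2 ∈ range en := hen ▸ o2
      obtain ⟨a', ha'⟩ : θ γ' ∈ range en := hen ▸ ((g1 γ' t).le.trans o2)
      let p := Nat.pair (Nat.pair (N o.1) (Nat.pair a a')) (max n m)
      have hp : max n m ≤ p := Nat.right_le_pair _ _
      have e : rq p = (o.1, o.2, θ γ') := by simp [rq, p, ha, ha']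
      have := (hf p).2.2.2.2.2
      rw [e] at this
      obtain ⟨k, k1, c, k2, k3⟩ := this (mΛ ((le_max_left _ _).trans hp) ho) (g1 γ' t) (θ1 γ')
      exact ⟨k, ((le_max_right _ _).trans hp).trans k1, c, k2,
        ih γ' t _ _ k3 (fun e => by rw [e]; exact θ0) fun γ'' t' => θ2 t'⟩
  refine ⟨ψ, fun τ t => ?_, fun o ho => main o.2 0 o (f0 ▸ ho) id
    fun γ k => (le_max_right _ _).trans_lt ((h3 o ho).1 γ k)⟩
  have t' : τ < (f 0).ζ := by
    rw [f0]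
    exact (WithTop.coe_lt_coe.1 t).trans_le z1
  rw [ag 0 τ t', f0]
  exact p1 τ t

end Pool.Agent.MP_2e2931_gt.Z3

end

section

open Set Topology Filter Cardinal Function

namespace Pool.Agent.MP_2e2931_gt.Z3

variable {ι : Type}

theorem Cond.le_refl (q : Cond ι) : q.Le q :=
  ⟨subset_rfl, le_rfl, le_rfl, fun _ _ _ _ => rfl, fun _ h h' => absurd h h'⟩

theorem Cond.Le.trans {q q' q'' : Cond ι} (h : q''.Le q') (h' : q'.Le q) : q''.Le q := by
  obtain ⟨a1, d1, j1, p1, n1⟩ := h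
  obtain ⟨a2, d2, j2, p2, n2⟩ := h'
  refine ⟨a2.trans a1, d2.trans d1, j2.trans j1, fun σ hσ n hn => ?_, fun σ hσ hσ' => ?_⟩
  · rw [p1 σ (a2 hσ) n (hn.trans d2), p2 σ hσ n hn]
  · by_cases h3 : σ ∈ q'.a
    · have := n2 σ h3 hσ'
      unfold jv at this ⊢
      rw [p1 σ h3 0 (Nat.zero_le _)]
      exact this
    · exact le_trans (by exact_mod_cast j2) (n1 σ hσ h3)

theorem Cond.Le.sub {q q' : Cond ι} (h : q'.Le q) : q'.K ⊆ q.K := by
  obtain ⟨a2, d2, j2, p2, n2⟩ := h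
  rintro p ⟨h1, h2⟩
  refine ⟨fun σ hσ n hn => ?_, fun σ hσ => ?_⟩
  · rw [h1 σ (a2 hσ) n (hn.trans d2), p2 σ hσ n hn]
  · by_cases h3 : σ ∈ q'.a
    · have := n2 σ h3 hσ
      unfold jv at this ⊢
      rw [h1 σ h3 0 (Nat.zero_le _)]
      exact this
    · exact le_trans (by exact_mod_cast j2) (h2 σ h3)

theorem condl_closed (q : Cond ι) : IsClosed q.K := by
  have e : q.K = (⋂ σ ∈ q.a, ⋂ n ∈ {n | n ≤ q.d}, {p : Ph ι | p (σ, n) = q.p (σ, n)}) ∩
      ⋂ σ ∈ {σ | σ ∉ q.a}, {p : Ph ι | (q.J : ℕ∞) ≤ jv p σ} := by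
    ext p
    simp [Cond.K]
  rw [e]
  refine IsClosed.inter (isClosed_biInter fun σ _ => isClosed_biInter fun n _ => ?_)
    (isClosed_biInter fun σ _ => ?_)
  · exact isClosed_eq (continuous_apply _) continuous_const
  · exact isClosed_le continuous_const
      ((continuous_apply ((0, 0) : ℕ × ℕ)).comp (continuous_apply (σ, 0)))

theorem condl_ne (q : Cond ι) : q.K.Nonempty := by
  classical
  refine ⟨fun z => if z.1 ∈ q.a then q.p z else fun _ => ⊤, fun σ hσ n _ => ?_, fun σ hσ => ?_⟩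
  · simp [hσ]
  · simp [jv, hσ]

theorem condl_shrink (F : Set (Ph ι)) (hF : IsClosed F) (q : Cond ι) (h : ¬ q.K ⊆ F) :
    ∃ q' : Cond ι, q'.Le q ∧ Disjoint q'.K F := by
  classical
  obtain ⟨p1, hp1, hp2⟩ := not_subset.1 h
  let P : ℕ → Ph ι := fun n z a =>
    if z.1 ∉ q.a ∧ z.2 = 0 ∧ a = (0, 0) then min (p1 z a) (n : ℕ∞) else p1 z a
  have hT : Tendsto P atTop (𝓝 p1) := by
    refine tendsto_pi_nhds.2 fun z => tendsto_pi_nhds.2 fun a => ?_
    by_cases hz : z.1 ∉ q.a ∧ z.2 = 0 ∧ a = (0, 0)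
    · simp only [P, if_pos hz]
      have h1 : Tendsto (fun n : ℕ => (n : ℕ∞)) atTop (𝓝 ⊤) := by
        rw [ENat.tendsto_nhds_top_iff_natCast_lt]
        intro n
        filter_upwards [eventually_gt_atTop n] with m hm
        exact_mod_cast hm
      have h2 := (tendsto_const_nhds (x := p1 z a) (f := (atTop : Filter ℕ))).min h1
      simpa using h2
    · simp only [P, if_neg hz]
      exact tendsto_const_nhds
  obtain ⟨n, hn1, hn2⟩ := ((hT.eventually (hF.isOpen_compl.mem_nhds hp2)).and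
    (eventually_ge_atTop q.J)).exists
  have ha : ∀ σ ∈ q.a, ∀ m, P n (σ, m) = p1 (σ, m) := by
    intro σ hσ m
    funext a
    simp [P, hσ]
  have hb : ∀ σ ∉ q.a, jv (P n) σ = min (jv p1 σ) (n : ℕ∞) := by
    intro σ hσ
    simp [P, jv, hσ]
  have hfin : ∀ σ, jv (P n) σ ≠ ⊤ := by
    intro σ
    by_cases hσ : σ ∈ q.a
    · have := q.fin σ hσ
      unfold jv at this ⊢
      rw [ha σ hσ, hp1.1 σ hσ 0 (Nat.zero_le _)]
      exact this
    · rw [hb σ hσ]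
      exact ne_top_of_le_ne_top (ENat.natCast_ne_top n) (min_le_right _ _)
  obtain ⟨I, u, hu, hI⟩ := isOpen_pi_iff.1 hF.isOpen_compl (P n) hn1
  refine ⟨⟨q.a ∪ I.image Prod.fst, P n, max q.d (I.sup Prod.snd), q.J, fun σ _ => hfin σ⟩,
    ⟨Finset.subset_union_left, le_max_left _ _, le_rfl, fun σ hσ m hm => ?_,
      fun σ _ hσ => ?_⟩, ?_⟩
  · exact (ha σ hσ m).trans (hp1.1 σ hσ m hm)
  · change (q.J : ℕ∞) ≤ jv (P n) σ
    rw [hb σ hσ]
    exact le_min (hp1.2 σ hσ) (by exact_mod_cast hn2)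
  · refine Set.disjoint_left.2 fun p hp => hI fun z hz => ?_
    have h1 : p (z.1, z.2) = P n (z.1, z.2) :=
      hp.1 z.1 (Finset.mem_union_right _ (Finset.mem_image_of_mem _ hz)) z.2
        (le_max_of_le_right (Finset.le_sup (f := Prod.snd) hz))
    have h2 : p z = P n z := h1
    rw [h2]
    exact (hu z hz).2

theorem Cond.baire (F : ℕ → Set (Ph ι)) (hF : ∀ l, IsClosed (F l))
    (hc : ∀ p, ∃ m, ∀ n, ∃ k, p ∈ F (lc m n k)) (q : Cond ι) :
    ∃ (q' : Cond ι) (m : ℕ), q'.Le q ∧ q'.Hd F m := by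
  by_contra hcon
  have hstep : ∀ (q1 : {q1 : Cond ι // q1.Le q}) (t : ℕ), ∃ q2 : {q1 : Cond ι // q1.Le q},
      q2.1.Le q1.1 ∧ (∃ n, ∀ (q3 : Cond ι) (k : ℕ), q3.Le q2.1 → ¬ q3.K ⊆ F (lc t n k)) ∧
        (q2.1.K ⊆ F t ∨ Disjoint q2.1.K (F t)) := by
    intro q1 t
    have h1 : ¬ q1.1.Hd F t := fun h => hcon ⟨q1.1, t, q1.2, h⟩
    unfold Cond.Hd at h1
    push Not at h1
    obtain ⟨q2, h2, n, h3⟩ := h1
    by_cases h4 : q2.K ⊆ F t
    · exact ⟨⟨q2, h2.trans q1.2⟩, h2, ⟨n, h3⟩, Or.inl h4⟩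
    · obtain ⟨q3, h5, h6⟩ := condl_shrink (F t) (hF t) q2 h4
      exact ⟨⟨q3, (h5.trans h2).trans q1.2⟩, h5.trans h2,
        ⟨n, fun q4 k h7 => h3 q4 k (h7.trans h5)⟩, Or.inr h6⟩
  choose f hf1 hf2 hf3 using hstep
  let s : ℕ → {q1 : Cond ι // q1.Le q} := fun t =>
    Nat.rec ⟨q, q.le_refl⟩ (fun t q1 => f q1 t) t
  have hs : ∀ t, s (t + 1) = f (s t) t := fun _ => rfl
  have hle : ∀ t t', t ≤ t' → (s t').1.Le (s t).1 := by
    intro t t' h
    induction h with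
    | refl => exact Cond.le_refl _
    | step _ ih => exact (hf1 _ _).trans ih
  obtain ⟨p, hp⟩ := IsCompact.nonempty_iInter_of_sequence_nonempty_isCompact_isClosed
    (fun t => (s t).1.K) (fun t => (hle t (t + 1) (Nat.le_succ t)).sub) (fun t => condl_ne _)
    (condl_closed _).isCompact (fun t => condl_closed _)
  rw [mem_iInter] at hp
  obtain ⟨m, hm⟩ := hc p
  obtain ⟨n, hn⟩ := hf2 (s m) m
  obtain ⟨k, hk⟩ := hm n
  have h1 : (s (lc m n k + 1)).1.K ⊆ F (lc m n k) := by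
    rcases hf3 (s (lc m n k)) (lc m n k) with h | h
    · exact h
    · exact absurd hk (Set.disjoint_left.1 h (hp (lc m n k + 1)))
  exact hn (s (max m (lc m n k) + 1)).1 k
    (hle (m + 1) _ (Nat.succ_le_succ (le_max_left _ _)))
    ((hle _ _ (Nat.succ_le_succ (le_max_right _ _))).sub.trans h1)

end Pool.Agent.MP_2e2931_gt.Z3

end

section

open Set Topology Filter Cardinal Function

namespace Pool.Agent.MP_2e2931_gt.Z3

theorem sysx_hd {ι : Type} {q q' : Cond ι} {F : ℕ → Set (Ph ι)} {m : ℕ} (h : q.Hd F m)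
    (h' : q'.Le q) : q'.Hd F m :=
  fun q'' h'' n => h q'' (h''.trans h') n

theorem sysx_step {ι : Type} (FF : Option ι → ℕ → Set (Ph ι)) (hF : ∀ t l, IsClosed (FF t l))
    (hc : ∀ t p, ∃ m, ∀ n, ∃ k, p ∈ FF t (lc m n k)) (T S : Finset (Option ι))
    (h0 : Option ι → ℕ) (n : ℕ) (q : Cond ι) (hS : ∀ t ∈ S, q.Hd (FF t) (h0 t)) :
    ∃ (q' : Cond ι) (h k : Option ι → ℕ), q'.Le q ∧ (∀ t ∈ S, h t = h0 t) ∧
      ∀ t ∈ T, q'.Hd (FF t) (h t) ∧ q'.K ⊆ FF t (lc (h t) n (k t)) := by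
  classical
  induction T using Finset.induction_on with
  | empty => exact ⟨q, h0, h0, q.le_refl, fun _ _ => rfl, by simp⟩
  | insert t T _ ih =>
    obtain ⟨q1, h, k, l1, e1, a1⟩ := ih
    obtain ⟨q2, m, l2, d2, e2⟩ : ∃ (q2 : Cond ι) (m : ℕ), q2.Le q1 ∧ q2.Hd (FF t) m ∧
        (t ∈ S → m = h0 t) := by
      by_cases ht : t ∈ S
      · exact ⟨q1, h0 t, q1.le_refl, sysx_hd (hS t ht) l1, fun _ => rfl⟩
      · obtain ⟨q2, m, l2, d2⟩ := Cond.baire (FF t) (hF t) (hc t) q1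
        exact ⟨q2, m, l2, d2, fun h' => absurd h' ht⟩
    obtain ⟨q3, k0, l3, s3⟩ := d2 q2 q2.le_refl n
    refine ⟨q3, update h t m, update k t k0, l3.trans (l2.trans l1), fun u hu => ?_,
      fun u hu => ?_⟩
    · by_cases hut : u = t
      · subst hut
        rw [update_self, e2 hu]
      · rw [update_of_ne hut, e1 u hu]
    · by_cases hut : u = t
      · subst hut
        rw [update_self, update_self]
        exact ⟨sysx_hd d2 l3, s3⟩
      · rw [update_of_ne hut, update_of_ne hut]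
        obtain ⟨b1, b2⟩ := a1 u ((Finset.mem_insert.1 hu).resolve_left hut)
        exact ⟨sysx_hd b1 (l3.trans l2), (l3.trans l2).sub.trans b2⟩

/-- a state of the recursion -/
structure sysx_St {ι : Type} (FF : Option ι → ℕ → Set (Ph ι)) where
  q : Cond ι
  h : Option ι → ℕ
  k : Option ι → ℕ
  T : Finset (Option ι)
  n : ℕ
  ok : ∀ t ∈ T, q.Hd (FF t) (h t) ∧ q.K ⊆ FF t (lc (h t) n (k t))

/-- the bound is raised above `j` -/
def sysx_raise {ι : Type} (q : Cond ι) (j : ℕ) : Cond ι := ⟨q.a, q.p, q.d, max q.J (j + 1), q.fin⟩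

/-- the first condition -/
def sysx_start (ι : Type) : Cond ι := ⟨∅, fun _ _ => 0, 0, 1, by simp⟩

theorem sysx_raise_le {ι : Type} (q : Cond ι) (j : ℕ) : (sysx_raise q j).Le q :=
  ⟨subset_rfl, le_rfl, le_max_left _ _, fun _ _ _ _ => rfl, fun _ h h' => absurd h h'⟩

theorem sysx_tree {ι : Type} (FF : Option ι → ℕ → Set (Ph ι)) (hF : ∀ t l, IsClosed (FF t l))
    (hc : ∀ t p, ∃ m, ∀ n, ∃ k, p ∈ FF t (lc m n k)) :
    ∃ st : List ℕ → sysx_St FF, (st []).q.Le (sysx_start ι) ∧ (∀ l, (st l).n = l.length) ∧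
      (∀ l t, t ∈ (st l).T ↔ Tk (fun l => (st l).q.a) l t) ∧
      ∀ j l, (st (j :: l)).q.Le (sysx_raise (st l).q j) ∧
        ∀ t ∈ (st l).T, (st (j :: l)).h t = (st l).h t := by
  classical
  obtain ⟨s0, a0, b0, c0⟩ : ∃ s0 : sysx_St FF, s0.q.Le (sysx_start ι) ∧ s0.n = 0 ∧
      s0.T = {none} := by
    obtain ⟨q, h, k, l, -, a⟩ :=
      sysx_step FF hF hc {none} ∅ (fun _ => 0) 0 (sysx_start ι) (by simp)
    exact ⟨⟨q, h, k, {none}, 0, a⟩, l, rfl, rfl⟩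
  have nx : ∀ (j : ℕ) (s : sysx_St FF), ∃ s' : sysx_St FF, s'.q.Le (sysx_raise s.q j) ∧
      s'.n = s.n + 1 ∧ s'.T = insert none (s.q.a.image some) ∧ ∀ t ∈ s.T, s'.h t = s.h t := by
    intro j s
    obtain ⟨q, h, k, l, e, a⟩ := sysx_step FF hF hc (insert none (s.q.a.image some)) s.T s.h
      (s.n + 1) (sysx_raise s.q j) fun t ht => sysx_hd (s.ok t ht).1 (sysx_raise_le _ _)
    exact ⟨⟨q, h, k, _, _, a⟩, l, rfl, rfl, e⟩
  choose f f1 f2 f3 f4 using nx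
  refine ⟨fun l => l.foldr f s0, a0, fun l => ?_, fun l t => ?_,
    fun j l => ⟨f1 j _, f4 j _⟩⟩
  · induction l with
    | nil => exact b0
    | cons j l ih => exact (f2 j _).trans (congrArg (· + 1) ih)
  · cases l with
    | nil => cases t <;> simp [Tk, c0]
    | cons j l => cases t <;> simp [Tk, f3]

open Classical in
/-- the chosen points of a condition -/
noncomputable def sysx_pt {ι : Type} (q : Cond ι) (i : ℕ) (φ : ι → VV) : Ph ι := fun x =>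
  if x.1 ∈ q.a then (if x.2 ≤ q.d then q.p x else φ x.1)
  else if x.2 = 0 then fun _ => ((i + 1 : ℕ) : ℕ∞) else φ x.1

theorem sysx_pt_in {ι : Type} (q : Cond ι) (i : ℕ) (φ : ι → VV) {σ : ι} (h : σ ∈ q.a) {n : ℕ}
    (hn : n ≤ q.d) : sysx_pt q i φ (σ, n) = q.p (σ, n) := by
  simp [sysx_pt, h, hn]

theorem sysx_pt_out {ι : Type} (q : Cond ι) (i : ℕ) (φ : ι → VV) {σ : ι} (h : σ ∉ q.a) :
    jv (sysx_pt q i φ) σ = ((i + 1 : ℕ) : ℕ∞) := by
  simp [jv, sysx_pt, h]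

theorem sys_exists {ι : Type} (FF : Option ι → ℕ → Set (Ph ι)) (hF : ∀ t l, IsClosed (FF t l))
    (hc : ∀ t p, ∃ m, ∀ n, ∃ k, p ∈ FF t (lc m n k)) : Nonempty (Sys FF) := by
  obtain ⟨st, s0, sn, sT, sx⟩ := sysx_tree FF hF hc
  have le1 : ∀ j l, (st (j :: l)).q.Le (st l).q := fun j l =>
    (sx j l).1.trans (sysx_raise_le _ _)
  have le : ∀ l l', l <:+ l' → (st l').q.Le (st l).q := by
    intro l l' h
    induction l' with
    | nil =>
      rw [List.suffix_nil.1 h]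
      exact Cond.le_refl _
    | cons j l' ih =>
      rcases List.suffix_cons_iff.1 h with rfl | h
      · exact Cond.le_refl _
      · exact (le1 j l').trans (ih h)
  have T1 : ∀ j l t, t ∈ (st l).T → t ∈ (st (j :: l)).T := by
    intro j l t ht
    rw [sT] at ht ⊢
    cases t with
    | none => trivial
    | some σ => exact ⟨List.cons_ne_nil _ _, (le _ _ (List.tail_suffix l)).1 ht.2⟩
  have hh : ∀ l l' t, l <:+ l' → t ∈ (st l).T → t ∈ (st l').T ∧ (st l').h t = (st l).h t := by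
    intro l l' t h ht
    induction l' with
    | nil =>
      rw [List.suffix_nil.1 h] at ht ⊢
      exact ⟨ht, rfl⟩
    | cons j l' ih =>
      rcases List.suffix_cons_iff.1 h with rfl | h
      · exact ⟨ht, rfl⟩
      · exact ⟨T1 j l' t (ih h).1, ((sx j l').2 t (ih h).1).trans (ih h).2⟩
  have cj : ∀ l, ∀ σ ∈ (st l).q.a,
      (((jv (st l).q.p σ).toNat : ℕ) : ℕ∞) = jv (st l).q.p σ := fun l σ h =>
    ENat.natCast_toNat ((st l).q.fin σ h)
  let jj : List ℕ → ι → ℕ := fun l σ => (jv (st l).q.p σ).toNat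
  let lab : List ℕ → Option ι → ℕ := fun l t => lc ((st l).h t) (st l).n ((st l).k t)
  refine ⟨{
    a := fun l => (st l).q.a
    jj := jj
    lab := lab
    M := fun l => max (max (st l).q.d (st l).q.J)
      (max ((st l).q.a.sup (jj l)) ((st l).T.sup (lab l)))
    K := fun l => (st l).q.K
    pt := fun l => sysx_pt (st l).q
    mono := fun l l' σ h hσ => ⟨(le l l' h).1 hσ, ?_⟩
    kmono := fun l l' h => (le l l' h).sub
    jnew := fun k l l' σ h h1 h2 => ?_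
    jpos := fun l σ h => ⟨?_, ?_⟩
    lab1 := fun l t h => ⟨((st l).ok t ((sT l t).2 h)).2, (lv_lc _ _ _).trans (sn l), ?_⟩
    lab2 := fun l l' t h ht => ?_
    ptK := fun l i φ h => ⟨fun σ hσ n hn => sysx_pt_in _ _ _ hσ hn, fun σ hσ => ?_⟩
    ptx := fun l i φ σ h => ?_
    ptj := fun l i φ σ => ⟨fun h => ?_, fun h => sysx_pt_out _ _ _ h⟩
    ptdep := fun l i φ φ' σ n h => ?_ }⟩
  · exact congrArg (fun v : VV => (v (0, 0)).toNat) ((le l l' h).2.2.2.1 σ hσ 0 (Nat.zero_le _))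
  · have h3 := ((le _ _ h).trans (sx k l).1).2.2.2.2 σ h1 h2
    rw [← cj l' σ h1, Nat.cast_le] at h3
    exact (le_max_right _ _).trans h3
  · have h3 := ((le _ _ List.nil_suffix).trans s0).2.2.2.2 σ h (Finset.notMem_empty σ)
    rw [← cj l σ h, Nat.cast_le] at h3
    exact h3
  · exact le_max_of_le_right (le_max_of_le_left (Finset.le_sup h))
  · exact le_max_of_le_right (le_max_of_le_right (Finset.le_sup ((sT l t).2 h)))
  · simp only [lab, hd_lc]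
    exact (hh l l' t h ((sT l t).2 ht)).2
  · rw [sysx_pt_out _ _ _ hσ, Nat.cast_le]
    exact ((le_max_of_le_left (le_max_right _ _)).trans h).trans (Nat.le_succ i)
  · have h1 : ¬ i + 1 ≤ (st l).q.d :=
      Nat.not_le.2 (Nat.lt_succ_of_le ((le_max_of_le_left (le_max_left _ _)).trans h))
    simp [sysx_pt, h1]
  · rw [cj l σ h]
    exact congrFun (sysx_pt_in _ _ _ h (Nat.zero_le _)) (0, 0)
  · simp only [sysx_pt, h]

end Pool.Agent.MP_2e2931_gt.Z3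

end

section

open Set Topology Filter Cardinal Function

namespace Pool.Agent.MP_2e2931_gt.Z3

theorem oms_enum {γ : Om} (h : ⊥ < γ) : ∃ η : ℕ → Om, Iio γ = range η :=
  ((om_cnt γ).mono Iio_subset_Iic_self).exists_eq_range ⟨⊥, h⟩

theorem s_co {A : Set Om} (hA : ¬ A.Countable) : ∃ γ, γ ∉ SS ∧ ∃ ξ δ : ℕ → Om,
    (∀ i, δ i ∈ A ∧ ξ i < δ i ∧ δ i ≤ ξ (i + 1) ∧ δ i < γ) ∧ ∀ η < γ, ∃ i, η ≤ ξ i := by
  have h1 : ∀ x : Om, ∃ y ∈ A, x < y := fun x => by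
    by_contra h
    push Not at h
    exact hA ((om_cnt x).mono h)
  choose β hβ1 hβ2 using h1
  obtain ⟨γ, hγ, h0, hcl⟩ := stat.2 β ⊥
  obtain ⟨η, hη⟩ := oms_enum h0
  have hlt : ∀ i, η i < γ := fun i => (hη ▸ mem_range_self i : η i ∈ Iio γ)
  let ξ : ℕ → Om := fun n => Nat.rec (η 0) (fun i x => max (β x) (η (i + 1))) n
  have h2 : ∀ i, ξ i < γ := fun i => by
    induction i with
    | zero => exact hlt 0
    | succ i ih => exact max_lt (hcl _ ih) (hlt _)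
  refine ⟨γ, hγ, ξ, fun i => β (ξ i), fun i => ⟨hβ1 _, hβ2 _, le_max_left _ _, hcl _ (h2 i)⟩,
    fun x hx => ?_⟩
  obtain ⟨i, rfl⟩ : x ∈ range η := hη ▸ hx
  cases i with
  | zero => exact ⟨0, le_rfl⟩
  | succ i => exact ⟨i + 1, le_max_right _ _⟩

theorem s_seq {ι : Type} (Pr : ℕ → Om → Finset ι → Prop)
    (h : ∀ i η u, ∃ ξ r, η < ξ ∧ Disjoint r u ∧ Pr i ξ r) :
    ∃ δ ∈ SS, ∃ (ξ : ℕ → Om) (r : ℕ → Finset ι), (∀ i, Pr i (ξ i) (r i) ∧ ξ i < δ) ∧
      (∀ η < δ, {i | ξ i ≤ η}.Finite) ∧ ∀ i j, i ≠ j → Disjoint (r i) (r j) := by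
  classical
  choose f g h1 h2 h3 using h
  let U : List Om → Finset ι := fun l => List.rec ∅ (fun η l u => u ∪ g l.length η u) l
  let col : List Om → Om := fun l => List.casesOn l ⊥ fun η l => f l.length η (U l)
  have h4 : ∀ x : Om, ∃ b, ∀ l : List Om, (∀ y ∈ l, y ∈ Iic x) → col l < b := fun x => by
    have := (om_cnt x).to_subtype
    obtain ⟨b, hb⟩ := om_bdd (countable_range fun l : List (Iic x) => col (l.map Subtype.val))
    refine ⟨b, fun l hl => ?_⟩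
    lift l to List (Iic x) using hl
    exact hb _ (mem_range_self l)
  choose β hβ using h4
  obtain ⟨δ, hδ, h0, hcl⟩ := stat.1 β ⊥
  obtain ⟨η, hη⟩ := oms_enum h0
  have hlt : ∀ i, η i < δ := fun i => (hη ▸ mem_range_self i : η i ∈ Iio δ)
  let e : ℕ → Om := fun n => Nat.rec (η 0) (fun i x => max x (η (i + 1))) n
  have he1 : ∀ i, e i < δ := fun i => by
    induction i with
    | zero => exact hlt 0
    | succ i ih => exact max_lt ih (hlt _)
  have he2 : Monotone e := monotone_nat_of_le_succ fun i => le_max_left _ _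
  have he3 : ∀ i, η i ≤ e i := fun i => by
    cases i with
    | zero => exact le_rfl
    | succ i => exact le_max_right _ _
  let L : ℕ → List Om := fun n => Nat.rec [] (fun i l => e i :: l) n
  have hL1 : ∀ i, (L i).length = i := fun i => by
    induction i with
    | zero => rfl
    | succ i ih => exact congrArg (· + 1) ih
  have hL2 : ∀ i, ∀ y ∈ L i, y ≤ e i := fun i => by
    induction i with
    | zero => exact fun y hy => absurd hy List.not_mem_nil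
    | succ i ih =>
      intro y hy
      rcases List.mem_cons.1 hy with rfl | hy
      · exact he2 (Nat.le_succ i)
      · exact (ih y hy).trans (he2 (Nat.le_succ i))
  have hU : ∀ i, U (L (i + 1)) = U (L i) ∪ g i (e i) (U (L i)) := fun i => by
    conv_rhs => enter [2, 1]; rw [← hL1 i]
  have hm : Monotone fun i => U (L i) := monotone_nat_of_le_succ fun i => by
    rw [hU]
    exact Finset.subset_union_left
  have hd : ∀ i j, j < i → Disjoint (g i (e i) (U (L i))) (g j (e j) (U (L j))) := fun i j hj =>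
    (h2 i _ _).mono_right ((hU j ▸ Finset.subset_union_right : _ ⊆ U (L (j + 1))).trans (hm hj))
  refine ⟨δ, hδ, fun i => f i (e i) (U (L i)), fun i => g i (e i) (U (L i)),
    fun i => ⟨h3 _ _ _, ?_⟩, fun x hx => ?_, fun i j hij => ?_⟩
  · have h5 := hβ (e i) (L (i + 1)) fun y hy => by
      rcases List.mem_cons.1 hy with rfl | hy
      · exact mem_Iic.2 le_rfl
      · exact hL2 i y hy
    have h6 : col (L (i + 1)) = f (L i).length (e i) (U (L i)) := rfl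
    rw [h6, hL1] at h5
    exact h5.trans (hcl _ (he1 i))
  · obtain ⟨n, rfl⟩ : x ∈ range η := hη ▸ hx
    refine (finite_lt_nat n).subset fun i hi => (lt_of_not_ge fun hn => ?_ : i < n)
    exact (((he3 n).trans (he2 hn)).trans_lt (h1 i _ _)).not_ge hi
  · rcases lt_or_gt_of_ne hij with h5 | h5
    · exact (hd j i h5).symm
    · exact hd i j h5

end Pool.Agent.MP_2e2931_gt.Z3

end

section

open Set Topology Filter Cardinal Function

namespace Pool.Agent.MP_2e2931_gt.Z3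

variable {Y : Type} [TopologicalSpace Y] [CompactSpace Y] [T2Space Y] (fr : Frame Y)

theorem Frame.finmod {z : Y} (hz : z ∉ fr.R) {S : Set XP} {D0 : Set DD} (hD : D0.Finite)
    (h : z ∈ closure (fr.ι '' S)) : z ∈ closure (fr.ι '' {x | x ∈ S ∧ x.1 ∉ D0}) := by
  have hK : IsClosed (⋃ y ∈ D0, range fun p : PP => fr.ι (y, p)) :=
    (hD.isCompact_biUnion fun y _ => isCompact_range (fr.cont y)).isClosed
  have hsub : fr.ι '' S ⊆
      fr.ι '' {x | x ∈ S ∧ x.1 ∉ D0} ∪ ⋃ y ∈ D0, range fun p : PP => fr.ι (y, p) := by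
    rintro _ ⟨x, hx, rfl⟩
    by_cases h1 : x.1 ∈ D0
    · exact Or.inr (mem_biUnion h1 ⟨x.2, rfl⟩)
    · exact Or.inl ⟨x, ⟨hx, h1⟩, rfl⟩
  have h2 := closure_mono hsub h
  rw [closure_union, hK.closure_eq] at h2
  rcases h2 with h2 | h2
  · exact h2
  · obtain ⟨y, -, p, hp⟩ := mem_iUnion₂.1 h2
    exact (hz (Or.inr ⟨(y, p), hp⟩)).elim

theorem Frame.loc {C : Set Y} (hC : IsClosed C) (hd : Disjoint C fr.R) :
    ∃ T : Finset EE, ∀ z ∈ C, ∀ S : Set XP, z ∈ closure (fr.ι '' S) →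
      ∃ E ∈ T, z ∈ closure (fr.ι '' (S ∩ tube E)) := by
  have hCP : C ⊆ fr.Pᶜ := fun z hz hP => Set.disjoint_left.1 hd hz (Or.inl hP)
  obtain ⟨U, hU, hCU, hUP⟩ := normal_exists_closure_subset hC fr.cP.isOpen_compl hCP
  obtain ⟨T, D0, hT⟩ := fr.cov (closure U) isClosed_closure
    (Set.disjoint_left.2 fun z hz hP => hUP hz hP)
  refine ⟨T, fun z hz S hS => ?_⟩
  have hzR : z ∉ fr.R := Set.disjoint_left.1 hd hz
  have h1 : z ∈ closure (fr.ι '' (S ∩ fr.ι ⁻¹' U)) := by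
    rw [image_inter_preimage, inter_comm]
    exact hU.inter_closure ⟨hCU hz, hS⟩
  have h2 := fr.finmod hzR D0.finite_toSet h1
  have hsub : fr.ι '' {x | x ∈ S ∩ fr.ι ⁻¹' U ∧ x.1 ∉ (D0 : Set DD)} ⊆
      ⋃ E ∈ T, fr.ι '' (S ∩ tube E) := by
    rintro _ ⟨x, ⟨⟨hx, hxU⟩, hxD⟩, rfl⟩
    rcases hT x (subset_closure hxU) with ⟨E, hE, hxE⟩ | h
    · exact mem_biUnion hE ⟨x, ⟨hx, hxE⟩, rfl⟩
    · exact (hxD h).elim
  have h3 := closure_mono hsub h2
  rw [Finset.closure_biUnion] at h3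
  obtain ⟨E, hE, h4⟩ := mem_iUnion₂.1 h3
  exact ⟨E, hE, h4⟩

theorem loc_ult {z : Y} (hz : z ∉ fr.R) (E : EE) (G : Set XP)
    (h : z ∈ closure (fr.ι '' (G ∩ tube E))) : ∃ u : Ultrafilter (ℕ × PP),
      {t | t.1 ∈ E.1.I ∧ (E.1.y t.1, t.2) ∈ G} ∈ u ∧
        Tendsto Prod.fst (u : Filter (ℕ × PP)) atTop ∧
        Tendsto (fun t : ℕ × PP => fr.ι (E.1.y t.1, t.2)) (u : Filter (ℕ × PP)) (𝓝 z) := by
  set g : ℕ × PP → Y := fun t => fr.ι (E.1.y t.1, t.2) with hg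
  set S : Set (ℕ × PP) := {t | t.1 ∈ E.1.I ∧ (E.1.y t.1, t.2) ∈ G} with hS
  have h1 : z ∈ closure (g '' S) := by
    refine closure_mono ?_ h
    rintro _ ⟨x, ⟨hx, i, hi, hxi⟩, rfl⟩
    obtain ⟨y, p⟩ := x
    obtain rfl : y = E.1.y i := hxi
    exact ⟨(i, p), ⟨hi, hx⟩, rfl⟩
  have hne : (comap g (𝓝 z) ⊓ 𝓟 S).NeBot := by
    rw [inf_principal_neBot_iff]
    intro V hV
    obtain ⟨W, hW, hWV⟩ := mem_comap.1 hV
    obtain ⟨_, hw, t, ht, rfl⟩ := mem_closure_iff_nhds.1 h1 W hW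
    exact ⟨t, hWV hw, ht⟩
  obtain ⟨u, hu⟩ := Ultrafilter.exists_le (comap g (𝓝 z) ⊓ 𝓟 S)
  have hz' : Tendsto g (u : Filter (ℕ × PP)) (𝓝 z) := tendsto_iff_comap.2 (hu.trans inf_le_left)
  refine ⟨u, le_principal_iff.1 (hu.trans inf_le_right), ?_, hz'⟩
  refine tendsto_atTop.2 fun m => ?_
  by_contra hm
  have hm' : ∀ᶠ t in (u : Filter (ℕ × PP)), ¬m ≤ t.1 := Ultrafilter.eventually_not.2 hm
  have h2 : z ∈ closure (fr.ι '' {x | x.1 ∈ E.1.y '' Iio m}) :=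
    mem_closure_of_tendsto hz' (hm'.mono fun t ht =>
      ⟨(E.1.y t.1, t.2), ⟨t.1, not_le.1 ht, rfl⟩, rfl⟩)
  have h3 := fr.finmod hz ((finite_Iio m).image E.1.y) h2
  have h4 : {x : XP | x ∈ {x : XP | x.1 ∈ E.1.y '' Iio m} ∧ x.1 ∉ E.1.y '' Iio m} = ∅ :=
    eq_empty_of_forall_notMem fun x hx => hx.2 hx.1
  rw [h4, image_empty, closure_empty] at h3
  exact h3

theorem Frame.ext_ult {z : Y} (hz : z ∉ fr.R) (G : ℕ → Set XP)
    (h : ∀ n, z ∈ closure (fr.ι '' G n)) : ∃ E : EE, ∀ n, ∃ n' ≥ n, ∃ u : Ultrafilter (ℕ × PP),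
      {t | t.1 ∈ E.1.I ∧ (E.1.y t.1, t.2) ∈ G n'} ∈ u ∧
        Tendsto Prod.fst (u : Filter (ℕ × PP)) atTop ∧
        Tendsto (fun t : ℕ × PP => fr.ι (E.1.y t.1, t.2)) (u : Filter (ℕ × PP)) (𝓝 z) := by
  obtain ⟨T, hT⟩ := fr.loc (isClosed_singleton (x := z)) (disjoint_singleton_left.2 hz)
  have h1 : ∃ᶠ n in atTop, ∃ E ∈ T, z ∈ closure (fr.ι '' (G n ∩ tube E)) :=
    Frequently.of_forall fun n => hT z rfl (G n) (h n)
  obtain ⟨E, -, hE⟩ := (T.frequently_exists).1 h1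
  refine ⟨E, fun n => ?_⟩
  obtain ⟨n', hn', h2⟩ := frequently_atTop.1 hE n
  exact ⟨n', hn', loc_ult fr hz E (G n') h2⟩

theorem Frame.tail (E : EE) {z : Y}
    (h : ∀ n, z ∈ closure (fr.ι '' un E {i | n ≤ i})) : z ∉ fr.R := by
  rintro (hP | ⟨x, rfl⟩)
  · refine Set.disjoint_left.1 (fr.ptube E) hP (closure_mono (image_mono ?_) (h 0))
    rintro x ⟨i, hi, -, hx⟩
    exact ⟨i, hi, hx⟩
  · have hinj : Injective E.1.y := (fam.good E.1 E.2).inj
    have h1 := fr.sep (fib x.1) (inB_fib x.1) (fr.ι x) (Or.inr ⟨x, rfl⟩)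
      (subset_closure ⟨x, rfl, rfl⟩)
    obtain ⟨n, hn⟩ : ∃ n, ∀ i, n ≤ i → E.1.y i ≠ x.1 := by
      by_cases h2 : ∃ i, E.1.y i = x.1
      · obtain ⟨i0, hi0⟩ := h2
        refine ⟨i0 + 1, fun i hi he => ?_⟩
        have := hinj (he.trans hi0.symm)
        omega
      · exact ⟨0, fun i _ he => h2 ⟨i, he⟩⟩
    refine h1 (closure_mono (image_mono ?_) (h n))
    rintro x' ⟨i, -, hi, hx'⟩ hf
    exact hn i hi (hx'.symm.trans hf)

end Pool.Agent.MP_2e2931_gt.Z3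

end

section

open Set Topology Filter Cardinal Function

namespace Pool.Agent.MP_2e2931_gt.Z3

theorem udata_td : TotallyDisconnectedSpace ℕ∞ := by
  have : TotallySeparatedSpace ℕ∞ := by
    rw [totallySeparatedSpace_iff_exists_isClopen]
    intro a b hab
    by_cases ha : a = ⊤
    · have hb : b ≠ ⊤ := fun hb => hab (ha.trans hb.symm)
      have hc : IsClopen ({b} : Set ℕ∞) := ⟨isClosed_singleton, ENat.isOpen_singleton hb⟩
      exact ⟨{b}ᶜ, hc.compl, hab, by simp⟩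
    · exact ⟨{a}, ⟨isClosed_singleton, ENat.isOpen_singleton ha⟩, rfl, fun h => hab (Eq.symm h)⟩
  infer_instance

/-- separation of a closed set from finitely many closed sets -/
theorem udata_sep {Y : Type} [TopologicalSpace Y] [NormalSpace Y] {K : Set Y} (hK : IsClosed K)
    {F : ℕ → Set Y} (hF : ∀ l, IsClosed (F l)) (L : Finset ℕ) :
    ∃ O O' : ℕ → Set Y, (∀ l, IsOpen (O l)) ∧ (∀ l, IsOpen (O' l)) ∧ (∀ l, F l ⊆ O' l) ∧
      (∀ l, Disjoint (closure (O l)) (closure (O' l))) ∧ (∀ l x, x ∈ O l → l ∈ L) ∧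
      ((∀ z ∈ K, ∃ l ∈ L, z ∉ F l) → K ⊆ ⋃ l, O l) := by
  by_cases h : ∀ z ∈ K, ∃ l ∈ L, z ∉ F l
  · obtain ⟨O, h1, h2, h3⟩ := exists_subset_iUnion_closure_subset
      (u := fun l => {x | l ∈ L ∧ x ∉ F l}) hK
      (fun l => by
        by_cases hl : l ∈ L
        · have : {x | l ∈ L ∧ x ∉ F l} = (F l)ᶜ := by ext; simp [hl]
          rw [this]
          exact (hF l).isOpen_compl
        · simp [hl])
      (fun x _ => L.finite_toSet.subset fun l hl => hl.1)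
      (fun z hz => by
        obtain ⟨l, hl, hz⟩ := h z hz
        exact mem_iUnion.2 ⟨l, hl, hz⟩)
    have : ∀ l, ∃ U, IsOpen U ∧ F l ⊆ U ∧ closure U ⊆ (closure (O l))ᶜ := fun l =>
      normal_exists_closure_subset (hF l) isClosed_closure.isOpen_compl
        fun x hx hx' => (h3 l hx').2 hx
    choose O' h4 h5 h6 using this
    exact ⟨O, O', h2, h4, h5, fun l => Set.disjoint_left.2 fun x hx hx' => h6 l hx' hx,
      fun l x hx => (h3 l (subset_closure hx)).1, fun _ => h1⟩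
  · exact ⟨fun _ => ∅, fun _ => univ, fun _ => isOpen_empty, fun _ => isOpen_univ,
      fun _ => subset_univ _, fun _ => by simp, fun _ _ hx => hx.elim, fun h' => (h h').elim⟩

/-- clopen refinement of a finite open cover -/
theorem udata_ref {X : Type} [TopologicalSpace X] [CompactSpace X] [T2Space X]
    [TotallyDisconnectedSpace X] {U : ℕ → Set X} (hU : ∀ l, IsOpen (U l)) (L : Finset ℕ)
    (hL : ∀ l x, x ∈ U l → l ∈ L) :
    ∃ C : ℕ → Set X, (∀ l, IsClopen (C l)) ∧ (∀ l, C l ⊆ U l) ∧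
      ((∀ x, ∃ l, x ∈ U l) → ∀ x, ∃ l, x ∈ C l) := by
  by_cases h : ∀ x, ∃ l, x ∈ U l
  · obtain ⟨V, h1, h2, h3⟩ := exists_subset_iUnion_closed_subset (u := U) isClosed_univ hU
      (fun x _ => L.finite_toSet.subset fun l hl => hL l x hl)
      (fun z _ => mem_iUnion.2 (h z))
    choose C h4 h5 h6 using fun l => exists_clopen_of_closed_subset_open (h2 l) (hU l) (h3 l)
    refine ⟨C, h4, h6, fun _ x => ?_⟩
    obtain ⟨l, hl⟩ := mem_iUnion.1 (h1 (mem_univ x))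
    exact ⟨l, h5 l hl⟩
  · exact ⟨fun _ => ∅, fun _ => isClopen_empty, fun _ => empty_subset _, fun h' => (h h').elim⟩

variable {Y : Type} [TopologicalSpace Y] [CompactSpace Y] [T2Space Y] (fr : Frame Y)

theorem Frame.data (h : FB Y 3 fr.R) : ∃ σ, ∀ E u u', (rd σ).perp E u u' →
    Disjoint (closure (fr.ι '' tA E fun i => (rd σ).A E i u))
      (closure (fr.ι '' tA E fun i => (rd σ).A E i u')) := by
  classical
  have := udata_td
  obtain ⟨F, hF, hcov, hlow⟩ := fb3_nf h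
  let V : EE → ℕ → Set Y := fun E n => closure (fr.ι '' un E {i | n ≤ i})
  have hK : ∀ E, IsClosed (⋂ n, V E n) := fun E => isClosed_iInter fun _ => isClosed_closure
  choose O O' hO hO' hFO hdis hOL hKO using fun (E : EE) (L : Finset ℕ) => udata_sep (hK E) hF L
  choose C hC hCO hCcov using fun (E : EE) (L : Finset ℕ) (i : ℕ) =>
    udata_ref (U := fun l => (fun p => fr.ι (E.1.y i, p)) ⁻¹' O E L l)
      (fun l => (hO E L l).preimage (fr.cont _)) L fun l x hx => hOL E L l _ hx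
  choose C' hC' hFC' hCO' using fun (E : EE) (L : Finset ℕ) (i l : ℕ) =>
    exists_clopen_of_closed_subset_open ((hF l).preimage (fr.cont (E.1.y i)))
      ((hO' E L l).preimage (fr.cont (E.1.y i))) (preimage_mono (hFO E L l))
  obtain ⟨cd, hcd⟩ := exists_surjective_nat (Finset ℕ × ℕ × Bool)
  choose sec hsec using hcd
  let A : EE → ℕ → ℕ → Set PP := fun E i u =>
    if (cd u).2.2 = true then C' E (cd u).1 i (cd u).2.1 else C E (cd u).1 i (cd u).2.1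
  have hA1 : ∀ E i L l, A E i (sec (L, l, true)) = C' E L i l := fun E i L l => by
    simp [A, hsec]
  have hA0 : ∀ E i L l, A E i (sec (L, l, false)) = C E L i l := fun E i L l => by
    simp [A, hsec]
  let r : RD Sg := ⟨fun y l => (fun p => fr.ι (y, p)) ⁻¹' F l, A, fun E u u' =>
    Disjoint (closure (fr.ι '' tA E fun i => A E i u)) (closure (fr.ι '' tA E fun i => A E i u'))⟩
  have hr : r.Valid := by
    refine ⟨fun y l => (hF l).preimage (fr.cont y), fun y p => hcov _ (Or.inr ⟨_, rfl⟩),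
      fun E i u => ?_, fun E m s hs => ?_⟩
    · change IsClopen (A E i u)
      simp only [A]
      split_ifs
      · exact hC' _ _ _ _
      · exact hC _ _ _ _
    · obtain ⟨T, hT⟩ := (hK E).isCompact.elim_finite_subcover (fun t => (F (s t))ᶜ)
        (fun t => (hF _).isOpen_compl) fun z hz =>
          mem_iUnion.2 (hlow z (fr.tail E (mem_iInter.1 hz)) m s hs)
      set L := T.image s with hL
      have h1 : (⋂ n, V E n) ⊆ ⋃ l, O E L l := hKO E L fun z hz => by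
        obtain ⟨t, ht, hz⟩ := mem_iUnion₂.1 (hT hz)
        exact ⟨s t, Finset.mem_image_of_mem _ ht, hz⟩
      have hanti : Antitone (V E) := fun a b hab => closure_mono (image_mono fun x hx => by
        obtain ⟨i, hi, hi', hx⟩ := hx
        exact ⟨i, hi, le_trans hab hi', hx⟩)
      obtain ⟨n, hn⟩ := exists_subset_nhds_of_compactSpace (V := V E) (U := ⋃ l, O E L l)
        (directed_of_isDirected_le hanti) (fun _ => isClosed_closure)
        fun x hx => (isOpen_iUnion (hO E L)).mem_nhds (h1 hx)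
      refine ⟨T.image fun t => (t, sec (L, s t, false), sec (L, s t, true)), fun q hq => ?_, ?_⟩
      · obtain ⟨t, -, rfl⟩ := Finset.mem_image.1 hq
        refine ⟨?_, fun i => ?_⟩
        · refine (hdis E L (s t)).mono (closure_mono ?_) (closure_mono ?_)
          · rintro _ ⟨⟨y, p⟩, ⟨i, -, hy, hp⟩, rfl⟩
            change p ∈ A E i (sec (L, s t, false)) at hp
            rw [hA0] at hp
            obtain rfl : y = E.1.y i := hy
            exact hCO E L i _ hp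
          · rintro _ ⟨⟨y, p⟩, ⟨i, -, hy, hp⟩, rfl⟩
            change p ∈ A E i (sec (L, s t, true)) at hp
            rw [hA1] at hp
            obtain rfl : y = E.1.y i := hy
            exact hCO' E L i _ hp
        · change _ ⊆ A E i _
          rw [hA1]
          exact hFC' E L i _
      · filter_upwards [eventually_ge_atTop n] with i hi hI p
        obtain ⟨l, hl⟩ := hCcov E L i (fun x => (mem_iUnion (s := O E L)).1
          (hn (subset_closure ⟨(E.1.y i, x), ⟨i, hI, hi, rfl⟩, rfl⟩))) p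
        obtain ⟨t, ht, rfl⟩ := Finset.mem_image.1 (hOL E L l _ (hCO E L i l hl))
        refine ⟨_, Finset.mem_image_of_mem _ ht, ?_⟩
        change p ∈ A E i _
        rw [hA0]
        exact hl
  obtain ⟨σ, h1, h2⟩ := rd_real r hr
  refine ⟨σ, fun E u u' hp => ?_⟩
  rw [h2] at hp
  rw [h1]
  exact hp

end Pool.Agent.MP_2e2931_gt.Z3

end

section

open Set Topology Filter Cardinal Function

namespace Pool.Agent.MP_2e2931_gt.Z3

variable {Y : Type} [TopologicalSpace Y] [CompactSpace Y] [T2Space Y] (fr : Frame Y)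

theorem ubad_ev {A : Set ℕ} (h : A.Finite) : ∀ᶠ i in atTop, i ∉ A := by
  rw [← Nat.cofinite_eq_atTop]
  exact h.eventually_cofinite_notMem

theorem ubad_ad {E E' : EE} (h : E ≠ E') : (range E.1.y ∩ range E'.1.y).Finite :=
  fam.ad E.1 E.2 E'.1 E'.2 fun e => h (Subtype.ext e)

theorem Frame.bad (σ : Sg) : {δ | ∃ (E : EE) (a : ℕ × ℕ) (v : ℕ) (z : Y), E.1.δ = δ ∧ z ∉ fr.R ∧
    z ∈ closure (fr.ι '' tc E σ a v) ∧
      z ∈ closure (fr.ι '' (tube E \ tc E σ a v))}.Countable := by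
  by_contra hA
  obtain ⟨γ, hγ, ξ, δ, hδ, hcof⟩ := s_co hA
  choose E a v z hEδ hzR hz1 hz2 using fun n => (hδ n).1
  have hξ : StrictMono ξ :=
    strictMono_nat_of_lt_succ fun n => (hδ n).2.1.trans_le (hδ n).2.2.1
  have hδm : StrictMono δ :=
    strictMono_nat_of_lt_succ fun n => (hδ n).2.2.1.trans_lt (hδ (n + 1)).2.1
  have hg : ∀ E' : EE, E'.1.Good := fun E' => fam.good E'.1 E'.2
  set T : ℕ → Set DD := fun n => {y | y ∈ range (E n).1.y ∧ ξ n < y.1} with hTdef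
  have hTlt : ∀ n, ∀ y ∈ T n, ξ n < y.1 ∧ y.1 < δ n := by
    rintro n y ⟨⟨i, rfl⟩, h⟩
    exact ⟨h, hEδ n ▸ (hg (E n)).col i⟩
  have hfin : ∀ n, {i | ((E n).1.y i).1 ≤ ξ n}.Finite := fun n =>
    (hg (E n)).fin _ (by rw [hEδ n]; exact (hδ n).2.1)
  have hT : ∀ n m, n ≠ m → Disjoint (T n) (T m) := by
    have key : ∀ n m, n < m → Disjoint (T n) (T m) := by
      intro n m h
      refine Set.disjoint_left.2 fun y hn hm => ?_
      have h1 := (hTlt n y hn).2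
      have h2 := (hTlt m y hm).1
      have h3 : ξ (n + 1) ≤ ξ m := hξ.monotone h
      exact lt_irrefl _ (((h1.trans_le (hδ n).2.2.1).trans_le h3).trans h2)
    intro n m h
    rcases lt_or_gt_of_ne h with h | h
    · exact key n m h
    · exact (key m n h).symm
  have hE : ∀ E' : EE, (∃ n, ∀ᶠ i in atTop, i ∈ E'.1.I → E'.1.y i ∈ T n) ∨
      ∀ᶠ i in atTop, ∀ n, E'.1.y i ∉ T n := by
    intro E'
    by_cases hex : ∃ n, E' = E n
    · obtain ⟨n, rfl⟩ := hex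
      refine Or.inl ⟨n, (ubad_ev (hfin n)).mono fun i hi _ => ⟨⟨i, rfl⟩, not_le.1 hi⟩⟩
    · right
      push Not at hex
      have hne : E'.1.δ ≠ γ := fun e => hγ (e ▸ (hg E').mem)
      rcases lt_or_gt_of_ne hne with h | h
      · obtain ⟨n0, hn0⟩ := hcof _ h
        have h1 : ∀ᶠ i in atTop, ∀ n ∈ Finset.range n0, E'.1.y i ∉ range (E n).1.y := by
          rw [eventually_all_finset]
          intro n _
          refine (ubad_ev ((ubad_ad (hex n)).preimage (hg E').inj.injOn)).mono fun i hi h2 => ?_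
          exact hi ⟨⟨i, rfl⟩, h2⟩
        refine h1.mono fun i hi n hn => ?_
        rcases lt_or_ge n n0 with h2 | h2
        · exact hi n (Finset.mem_range.2 h2) hn.1
        · exact lt_irrefl _ ((((hg E').col i).trans_le (hn0.trans (hξ.monotone h2))).trans hn.2)
      · refine (ubad_ev ((hg E').fin γ h)).mono fun i hi n hn => hi ?_
        exact ((hTlt n _ hn).2.trans (hδ n).2.2.2).le
  set B : Set XP := {x | ∃ n, x.1 ∈ T n ∧ x ∈ tc (E n) σ (a n) (v n)} with hBdef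
  have hB : InB B := inB_glue T _ (fun n => inB_tc _ _ _ _) hT hE
  have hd : Disjoint (closure (fr.ι '' B) ∩ closure (fr.ι '' Bᶜ)) fr.R :=
    Set.disjoint_left.2 fun w hw hR => fr.sep B hB w hR hw.1 hw.2
  obtain ⟨T0, hT0⟩ := fr.loc (isClosed_closure.inter isClosed_closure) hd
  have hmem : ∀ n (x : XP), x ∈ tube (E n) →
      x.1 ∉ (E n).1.y '' {i | ((E n).1.y i).1 ≤ ξ n} → x.1 ∈ T n := by
    rintro n x ⟨i, -, hi⟩ hx
    refine ⟨⟨i, hi.symm⟩, not_le.1 fun h => hx ⟨i, ?_, hi.symm⟩⟩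
    show ((E n).1.y i).1 ≤ ξ n
    rw [← hi]
    exact h
  have htc : ∀ n, tc (E n) σ (a n) (v n) ⊆ tube (E n) := by
    rintro n x ⟨i, h1, h2, -⟩
    exact ⟨i, h1, h2⟩
  have hall : ∀ n, E n ∈ (T0 : Set EE) := by
    intro n
    have hC : z n ∈ closure (fr.ι '' B) ∩ closure (fr.ι '' Bᶜ) := by
      constructor
      · refine closure_mono (image_mono ?_) (fr.finmod (hzR n) ((hfin n).image (E n).1.y) (hz1 n))
        rintro x ⟨h1, h2⟩
        exact ⟨n, hmem n x (htc n h1) h2, h1⟩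
      · refine closure_mono (image_mono ?_) (fr.finmod (hzR n) ((hfin n).image (E n).1.y) (hz2 n))
        rintro x ⟨h1, h2⟩ ⟨m, h3, h4⟩
        by_cases hm : n = m
        · subst hm
          exact h1.2 h4
        · exact Set.disjoint_left.1 (hT n m hm) (hmem n x h1.1 h2) h3
    obtain ⟨E', hE', hz⟩ := hT0 _ hC _ (closure_mono (image_mono (htc n)) (hz1 n))
    by_cases he : E n = E'
    · rw [he]
      exact hE'
    · exfalso
      have h := fr.finmod (hzR n) (ubad_ad he) hz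
      obtain ⟨_, x, ⟨⟨⟨i, -, hi⟩, ⟨j, -, hj⟩⟩, hx⟩, -⟩ := closure_nonempty_iff.1 ⟨_, h⟩
      exact hx ⟨⟨i, hi.symm⟩, ⟨j, hj.symm⟩⟩
  have hinj : Injective E := fun n m h => hδm.injective (by rw [← hEδ n, ← hEδ m, h])
  exact Set.infinite_of_injective_forall_mem hinj hall T0.finite_toSet

end Pool.Agent.MP_2e2931_gt.Z3

end

section

open Set Topology Filter Cardinal Function

namespace Pool.Agent.MP_2e2931_gt.Z3

theorem cpts_Th (u : Ultrafilter XP) (B : {B // InB B}) : Th u B = true ↔ B.1 ∈ u := by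
  simp [Th]

theorem cpts_eX (x : XP) (B : {B // InB B}) : (eX x).1 B = true ↔ x ∈ B.1 := by
  change Th (pure x) B = true ↔ _
  rw [cpts_Th, Ultrafilter.mem_pure]

theorem cpts_lim (E : EE) (p : ℕ → PP) (φ : Sg → VV) (Y : Set ℕ) (hY : Y ⊆ E.1.I)
    (ht : Tendsto (fun i => hh E i (p i)) (atTop ⊓ 𝓟 Y) (𝓝 φ)) :
    ∃ z : {B // InB B} → Bool, ∀ B, ∀ᶠ i in atTop ⊓ 𝓟 Y, (eX (E.1.y i, p i)).1 B = z B := by
  classical
  have h : ∀ B : {B // InB B}, ∃ b : Bool,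
      ∀ᶠ i in atTop ⊓ 𝓟 Y, (eX (E.1.y i, p i)).1 B = b := by
    intro B
    obtain ⟨C, hC, hev⟩ := B.2.2 E
    have h1 : ∀ᶠ i in atTop ⊓ 𝓟 Y, ((E.1.y i, p i) ∈ B.1 ↔ hh E i (p i) ∈ C) := by
      filter_upwards [hev.filter_mono inf_le_left,
        (mem_inf_of_right (mem_principal_self Y) : Y ∈ atTop ⊓ 𝓟 Y)] with i hi hiY
      exact hi (hY hiY) (p i)
    by_cases hφ : φ ∈ C
    · refine ⟨true, ?_⟩
      filter_upwards [h1, ht.eventually (hC.isOpen.mem_nhds hφ)] with i hi hi'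
      exact (cpts_eX _ _).2 (hi.2 hi')
    · refine ⟨false, ?_⟩
      filter_upwards [h1, ht.eventually (hC.isClosed.isOpen_compl.mem_nhds hφ)] with i hi hi'
      rw [← Bool.not_eq_true, cpts_eX]
      exact fun h => hi' (hi.1 h)
  choose z hz using h
  exact ⟨z, hz⟩

theorem ck : ∃ c : Cpt XX, KLim c := by
  have : CompactSpace (closure XS) := isCompact_iff_compactSpace.1 isClosed_closure.isCompact
  refine ⟨⟨closure XS, Set.inclusion subset_closure, IsEmbedding.inclusion _,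
    (denseRange_inclusion_iff _).2 subset_rfl⟩, ?_⟩
  intro E p φ Y hY hinf ht
  obtain ⟨z, hz⟩ := cpts_lim E p φ Y hY ht
  have hne : (atTop ⊓ 𝓟 Y : Filter ℕ).NeBot := by
    rw [← Nat.cofinite_eq_atTop]
    exact hinf.cofinite_inf_principal_neBot
  have hT : Tendsto (fun i => (eX (E.1.y i, p i)).1) (atTop ⊓ 𝓟 Y) (𝓝 z) := by
    refine tendsto_pi_nhds.2 fun B => ?_
    exact tendsto_const_nhds.congr' ((hz B).mono fun i hi => hi.symm)
  have hzc : z ∈ closure XS :=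
    mem_closure_of_tendsto hT (Eventually.of_forall fun i => (eX (E.1.y i, p i)).2)
  refine ⟨⟨z, hzc⟩, ?_, tendsto_subtype_rng.2 hT⟩
  rintro ⟨⟨w, v, hv, hw⟩, hwz⟩
  have hvz : Th v = z := hw.trans (congrArg Subtype.val hwz)
  rcases hv with ⟨y, hy⟩ | hv
  · have h1 : z ⟨fib y, inB_fib y⟩ = true := by
      rw [← hvz, cpts_Th]; exact hy
    have h2 : ∀ᶠ i in atTop ⊓ 𝓟 Y, E.1.y i = y := by
      filter_upwards [hz ⟨fib y, inB_fib y⟩] with i hi
      rw [h1, cpts_eX] at hi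
      exact hi
    obtain ⟨i, hi⟩ := h2.exists
    have h3 : ∀ᶠ j in atTop ⊓ 𝓟 Y, i < j := (eventually_gt_atTop i).filter_mono inf_le_left
    obtain ⟨j, hj, hj'⟩ := (h2.and h3).exists
    exact hj'.ne ((fam.good E.1 E.2).inj (hi.trans hj.symm))
  · have h1 : z ⟨tube E, inB_tube E⟩ ≠ true := by
      rw [← hvz, Ne, cpts_Th]; exact hv E
    obtain ⟨i, hi, hiY⟩ := ((hz ⟨tube E, inB_tube E⟩).and
      (mem_inf_of_right (mem_principal_self Y) : Y ∈ atTop ⊓ 𝓟 Y)).exists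
    apply h1
    rw [← hi, cpts_eX]
    exact ⟨i, hY hiY, rfl⟩

/-- the trace of a union of fibres on the space -/
def cpts_U (E : EE) (J : Set ℕ) : Set XX :=
  {w | ∃ i ∈ E.1.I, i ∈ J ∧ w.1 ⟨fib (E.1.y i), inB_fib _⟩ = true}

theorem cpts_coord (B : {B // InB B}) (b : Bool) : IsOpen {w : XX | w.1 B = b} := by
  have h : Continuous fun w : XX => w.1 B := (continuous_apply B).comp continuous_subtype_val
  exact (isOpen_discrete {b}).preimage h

theorem cpts_clopen (E : EE) (J : Set ℕ) : IsClopen (cpts_U E J) := by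
  constructor
  · rw [← isOpen_compl_iff]
    have h : (cpts_U E J)ᶜ = {w : XX | w.1 ⟨tube E, inB_tube E⟩ = false} ∪
        ⋃ y ∈ {y | ∀ i ∈ E.1.I, i ∈ J → y ≠ E.1.y i}, {w : XX | w.1 ⟨fib y, inB_fib y⟩ = true} := by
      ext ⟨w, v, hv, rfl⟩
      simp only [cpts_U, mem_compl_iff, mem_ofPred_eq, mem_union, mem_iUnion, exists_prop,
        ← Bool.not_eq_true, cpts_Th]
      constructor
      · intro h
        rcases hv with ⟨y, hy⟩ | hv
        · refine Or.inr ⟨y, ?_, hy⟩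
          rintro i hi hJ rfl
          exact h ⟨i, hi, hJ, hy⟩
        · exact Or.inl (hv E)
      · rintro (h | ⟨y, hy, h⟩) ⟨i, hi, hJ, hf⟩
        · exact h (mem_of_superset hf fun x hx => ⟨i, hi, hx⟩)
        · obtain ⟨x, hx, hx'⟩ := Ultrafilter.nonempty_of_mem (inter_mem h hf)
          exact hy i hi hJ ((Eq.symm hx).trans hx')
    rw [h]
    exact (cpts_coord _ _).union (isOpen_biUnion fun y _ => cpts_coord _ _)
  · have h : cpts_U E J = ⋃ i ∈ E.1.I ∩ J, {w : XX | w.1 ⟨fib (E.1.y i), inB_fib _⟩ = true} := by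
      ext w
      simp only [cpts_U, mem_ofPred_eq, mem_iUnion, mem_inter_iff, exists_prop, and_assoc]
    rw [h]
    exact isOpen_biUnion fun i _ => cpts_coord _ _

theorem cpts_mem (E : EE) (J : Set ℕ) (x : XP) : eX x ∈ cpts_U E J ↔ x ∈ un E J := by
  simp only [cpts_U, un, mem_ofPred_eq, cpts_eX, fib]

theorem cb : ∃ c : Cpt XX, ∀ (E : EE) (J : Set ℕ),
    Disjoint (closure ((fun x => c.e (eX x)) '' un E J))
      (closure ((fun x => c.e (eX x)) '' (un E J)ᶜ)) := by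
  classical
  refine ⟨⟨StoneCech XX, stoneCechUnit, isDenseEmbedding_stoneCechUnit.isEmbedding,
    denseRange_stoneCechUnit⟩, fun E J => ?_⟩
  have hχ : Continuous (cpts_U E J).boolIndicator :=
    (continuous_boolIndicator_iff_isClopen _).2 (cpts_clopen E J)
  have hg := continuous_stoneCechExtend hχ
  have he : ∀ w, stoneCechExtend hχ (stoneCechUnit w) = (cpts_U E J).boolIndicator w :=
    fun w => congrFun (stoneCechExtend_extends hχ) w
  have h1 : closure ((fun x => (stoneCechUnit (eX x) : StoneCech XX)) '' un E J) ⊆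
      stoneCechExtend hχ ⁻¹' {true} := by
    refine closure_minimal ?_ ((isClosed_discrete _).preimage hg)
    rintro _ ⟨x, hx, rfl⟩
    rw [mem_preimage, he, mem_singleton_iff, ← Set.mem_iff_boolIndicator, cpts_mem]
    exact hx
  have h2 : closure ((fun x => (stoneCechUnit (eX x) : StoneCech XX)) '' (un E J)ᶜ) ⊆
      stoneCechExtend hχ ⁻¹' {false} := by
    refine closure_minimal ?_ ((isClosed_discrete _).preimage hg)
    rintro _ ⟨x, hx, rfl⟩
    rw [mem_preimage, he, mem_singleton_iff, ← Set.notMem_iff_boolIndicator, cpts_mem]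
    exact hx
  refine Disjoint.mono h1 h2 (Disjoint.preimage _ ?_)
  simp

end Pool.Agent.MP_2e2931_gt.Z3

end
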