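import Pool.Agent.Mg.F2e2931a.G7796fe

section

open Set Topology Filter Cardinal Function

namespace Pool.Agent.MP_2e2931_gt.Z3

open Classical in
theorem framex_dec {X : Type} [TopologicalSpace X] {P : X → Prop} (h : IsClopen {x | P x}) :
    Continuous fun x => decide (P x) := by
  refine continuous_discrete_rng.2 fun b => ?_
  cases b
  · have : (fun x => decide (P x)) ⁻¹' {false} = {x | P x}ᶜ := by
      ext x
      simp
    rw [this]
    exact h.1.isOpen_compl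
  · have : (fun x => decide (P x)) ⁻¹' {true} = {x | P x} := by
      ext x
      simp
    rw [this]
    exact h.2

theorem framex_th : Continuous Th :=
  continuous_pi fun B => framex_dec ⟨ultrafilter_isClosed_basic B.1, ultrafilter_isOpen_basic B.1⟩

theorem eX_cont (y : DD) : Continuous fun p => eX (y, p) :=
  Continuous.subtype_mk (continuous_pi fun B => framex_dec (B.2.1 y)) _

theorem framex_true {u : Ultrafilter XP} {B : {B // InB B}} : Th u B = true ↔ B.1 ∈ u := by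
  simp [Th]

theorem framex_false {u : Ultrafilter XP} {B : {B // InB B}} : Th u B = false ↔ B.1 ∉ u := by
  simp [Th]

theorem framex_fib {u : Ultrafilter XP} {y : DD} (h : fib y ∈ u) :
    ∃ p, Th u = Th (pure (y, p)) := by
  obtain ⟨p, -, hp⟩ := isCompact_univ.ultrafilter_le_nhds (u.map Prod.snd)
    (le_principal_iff.2 univ_mem)
  refine ⟨p, funext fun B => ?_⟩
  have key : ∀ S : Set XP, IsOpen {q | (y, q) ∈ S} → (y, p) ∈ S → S ∈ u := fun S hS hm => by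
    have h1 : Prod.snd ⁻¹' {q | (y, q) ∈ S} ∈ u := hp (hS.mem_nhds hm)
    refine mem_of_superset (inter_mem h h1) ?_
    rintro ⟨y', q⟩ ⟨h2, h3⟩
    obtain rfl : y' = y := h2
    exact h3
  by_cases hm : (y, p) ∈ B.1
  · rw [framex_true.2 (key _ (B.2.1 y).2 hm), framex_true.2 (Ultrafilter.mem_pure.2 hm)]
  · rw [framex_false.2 (Ultrafilter.compl_mem_iff_notMem.1 (key _ (B.2.1 y).1.isOpen_compl hm)),
      framex_false.2 fun h' => hm (Ultrafilter.mem_pure.1 h')]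

theorem framex_val (c : Cpt XX) {w : XX} {S : Set XP} {B : {B // InB B}} {b : Bool}
    (hw : c.e w ∈ closure ((fun x => c.e (eX x)) '' S)) (hS : ∀ x ∈ S, Th (pure x) B = b) :
    w.1 B = b := by
  have h1 : w ∈ closure (eX '' S) := by
    rw [c.emb.isInducing.closure_eq_preimage_closure_image, image_image]
    exact hw
  have h2 : IsClosed {w : XX | w.1 B = b} :=
    isClosed_eq ((continuous_apply B).comp continuous_subtype_val) continuous_const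
  refine closure_minimal ?_ h2 h1
  rintro _ ⟨x, hx, rfl⟩
  exact hS x hx

/-- the ultrafilters without a fibre and without a tube -/
def framex_U : Set (Ultrafilter XP) := {u | (∀ y, fib y ∉ u) ∧ ∀ E, tube E ∉ u}

theorem framex_closed : IsClosed framex_U := by
  have : framex_U = (⋂ y, {u : Ultrafilter XP | fib y ∈ u}ᶜ) ∩
      ⋂ E, {u : Ultrafilter XP | tube E ∈ u}ᶜ := by
    ext u
    simp [framex_U]
  rw [this]
  exact (isClosed_iInter fun y => (ultrafilter_isOpen_basic _).isClosed_compl).inter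
    (isClosed_iInter fun E => (ultrafilter_isOpen_basic _).isClosed_compl)

noncomputable def framex_j (u : framex_U) : XX := ⟨Th u.1, u.1, Or.inr u.2.2, rfl⟩

theorem framex_jc : Continuous framex_j :=
  Continuous.subtype_mk (framex_th.comp continuous_subtype_val) _

theorem framex_cov (c : Cpt XX) (C : Set c.Y) (hC : IsClosed C)
    (hd : Disjoint C (range fun u => c.e (framex_j u))) : ∃ (T : Finset EE) (D0 : Finset DD),
    ∀ x, c.e (eX x) ∈ C → (∃ E ∈ T, x ∈ tube E) ∨ x.1 ∈ D0 := by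
  classical
  by_contra hn
  let S : Finset EE × Finset DD → Set XP := fun q =>
    {x | c.e (eX x) ∈ C ∧ (∀ E ∈ q.1, x ∉ tube E) ∧ x.1 ∉ q.2}
  have hne : ∀ q, (S q).Nonempty := fun q => by
    by_contra h
    refine hn ⟨q.1, q.2, fun x hx => ?_⟩
    by_contra h'
    exact h ⟨x, hx, fun E hE hE' => h' (Or.inl ⟨E, hE, hE'⟩), fun h'' => h' (Or.inr h'')⟩
  have hdir : Directed (· ≥ ·) fun q => 𝓟 (S q) := fun q q' => by
    refine ⟨(q.1 ∪ q'.1, q.2 ∪ q'.2), principal_mono.2 fun x hx => ?_,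
      principal_mono.2 fun x hx => ?_⟩
    · exact ⟨hx.1, fun E hE => hx.2.1 E (Finset.mem_union_left _ hE),
        fun h => hx.2.2 (Finset.mem_union_left _ h)⟩
    · exact ⟨hx.1, fun E hE => hx.2.1 E (Finset.mem_union_right _ hE),
        fun h => hx.2.2 (Finset.mem_union_right _ h)⟩
  have : NeBot (⨅ q, 𝓟 (S q)) := iInf_neBot_of_directed' hdir fun q => (hne q).principal_neBot
  obtain ⟨u, hu⟩ := Ultrafilter.exists_le (⨅ q, 𝓟 (S q))
  have hS : ∀ q, S q ∈ u := fun q => le_principal_iff.1 (hu.trans (iInf_le _ q))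
  have hU : u ∈ framex_U := by
    refine ⟨fun y => Ultrafilter.compl_mem_iff_notMem.1 (mem_of_superset (hS (∅, {y})) ?_),
      fun E => Ultrafilter.compl_mem_iff_notMem.1 (mem_of_superset (hS ({E}, ∅)) ?_)⟩
    · exact fun x hx h => hx.2.2 (Finset.mem_singleton.2 h)
    · exact fun x hx => hx.2.1 E (Finset.mem_singleton_self E)
  have ht : Tendsto eX u (𝓝 (framex_j ⟨u, hU⟩)) :=
    tendsto_subtype_rng.2 ((framex_th.tendsto u).comp (Ultrafilter.tendsto_pure_self u))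
  exact disjoint_left.1 hd (hC.mem_of_tendsto ((c.emb.continuous.tendsto _).comp ht)
    (mem_of_superset (hS (∅, ∅)) fun x hx => hx.1)) ⟨⟨u, hU⟩, rfl⟩

theorem frame_of (c : Cpt XX) :
    ∃ fr : Frame c.Y, fr.ι = (fun x => c.e (eX x)) ∧ range c.e = fr.R := by
  have : CompactSpace framex_U := isCompact_iff_compactSpace.1 framex_closed.isCompact
  refine ⟨⟨fun x => c.e (eX x), range fun u => c.e (framex_j u),
    fun y => c.emb.continuous.comp (eX_cont y),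
    (isCompact_range (c.emb.continuous.comp framex_jc)).isClosed, ?_, framex_cov c, ?_⟩, rfl, ?_⟩
  · intro B hB z hz h1 h2
    obtain ⟨w, rfl⟩ : ∃ w, c.e w = z := by
      rcases hz with ⟨u, rfl⟩ | ⟨x, rfl⟩
      exacts [⟨_, rfl⟩, ⟨_, rfl⟩]
    have e1 := framex_val c (B := ⟨B, hB⟩) h1 fun x hx =>
      framex_true.2 (Ultrafilter.mem_pure.2 hx)
    have e2 := framex_val c (B := ⟨B, hB⟩) h2 fun x hx =>
      framex_false.2 fun h => hx (Ultrafilter.mem_pure.1 h)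
    rw [e1] at e2
    exact Bool.noConfusion e2
  · intro E
    refine disjoint_left.2 ?_
    rintro _ ⟨u, rfl⟩ h
    exact u.2.2 E (framex_true.1 (framex_val c (B := ⟨tube E, inB_tube E⟩) h fun x hx =>
      framex_true.2 (Ultrafilter.mem_pure.2 hx)))
  · refine Subset.antisymm ?_ ?_
    · rintro _ ⟨⟨_, u, hu, rfl⟩, rfl⟩
      by_cases h : ∃ y, fib y ∈ u
      · obtain ⟨y, hy⟩ := h
        obtain ⟨p, hp⟩ := framex_fib hy
        exact Or.inr ⟨(y, p), congrArg c.e (Subtype.ext hp.symm)⟩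
      · exact Or.inl ⟨⟨u, fun y hy => h ⟨y, hy⟩, hu.resolve_left h⟩, rfl⟩
    · rintro _ (⟨u, rfl⟩ | ⟨x, rfl⟩)
      exacts [⟨_, rfl⟩, ⟨_, rfl⟩]

end Pool.Agent.MP_2e2931_gt.Z3

end

section

open Set Topology Filter Cardinal Function

namespace Pool.Agent.MP_2e2931_gt.Z3

variable {W : Type} [LinearOrder W]

theorem succ_pv (η : WithTop W) (σ : W) (h1 : (σ : WithTop W) < η)
    (h2 : ∀ τ : W, (τ : WithTop W) < η → τ ≤ σ) {β : Om → Om} (h : Pv W σ β) :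
    ∃ β', Pv W η β' := by
  choose nx hnx _ using cl_exists id
  refine ⟨fun g => max (β g) (nx g), ?_⟩
  intro s ξ φ Λ _ hfin hΛ hinv
  rcases lt_or_ge (σ : WithTop W) ξ with hlt | hle
  · refine ⟨φ, fun _ _ => rfl, fun o ho => (hΛ o ho).2.mono ?_⟩
    rintro i ⟨hi, hp⟩ _
    exact ⟨hi, fun τ hτ => hp τ (lt_of_le_of_lt (WithTop.coe_le_coe.2 (h2 τ hτ)) hlt)⟩
  · obtain ⟨φ1, hφ1, hbr⟩ := h s ξ φ Λ hle hfin
      (fun o ho => ⟨fun γ hγ => lt_of_le_of_lt (le_max_left _ _) ((hΛ o ho).1 γ hγ), (hΛ o ho).2⟩)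
      (fun τ hτ hτ' => hinv τ hτ (hτ'.trans h1))
    obtain ⟨x, hx⟩ := s.succ_step σ φ1 (Y := s.Yb φ1 σ) (fun i hi => hi.1) hfin
      (fun o ho => ⟨fun γ hγ => ⟨nx γ, hnx γ,
        lt_of_le_of_lt (le_max_right _ _) ((hΛ o ho).1 γ hγ)⟩, hbr o ho⟩) (hinv σ hle h1)
    have hup : ∀ τ : W, (τ : WithTop W) < (σ : WithTop W) → φ1 τ = update φ1 σ x τ :=
      fun τ hτ => (update_of_ne (WithTop.coe_lt_coe.1 hτ).ne _ _).symm
    refine ⟨update φ1 σ x, fun τ hτ => ?_, fun o ho => (hx o ho).mono ?_⟩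
    · rw [← hup τ (lt_of_lt_of_le hτ hle), hφ1 τ hτ]
    · rintro i ⟨hi, hp⟩ _
      rw [s.yb_congr hup] at hi
      refine ⟨hi.1, fun τ hτ => ?_⟩
      rcases (h2 τ hτ).eq_or_lt with rfl | hlt
      · exact hp
      · exact hi.2 τ (WithTop.coe_lt_coe.2 hlt)

theorem nc_all (W : Type) [LinearOrder W] [WellFoundedLT W] [Countable W] (η : WithTop W) :
    ∃ β, Pv W η β := by
  induction η using WellFoundedLT.induction with
  | ind η ih =>
    by_cases hs : ∃ σ : W, (σ : WithTop W) < η ∧ ∀ τ : W, (τ : WithTop W) < η → τ ≤ σ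
    · obtain ⟨σ, h1, h2⟩ := hs
      obtain ⟨β, hβ⟩ := ih σ h1
      exact succ_pv η σ h1 h2 hβ
    · refine lim_step η (fun σ hσ => ?_) fun τ hτ => ih τ hτ
      by_contra hc
      refine hs ⟨σ, hσ, fun τ hτ => ?_⟩
      by_contra hlt
      exact hc ⟨τ, not_le.1 hlt, hτ⟩

theorem nc (W : Type) [LinearOrder W] [WellFoundedLT W] [Countable W] :
    ∃ α : Om, ∀ s : Sit W, Br s.I α [] → ∃ φ : W → VV, ∀ n : ℕ, ∃ k ≥ n,
      {i | i ∈ s.I ∧ [k] <:+ lf i ∧ ∀ σ, s.Pz φ i σ}.Infinite := by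
  obtain ⟨β, hβ⟩ := nc_all W ⊤
  obtain ⟨g1, hg1, -⟩ := cl_exists id ⊥
  obtain ⟨α, hα, hcl⟩ := cl_exists β g1
  refine ⟨α, fun s hs => ?_⟩
  obtain ⟨ξ, -, hξ⟩ := (wellFounded_lt (α := WithTop W)).has_min univ univ_nonempty
  obtain ⟨φ, -, hφ⟩ := hβ s ξ (fun _ _ => 0) {([], α)} le_top (finite_singleton _)
    (by
      rintro o rfl
      exact ⟨hcl, hs.mono fun i hi _ => ⟨hi, fun σ hσ => absurd hσ (hξ _ (mem_univ _))⟩⟩)
    (by
      rintro σ - - o rfl - o' rfl hne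
      exact absurd rfl hne)
  refine ⟨φ, fun n => ?_⟩
  obtain ⟨k, hk, c, hc, hbr⟩ := (br_iff.1 (hφ _ rfl)).2 g1 hα n
  refine ⟨k, hk, (hbr.inf hg1).mono ?_⟩
  rintro i ⟨hi, hci⟩
  exact ⟨hi.1, hc.trans hci, fun σ => hi.2 σ (WithTop.coe_lt_top σ)⟩

end Pool.Agent.MP_2e2931_gt.Z3

end

section

open Set Topology Filter Cardinal Function

namespace Pool.Agent.MP_2e2931_gt.Z3

section

variable {ι Ω : Type} {a : DD → List ℕ → Finset ι} {info : DD → List ℕ → ι → Ω}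
  {e : DD → List ℕ → Ω} {W : Set ι}

theorem treex_refl (y : DD) (l : List ℕ) (n : ℕ) : Same a info e W y y l n :=
  ⟨fun _ _ => ⟨rfl, fun _ _ => ⟨Iff.rfl, fun _ => rfl⟩⟩, fun _ _ => rfl⟩

theorem treex_trans {y y' y'' : DD} {l l' : List ℕ} {n n' : ℕ} (hl : l <:+ l') (hn : n ≤ n')
    (h1 : Same a info e W y'' y' l' n') (h2 : Same a info e W y' y l n) :
    Same a info e W y'' y l n := by
  refine ⟨fun m hm => ?_, fun k hk => (h1.2 k (by omega)).trans (h2.2 k hk)⟩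
  obtain ⟨a1, a2⟩ := h1.1 m (hm.trans hl)
  obtain ⟨b1, b2⟩ := h2.1 m hm
  refine ⟨a1.trans b1, fun σ hσ => ⟨(a2 σ hσ).1.trans (b2 σ hσ).1, fun h => ?_⟩⟩
  exact ((a2 σ hσ).2 h).trans ((b2 σ hσ).2 ((a2 σ hσ).1.1 h))

/-- `x'` is a later node than `x` -/
def treex_Ext (a : DD → List ℕ → Finset ι) (info : DD → List ℕ → ι → Ω) (e : DD → List ℕ → Ω)
    (W : Set ι) (x' x : DD × List ℕ × ℕ) : Prop :=
  x.2.1 <:+ x'.2.1 ∧ x.2.2 ≤ x'.2.2 ∧ Same a info e W x'.1 x.1 x.2.1 x.2.2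

theorem treex_Ext.refl (x : DD × List ℕ × ℕ) : treex_Ext a info e W x x :=
  ⟨List.suffix_refl _, le_rfl, treex_refl _ _ _⟩

theorem treex_Ext.trans {x x' x'' : DD × List ℕ × ℕ} (h1 : treex_Ext a info e W x'' x')
    (h2 : treex_Ext a info e W x' x) : treex_Ext a info e W x'' x :=
  ⟨h2.1.trans h1.1, h2.2.1.trans h1.2.1, treex_trans h2.1 h2.2.1 h1.2.2 h2.2.2⟩

theorem treex_dec (ha : ∀ y l l', l <:+ l' → a y l ⊆ a y l') (Z : Set DD) {S : Set ι}
    (hS : S.Finite) (hW : S ⊆ W) (x : DD × List ℕ × ℕ) (hx : x.1 ∉ Z) :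
    ∃ x', x'.1 ∉ Z ∧ treex_Ext a info e W x' x ∧ ∀ σ ∈ S, σ ∈ a x'.1 x'.2.1 ∨
      ∀ x'', x''.1 ∉ Z → treex_Ext a info e W x'' x' → σ ∉ a x''.1 x''.2.1 := by
  induction S, hS using Set.Finite.induction_on with
  | empty => exact ⟨x, hx, treex_Ext.refl x, fun σ h => h.elim⟩
  | @insert τ S _ _ ih =>
    obtain ⟨x1, h1, e1, d1⟩ := ih (fun σ h => hW (Or.inr h))
    by_cases hc : ∃ x'', x''.1 ∉ Z ∧ treex_Ext a info e W x'' x1 ∧ τ ∈ a x''.1 x''.2.1
    · obtain ⟨x2, h2, e2, t2⟩ := hc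
      refine ⟨x2, h2, e2.trans e1, ?_⟩
      rintro σ (rfl | hσ)
      · exact Or.inl t2
      · rcases d1 σ hσ with h | h
        · left
          exact ha _ _ _ e2.1
            (((e2.2.2.1 _ (List.suffix_refl _)).2 σ (hW (Or.inr hσ))).1.2 h)
        · exact Or.inr fun x3 h3 e3 => h x3 h3 (e3.trans e2)
    · refine ⟨x1, h1, e1, ?_⟩
      rintro σ (rfl | hσ)
      · exact Or.inr fun x3 h3 e3 t3 => hc ⟨x3, h3, e3, t3⟩
      · exact d1 σ hσ

end

theorem treex_pos {ι Ω : Type} [Countable Ω] (a : DD → List ℕ → Finset ι)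
    (info : DD → List ℕ → ι → Ω) (e : DD → List ℕ → Ω)
    (ha : ∀ y l l', l <:+ l' → a y l ⊆ a y l') :
    ∃ (W : Set ι) (Z : Set DD), W.Countable ∧ Small Z ∧ ∀ y ∉ Z, ∀ (l : List ℕ) (n : ℕ)
      (u : Finset ι), ¬ Small {y' | Same a info e W y' y l n ∧ ∀ σ ∈ a y' l, σ ∈ u → σ ∈ W} := by
  classical
  obtain ⟨W, Z, hW, hZ, h⟩ := clo (Y := DD) (α := ι) (T := List ℕ × ℕ)
    (Ω := List (Option Ω) × List ℕ) (c := ℵ₀) le_rfl Small
    (fun κ f hκ hf => by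
      have : Countable κ := Cardinal.mk_le_aleph0_iff.1 hκ
      exact small_iUnion hf)
    (fun A B hAB hB => hB.mono hAB) (fun y t => a y t.1)
    (fun y t σ => (t.1.tails.map fun l' => if σ ∈ a y l' then some (info y l' σ) else none, []))
    (fun y t => (t.1.tails.map fun l' => some (e y l'), (List.range t.2).map y.2.2))
  have hWc : W.Countable := Cardinal.le_aleph0_iff_set_countable.1 hW
  refine ⟨W, Z, hWc, hZ, fun y hy l n u hs => ?_⟩
  refine h y hy (l, n) (W ∪ ↑u)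
    (Cardinal.le_aleph0_iff_set_countable.2 (hWc.union u.countable_toSet)) (hs.mono ?_)
  rintro y' ⟨h1, h2, h3⟩
  simp only [Prod.mk.injEq, List.map_inj_left, List.mem_tails, List.mem_range, and_true,
    Option.some.injEq] at h1 h2 h3
  refine ⟨⟨fun l' hl' => ⟨h2.1 l' hl', fun σ hσ => ?_⟩, h2.2⟩,
    fun σ hσ hu => (h3 σ hσ (Or.inr hu)).2⟩
  by_cases hc : σ ∈ a y l
  · have h4 := (h1 σ hc hσ).2 l' hl'
    by_cases p : σ ∈ a y' l' <;> by_cases q : σ ∈ a y l' <;> simp [p, q] at h4 ⊢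
    exact h4
  · have p : σ ∉ a y' l' := fun p => hc (h3 σ (ha _ _ _ hl' p) (Or.inl hσ)).1
    have q : σ ∉ a y l' := fun q => hc (ha _ _ _ hl' q)
    simp [p, q]

theorem treex_pt {A Z : Set DD} (hA : ¬ Small A) (hZ : Small Z) : ∃ y ∈ A, y ∉ Z := by
  by_contra hc
  exact hA (hZ.mono fun y hy => by_contra fun h => hc ⟨y, hy, h⟩)

theorem treex_step {ι Ω : Type} {a : DD → List ℕ → Finset ι}
    {info : DD → List ℕ → ι → Ω} {e : DD → List ℕ → Ω}
    (ha : ∀ y l l', l <:+ l' → a y l ⊆ a y l') {W : Set ι} {Z : Set DD} (hZ : Small Z)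
    (hp : ∀ y ∉ Z, ∀ (l : List ℕ) (n : ℕ), ¬ Small {y' | Same a info e W y' y l n})
    (S : ℕ → Set ι) (hS : ∀ m, (S m).Finite) (hW : ∀ m, S m ⊆ W) (b : List ℕ)
    (x : {x : DD × List ℕ × ℕ // x.1 ∉ Z}) :
    ∃ (s : ℕ) (ch : ℕ → {x : DD × List ℕ × ℕ // x.1 ∉ Z}),
      (Injective fun k => (ch k).1.1.2.2 s) ∧ ∀ k, treex_Ext a info e W (ch k).1 x.1 ∧
        N (k :: b) :: x.1.2.1 <:+ (ch k).1.2.1 ∧ s < (ch k).1.2.2 ∧
        N (k :: b) ≤ (ch k).1.2.1.length ∧ ∀ σ ∈ S (N (k :: b)),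
          Tk (a (ch k).1.1) (ch k).1.2.1 (some σ) ∨
            ∀ x'', x''.1 ∉ Z → treex_Ext a info e W x'' (ch k).1 → σ ∉ a x''.1 x''.2.1 := by
  obtain ⟨⟨y, l, n⟩, hy⟩ := x
  obtain ⟨s, hs⟩ := small_split (hp y hy l n)
  let v : ℕ ↪ _ := hs.natEmbedding
  have key : ∀ k, ∃ x' : {x : DD × List ℕ × ℕ // x.1 ∉ Z}, x'.1.1.2.2 s = (v k).1 ∧
      treex_Ext a info e W x'.1 (y, l, n) ∧
        N (k :: b) :: l <:+ x'.1.2.1 ∧ s < x'.1.2.2 ∧
        N (k :: b) ≤ x'.1.2.1.length ∧ ∀ σ ∈ S (N (k :: b)),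
          Tk (a x'.1.1) x'.1.2.1 (some σ) ∨
            ∀ x'', x''.1 ∉ Z → treex_Ext a info e W x'' x'.1 → σ ∉ a x''.1 x''.2.1 := by
    intro k
    obtain ⟨y1, ⟨m1, v1⟩, z1⟩ := treex_pt (v k).2 hZ
    have e1 : treex_Ext a info e W (y1, N (k :: b) :: l, max n (s + 1)) (y, l, n) :=
      ⟨List.suffix_cons _ _, le_max_left _ _, m1⟩
    obtain ⟨⟨y2, l2, n2⟩, z2, e2, d2⟩ := treex_dec (info := info) (e := e) ha Z (hS (N (k :: b)))
      (hW _) (y1, N (k :: b) :: l, max n (s + 1)) z1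
    have e3 : treex_Ext a info e W (y2, 0 :: (List.replicate (N (k :: b)) 0 ++ l2), n2)
        (y2, l2, n2) :=
      ⟨(List.suffix_append _ _).trans (List.suffix_cons _ _), le_rfl, treex_refl _ _ _⟩
    have hsn : s < max n (s + 1) := lt_of_lt_of_le (Nat.lt_succ_self s) (le_max_right _ _)
    refine ⟨⟨(y2, 0 :: (List.replicate (N (k :: b)) 0 ++ l2), n2), z2⟩,
      (e2.2.2.2 s hsn).trans v1, e3.trans (e2.trans e1), e2.1.trans e3.1,
      lt_of_lt_of_le hsn e2.2.1, ?_, fun σ hσ => ?_⟩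
    · simp only [List.length_cons, List.length_append, List.length_replicate]
      omega
    · rcases d2 σ hσ with h | h
      · exact Or.inl ⟨List.cons_ne_nil _ _, ha _ _ _ (List.suffix_append _ _) h⟩
      · exact Or.inr fun x3 h3 e4 => h x3 h3 (e4.trans e3)
  choose ch h1 h2 using key
  refine ⟨s, ch, fun k k' hk => ?_, h2⟩
  simp only [h1] at hk
  exact v.injective (Subtype.ext hk)

theorem tree_exists {ι Ω : Type} [Countable Ω] (a : DD → List ℕ → Finset ι)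
    (info : DD → List ℕ → ι → Ω) (e : DD → List ℕ → Ω)
    (ha : ∀ y l l', l <:+ l' → a y l ⊆ a y l') : Nonempty (Tree a info e) := by
  obtain ⟨W, Z, hW, hZ, hp⟩ := treex_pos a info e ha
  have hp' : ∀ y ∉ Z, ∀ (l : List ℕ) (n : ℕ), ¬ Small {y' | Same a info e W y' y l n} :=
    fun y hy l n hs => hp y hy l n ∅ (hs.mono fun y' h => h.1)
  obtain ⟨f, hf⟩ := Set.countable_iff_exists_injOn.1 hW
  have hS : ∀ m, {σ | σ ∈ W ∧ f σ < m}.Finite := fun m =>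
    Set.Finite.of_finite_image ((Set.finite_lt_nat m).subset (by
      rintro _ ⟨σ, h, rfl⟩
      exact h.2)) (hf.mono fun σ h => h.1)
  choose sp ch hinj hch using
    treex_step ha hZ hp' (fun m => {σ | σ ∈ W ∧ f σ < m}) hS (fun m σ h => h.1)
  obtain ⟨y0, -, hy0⟩ := treex_pt not_small_univ hZ
  let nd : List ℕ → {x : DD × List ℕ × ℕ // x.1 ∉ Z} := fun c =>
    List.rec ⟨(y0, [], 0), hy0⟩ (fun k b x => ch b x k) c
  have hnd : ∀ k b, nd (k :: b) = ch b (nd b) k := fun _ _ => rfl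
  have hmono : ∀ b c, b <:+ c → treex_Ext a info e W (nd c).1 (nd b).1 := by
    intro b c h
    induction c with
    | nil => rw [List.suffix_nil.1 h]; exact treex_Ext.refl _
    | cons k c ih =>
      rcases List.suffix_cons_iff.1 h with rfl | h
      · exact treex_Ext.refl _
      · exact (hch c (nd c) k).1.trans (ih h)
  refine ⟨⟨W, fun c => (nd c).1.1, fun c => (nd c).1.2.1, fun c => (nd c).1.2.2,
    fun b => sp b (nd b), hW, fun c u => hp _ (nd c).2 _ _ u,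
    fun k b => ⟨(hch b (nd b) k).2.1, (hch b (nd b) k).2.2.1⟩, fun c => ?_, hmono,
    fun b => hinj b (nd b), fun σ hσ => (N_fin (f σ + 1)).subset ?_⟩⟩
  · cases c with
    | nil => simp
    | cons k b => exact (hch b (nd b) k).2.2.2.1
  · rintro c ⟨h1, c', h2, h3⟩
    by_contra hc
    have hlt : f σ < N c := by
      simp only [Set.mem_ofPred_eq] at hc
      omega
    cases c with
    | nil => simp at hlt
    | cons k b =>
      rcases (hch b (nd b) k).2.2.2.2 σ ⟨hσ, hlt⟩ with h | h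
      · exact h1 h
      · exact h _ (nd c').2 (hmono _ _ h2) h3

end Pool.Agent.MP_2e2931_gt.Z3

end

section

open Set Topology Filter Cardinal Function

namespace Pool.Agent.MP_2e2931_gt.Z3

theorem menu_inf : ℵ₀ ≤ #MM := aleph0_le_continuum.trans mm_cont

theorem menu_un {κ α : Type} (f : κ → Set α) (hκ : #κ ≤ #MM) (hf : ∀ i, #(f i) ≤ #MM) :
    #(⋃ i, f i) ≤ #MM := by
  refine mk_iUnion_le_sum_mk.trans ((sum_le_sum _ (fun _ => #MM) hf).trans ?_)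
  rw [sum_const']
  exact (mul_le_mul_left hκ _).trans (mul_eq_self menu_inf).le

theorem menu_step {ι : Type} (L : Set DD) (a : DD → Finset ι) (hL : ¬ Small L) (η : Om) :
    ∃ ξ, η < ξ ∧ ∃ y0 ∈ L, ∃ r : Finset ι, r ⊆ a y0 ∧
      ∀ (u : Set ι) (v : Set (Set MM)), #u ≤ #MM → #v ≤ #MM →
        ∃ y ∈ L, y.1 = ξ ∧ (∀ σ ∈ a y, σ ∈ u → σ ∈ r) ∧ y.2.1 ∉ v := by
  classical
  obtain ⟨ξ, hξ, hc⟩ := small_col hL η
  obtain ⟨W, Z, -, hZ, hW⟩ := clo (Y := {y : DD // y ∈ L ∧ y.1 = ξ}) (T := Unit) (Ω := Unit)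
    menu_inf (fun Z => #((fun y => y.1.2.1) '' Z) ≤ #MM)
    (fun κ f hκ hf => by
      rw [image_iUnion]
      exact menu_un _ hκ hf)
    (fun A B hAB hB => (mk_le_mk_of_subset (image_mono hAB)).trans hB)
    (fun y _ => a y.1) (fun _ _ _ => ()) (fun _ _ => ())
  have h0 : ∃ y0, y0 ∉ Z := by
    by_contra hne
    push Not at hne
    refine hc ((mk_le_mk_of_subset ?_).trans hZ)
    rintro ρ ⟨y, hy, h1, rfl⟩
    exact ⟨⟨y, hy, h1⟩, hne _, rfl⟩
  obtain ⟨y0, hy0⟩ := h0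
  refine ⟨ξ, hξ, y0.1, y0.2.1, (a y0.1).filter (· ∈ W), Finset.filter_subset _ _,
    fun u v hu hv => ?_⟩
  by_contra hne
  push Not at hne
  refine hW y0 hy0 () u hu ((mk_le_mk_of_subset ?_).trans hv)
  rintro ρ ⟨y, hy, rfl⟩
  exact hne y.1 y.2.1 y.2.2 fun σ h1 h2 => Finset.mem_filter.2 (hy.2.2 σ h1 h2)

theorem menu {ι : Type} (L : ℕ → Set DD) (a : ℕ → DD → Finset ι)
    (h : ∀ i (u : Finset ι), ¬ Small {y | y ∈ L i ∧ Disjoint (a i y) u}) :
    ∃ δ ∈ SS, ∃ mn : List MM → DD, Injective mn ∧ (∀ t, mn t ∈ L t.length ∧ (mn t).1 < δ) ∧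
      (∀ ξ < δ, {i | ∃ t : List MM, t.length = i ∧ (mn t).1 ≤ ξ}.Finite) ∧
      ∀ σ, {i | ∃ t : List MM, t.length = i ∧ σ ∈ a i (mn t)}.Finite := by
  obtain ⟨δ, hδ, ξ, r, h1, h2, h3⟩ := s_seq (ι := ι)
    (fun i ξ r => ∀ (u : Set ι) (v : Set (Set MM)), #u ≤ #MM → #v ≤ #MM →
      ∃ y ∈ L i, y.1 = ξ ∧ (∀ σ ∈ a i y, σ ∈ u → σ ∈ r) ∧ y.2.1 ∉ v) (fun i η u => by
    obtain ⟨ξ, hξ, y0, hy0, r, hr, hh⟩ := menu_step _ (a i) (h i u) η
    refine ⟨ξ, r, hξ, hy0.2.mono_left hr, fun u' v hu hv => ?_⟩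
    obtain ⟨y, hy, hy'⟩ := hh u' v hu hv
    exact ⟨y, hy.1, hy'⟩)
  have : Infinite MM := Cardinal.infinite_iff.2 menu_inf
  have : Nonempty DD := ⟨(⊥, ∅, fun _ => 0)⟩
  obtain ⟨g, hg, hR⟩ := pick (T := List MM) (Y := DD)
    (fun t y => y ∈ L t.length ∧ y.1 = ξ t.length)
    (fun t' y' t y => y.2.1 ≠ y'.2.1 ∧
      ∀ σ ∈ a t.length y, σ ∈ a t'.length y' → σ ∈ r t.length) (fun t T' g hT => by
    have hT' : #T' ≤ #MM := hT.le.trans (mk_list_eq_mk MM).le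
    obtain ⟨y, hy, e1, e2, e3⟩ := (h1 t.length).1
      (⋃ t' : T', (a t'.1.length (g t'.1) : Set ι)) ((fun t' => (g t').2.1) '' T')
      (menu_un _ hT' fun t' => (Finset.finite_toSet _).lt_aleph0.le.trans menu_inf)
      (mk_image_le.trans hT')
    exact ⟨y, ⟨hy, e1⟩, fun t' ht' => ⟨fun e => e3 ⟨t', ht', e.symm⟩,
      fun σ s1 s2 => e2 σ s1 (mem_iUnion.2 ⟨⟨t', ht'⟩, s2⟩)⟩⟩)
  refine ⟨δ, hδ, g, fun t t' e => ?_, fun t => ⟨(hg t).1, (hg t).2 ▸ (h1 _).2⟩,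
    fun η hη => (h2 η hη).subset ?_, fun σ => ?_⟩
  · by_contra hne
    rcases hR t t' hne with h4 | h4
    · exact h4.1 (by rw [e])
    · exact h4.1 (by rw [e])
  · rintro i ⟨t, rfl, ht⟩
    exact (hg t).2.symm.trans_le ht
  · have s1 : {i | σ ∈ r i}.Subsingleton := fun i hi j hj => by
      by_contra hne
      exact Finset.disjoint_left.1 (h3 i j hne) hi hj
    have s2 : {t : List MM | σ ∈ a t.length (g t) ∧ σ ∉ r t.length}.Subsingleton :=
      fun t ht t' ht' => by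
        by_contra hne
        rcases hR t t' hne with h4 | h4
        · exact ht.2 (h4.2 σ ht.1 ht'.1)
        · exact ht'.2 (h4.2 σ ht'.1 ht.1)
    refine (s1.finite.union (s2.finite.image List.length)).subset ?_
    rintro i ⟨t, rfl, ht⟩
    by_cases hr : σ ∈ r t.length
    · exact Or.inl hr
    · exact Or.inr ⟨t, ⟨ht, hr⟩, rfl⟩

end Pool.Agent.MP_2e2931_gt.Z3

end

section

open Set Topology Filter Cardinal Function

namespace Pool.Agent.MP_2e2931_gt.Z3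

section

variable {ι Ω : Type} {a : DD → List ℕ → Finset ι} {info : DD → List ℕ → ι → Ω}
  {e : DD → List ℕ → Ω} {W : Set ι} {y y' y'' : DD} {l l' : List ℕ} {n n' : ℕ}

theorem nm_trans (h : Same a info e W y y' l n) (h' : Same a info e W y' y'' l' n')
    (hl : l' <:+ l) (hn : n' ≤ n) : Same a info e W y y'' l' n' := by
  refine ⟨fun m hm => ?_, fun k hk => (h.2 k (hk.trans_le hn)).trans (h'.2 k hk)⟩
  obtain ⟨a1, a2⟩ := h.1 m (hm.trans hl)
  obtain ⟨b1, b2⟩ := h'.1 m hm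
  exact ⟨a1.trans b1, fun σ hσ => ⟨(a2 σ hσ).1.trans (b2 σ hσ).1, fun k =>
    ((a2 σ hσ).2 k).trans ((b2 σ hσ).2 ((a2 σ hσ).1.1 k))⟩⟩

theorem nm_tk (h : Same a info e W y y' l n) {σ : ι} (hσ : σ ∈ W)
    (ht : Tk (a y') l (some σ)) : Tk (a y) l (some σ) :=
  ⟨ht.1, ((h.1 _ (List.tail_suffix l)).2 σ hσ).1.2 ht.2⟩

theorem nm_good (T : Tree a info e) {r : List ℕ → Om} {Lf : Set (List ℕ)}
    (hr : ∀ c ∈ Lf, ∀ k b, k :: b <:+ c → r (k :: b) < r b) (M : List ℕ → ℕ) (z : ℕ → DD)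
    (hz : ∀ i, Same a info e T.W (z i) (T.yy (lf i)) (T.ll (lf i)) (T.nn (lf i)))
    (u : Ultrafilter ℕ) (hI : (fun c => Nat.pair (M c) (N c)) '' Lf ∈ u)
    (hu : (u : Filter ℕ) ≤ atTop) :
    ∃ b, {i | b <:+ lf i} ∈ u ∧ ∀ v, {i | (z i).2.2 (T.spl b) = v} ∉ u := by
  have h0 : {i | [] <:+ lf i} ∈ u := mem_of_superset hI fun _ _ => List.nil_suffix
  obtain ⟨b, hb, hmin⟩ := (InvImage.wf r wellFounded_lt).has_min
    {b : List ℕ | {i | b <:+ lf i} ∈ u} ⟨[], h0⟩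
  refine ⟨b, hb, fun v hv => ?_⟩
  have h1 : {i | Nat.pair (M b) (N b) < i} ∈ u := hu (eventually_gt_atTop _)
  have key : ∀ i, i ∈ (fun c => Nat.pair (M c) (N c)) '' Lf → b <:+ lf i →
      Nat.pair (M b) (N b) < i → (z i).2.2 (T.spl b) = v →
      lf i ∈ Lf ∧ ∃ k, k :: b <:+ lf i ∧ (T.yy (k :: b)).2.2 (T.spl b) = v := by
    rintro _ ⟨c, hc, rfl⟩ h2 h3 h4
    rw [lf_pair] at h2 ⊢
    have hne : b ≠ c := by
      rintro rfl
      exact lt_irrefl _ h3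
    obtain ⟨t, rfl⟩ := h2
    obtain rfl | ⟨t', k, rfl⟩ := t.eq_nil_or_concat'
    · simp at hne
    have h5 : k :: b <:+ t' ++ [k] ++ b := ⟨t', by simp⟩
    refine ⟨hc, k, h5, ?_⟩
    have h6 := hz (Nat.pair (M (t' ++ [k] ++ b)) (N (t' ++ [k] ++ b)))
    rw [lf_pair] at h6
    obtain ⟨m1, m2, m3⟩ := T.mono _ _ h5
    rw [← h4]
    exact ((nm_trans h6 m3 m1 m2).2 _ (T.step k b).2).symm
  have hJ := u.1.inter_mem (u.1.inter_mem hI hb) (u.1.inter_mem h1 hv)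
  obtain ⟨i0, ⟨i1, i2⟩, i3, i4⟩ := u.nonempty_of_mem hJ
  obtain ⟨k1, k, k2, k3⟩ := key i0 i1 i2 i3 i4
  refine hmin (k :: b) (mem_of_superset hJ ?_) (hr _ k1 k b k2)
  rintro i ⟨⟨i1, i2⟩, i3, i4⟩
  obtain ⟨-, k', k2', k3'⟩ := key i i1 i2 i3 i4
  have : k' = k := T.inj b (k3'.trans k3.symm)
  exact this ▸ k2'

end

open Classical in
/-- extension by zero -/
noncomputable def nmExt (W : Set Sg) (φ : W → VV) : Sg → VV :=
  fun σ => if h : σ ∈ W then φ ⟨σ, h⟩ else 0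

theorem nmExt_val {W : Set Sg} (φ : W → VV) (σ : W) : nmExt W φ σ = φ σ := by
  simp [nmExt]

section

variable {FF : DD → Option Sg → ℕ → Set PP} (S : ∀ y, Sys (FF y))

abbrev nmA : DD → List ℕ → Finset Sg := fun y => (S y).a

abbrev nmI : DD → List ℕ → Sg → ℕ × ℕ := fun y l σ => ((S y).jj l σ, (S y).lab l (some σ))

abbrev nmE : DD → List ℕ → ℕ × ℕ := fun y l => ((S y).lab l none, (S y).M l)

variable {S} (T : Tree (nmA S) (nmI S) (nmE S)) (E : EE)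

/-- the point of the fibre with index `i` given by `φ` -/
noncomputable def nmPt (φ : T.W → VV) (i : ℕ) : PP :=
  (S (E.1.y i)).pt (T.ll (lf i)) i (nmExt _ φ)

structure NmHyp : Prop where
  ff : ∀ y σ, FF y (some σ) = (rd σ).F y
  same : ∀ i, Same (nmA S) (nmI S) (nmE S) T.W (E.1.y i) (T.yy (lf i)) (T.ll (lf i)) (T.nn (lf i))
  inj : InjOn lf E.1.I
  big : ∀ i ∈ E.1.I, (S (T.yy (lf i))).M (T.ll (lf i)) ≤ i
  wt : ∀ c, E.1.wt c = (S (T.yy c)).M (T.ll c)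

variable {T E}

theorem NmHyp.big' (h : NmHyp T E) {i : ℕ} (hi : i ∈ E.1.I) :
    (S (E.1.y i)).M (T.ll (lf i)) ≤ i := by
  have := congrArg Prod.snd ((h.same i).1 _ List.suffix_rfl).1
  exact (le_of_eq this).trans (h.big i hi)

theorem NmHyp.same' (h : NmHyp T E) (i : ℕ) {c : List ℕ} (hc : c <:+ lf i) :
    Same (nmA S) (nmI S) (nmE S) T.W (E.1.y i) (T.yy c) (T.ll c) (T.nn c) :=
  nm_trans (h.same i) (T.mono _ _ hc).2.2 (T.mono _ _ hc).1 (T.mono _ _ hc).2.1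

theorem NmHyp.ptK (h : NmHyp T E) (φ : T.W → VV) {i : ℕ} (hi : i ∈ E.1.I) {c : List ℕ}
    (hc : c <:+ lf i) : nmPt T E φ i ∈ (S (E.1.y i)).K (T.ll c) :=
  (S _).kmono _ _ (T.mono _ _ hc).1 ((S _).ptK _ _ _ (h.big' hi))

theorem nm_tka {y : DD} {l : List ℕ} {σ : Sg} (h : Tk (S y).a l (some σ)) : σ ∈ (S y).a l :=
  ((S y).mono _ _ _ (List.tail_suffix l) h.2).1

/-- the situation given by the tree and the sequence -/
noncomputable def NmHyp.sit (h : NmHyp T E) [LinearOrder T.W]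
    (ho : ∀ τ σ : T.W, Sub τ.1 σ.1 → τ < σ) : Sit T.W where
  I := E.1.I
  pres c := {σ | σ.1 ∈ (S (T.yy c)).a (T.ll c)}
  dec c := {σ | Tk (S (T.yy c)).a (T.ll c) (some σ.1)}
  jj c σ := (S (T.yy c)).jj (T.ll c) σ
  lab c σ := (S (T.yy c)).lab (T.ll c) (some σ)
  wt := E.1.wt
  perp σ := (rd σ.1).perp E
  sub σ i l u := (rd σ.1).F (E.1.y i) l ⊆ (rd σ.1).A E i u
  inA σ φ i u := nmPt T E φ i ∈ (rd σ.1).A E i u
  inj := h.inj
  pfin c := (Finset.finite_toSet _).preimage Subtype.val_injective.injOn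
  mono b c σ hb hσ := by
    obtain ⟨m1, -, m3⟩ := T.mono _ _ hb
    obtain ⟨a1, a2⟩ := (m3.1 _ List.suffix_rfl).2 σ σ.2
    obtain ⟨b1, b2⟩ := (S (T.yy c)).mono _ _ σ m1 (a1.2 hσ)
    exact ⟨b1, b2.trans (congrArg Prod.fst (a2 (a1.2 hσ)))⟩
  jnew b k c σ hb hσ hn := by
    obtain ⟨-, -, m3⟩ := T.mono _ _ ((List.suffix_cons k b).trans hb)
    exact (S (T.yy c)).jnew _ _ _ σ ((T.step k b).1.trans (T.mono _ _ hb).1) hσ
      fun t => hn (((m3.1 _ List.suffix_rfl).2 σ σ.2).1.1 t)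
  jpos c σ hσ := ((S _).jpos _ _ hσ).1
  decp c σ hσ := nm_tka hσ
  pdec b k σ hσ := by
    obtain ⟨-, -, m3⟩ := T.mono _ _ (List.suffix_cons k b)
    have h1 := ((m3.1 _ List.suffix_rfl).2 σ σ.2).1.2 hσ
    obtain ⟨t, ht⟩ := (T.step k b).1
    refine ⟨by rw [← ht]; simp, ((S _).mono _ _ σ ?_ h1).1⟩
    rw [← ht]
    cases t with
    | nil => simp
    | cons x t => exact (List.suffix_cons _ _).trans (List.suffix_append t _)
  labb c σ hσ := by
    obtain ⟨-, a2, a3⟩ := (S (T.yy c)).lab1 (T.ll c) (some σ.1) hσ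
    exact ⟨by rw [h.wt]; exact a3, by rw [a2]; exact T.len c⟩
  labh b c σ hb hσ := by
    obtain ⟨m1, -, m3⟩ := T.mono _ _ hb
    have h1 := nm_tk m3 σ.2 hσ
    rw [(S (T.yy c)).lab2 _ _ _ m1 h1]
    exact congrArg (fun x : ℕ × ℕ => hd x.2) (((m3.1 _ List.suffix_rfl).2 σ σ.2).2 (nm_tka h1))
  insub i hi c σ φ u hc hσ hs := by
    have m3 := h.same' i hc
    have h1 := nm_tk m3 σ.2 hσ
    have h2 := ((S _).lab1 _ _ h1).1 (h.ptK φ hi hc)
    have h3 : (S (E.1.y i)).lab (T.ll c) (some σ.1) = (S (T.yy c)).lab (T.ll c) (some σ.1) :=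
      congrArg Prod.snd (((m3.1 _ List.suffix_rfl).2 σ σ.2).2 (nm_tka h1))
    rw [h.ff, h3] at h2
    exact hs h2
  jle i hi σ hσ := ((S _).jpos _ _ hσ).2.trans (h.big i hi)
  ent σ := T.ent σ σ.2
  rich σ φ m s hs := by
    obtain ⟨Q, q1, q2⟩ := (rd_valid σ.1).rich E m s hs
    exact ⟨Q, q1, q2.mono fun i k hi => k hi _⟩
  dep σ φ φ' i u hφ := by
    refine rd_dep _ (fun τ n hτ => (S _).ptdep _ _ _ _ _ _ ?_) E i u
    by_cases c : τ ∈ T.W
    · exact (nmExt_val φ ⟨τ, c⟩).trans ((hφ _ (ho ⟨τ, c⟩ σ hτ)).trans (nmExt_val φ' ⟨τ, c⟩).symm)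
    · simp [nmExt, c]

theorem NmHyp.hh_off (h : NmHyp T E) (φ : T.W → VV) {i : ℕ} (hi : i ∈ E.1.I) {σ : Sg}
    (hσ : σ ∉ (S (E.1.y i)).a (T.ll (lf i))) : hh E i (nmPt T E φ i) σ = nmExt _ φ σ := by
  unfold hh
  have hj : jv (nmPt T E φ i) σ = ((i + 1 : ℕ) : ℕ∞) := ((S _).ptj _ _ _ _).2 hσ
  rw [if_pos (Or.inl hj)]
  exact (S _).ptx _ _ _ _ (h.big' hi)

theorem NmHyp.hh_on (h : NmHyp T E) [LinearOrder T.W] (ho : ∀ τ σ : T.W, Sub τ.1 σ.1 → τ < σ)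
    (φ : T.W → VV) {i : ℕ} (hi : i ∈ E.1.I) (σ : T.W) (hp : (h.sit ho).Pz φ i σ) :
    hh E i (nmPt T E φ i) σ = nmExt _ φ σ := by
  obtain ⟨a1, a2⟩ := ((h.same i).1 _ List.suffix_rfl).2 σ σ.2
  by_cases c : σ.1 ∈ (S (E.1.y i)).a (T.ll (lf i))
  swap
  · exact h.hh_off φ hi c
  have hx : nmPt T E φ i (σ, i + 1) = nmExt _ φ σ := (S _).ptx _ _ _ _ (h.big' hi)
  rcases hp with hp | hp
  · exact absurd (a1.1 c) hp
  unfold hh
  rw [if_pos (Or.inr ?_), hx]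
  unfold ExP
  have hj : jv (nmPt T E φ i) σ = ((S (T.yy (lf i))).jj (T.ll (lf i)) σ : ℕ) :=
    (((S _).ptj _ _ _ _).1 c).trans (congrArg (fun x : ℕ × ℕ => (x.1 : ℕ∞)) (a2 c))
  rw [hj, hx, nmExt_val]
  exact hp

end

theorem not_three (c : Cpt XX) (hc : KLim c) : ¬ FB c.Y 3 (range c.e) := by
  classical
  intro h3
  obtain ⟨F, hFc, hcov, hlow⟩ := fb3_nf h3
  let FF : DD → Option Sg → ℕ → Set PP := fun y t l =>
    t.elim {p | c.e (eX (y, p)) ∈ F l} fun σ => (rd σ).F y l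
  have hS : ∀ y, Nonempty (Sys (FF y)) := fun y => sys_exists _
    (fun t l => by
      cases t with
      | none => exact (hFc l).preimage (c.emb.continuous.comp (eX_cont y))
      | some σ => exact (rd_valid σ).clF y l)
    (fun t p => by
      cases t with
      | none => exact hcov _ (mem_range_self _)
      | some σ => exact (rd_valid σ).cov y p)
  let S : ∀ y, Sys (FF y) := fun y => (hS y).some
  obtain ⟨T⟩ := tree_exists (nmA S) (nmI S) (nmE S) fun y l l' h σ hσ => ((S y).mono _ _ σ h hσ).1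
  obtain ⟨o, o1, o2⟩ := sg_ord
  let _ : LinearOrder T.W := LinearOrder.lift' (fun σ => o σ.1) (o1.comp Subtype.val_injective)
  have : WellFoundedLT T.W := ⟨InvImage.wf (fun σ : T.W => o σ.1) wellFounded_lt⟩
  have : Countable T.W := T.cnt.to_subtype
  obtain ⟨α, hα⟩ := nc T.W
  obtain ⟨r, Lf, hr, hBr⟩ := rank_tree α
  let M : List ℕ → ℕ := fun c => (S (T.yy c)).M (T.ll c)
  obtain ⟨δ, hδ, mn, m1, m2, m3, m4⟩ := menu
    (fun i => {y | Same (nmA S) (nmI S) (nmE S) T.W y (T.yy (lf i)) (T.ll (lf i)) (T.nn (lf i))})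
    (fun i y => ((S y).a (T.ll (lf i))).filter (· ∉ T.W)) fun i u k => by
      refine T.pos (lf i) u (Small.mono (fun y hy => ?_) k)
      refine ⟨hy.1, Finset.disjoint_left.2 fun σ h1 h2 => ?_⟩
      rw [Finset.mem_filter] at h1
      exact h1.2 (hy.2 σ h1.1 h2)
  let t : Task := ⟨δ, (fun c => Nat.pair (M c) (N c)) '' Lf, mn, T.spl, M⟩
  have same : ∀ A i, Same (nmA S) (nmI S) (nmE S) T.W (mn (pth A i)) (T.yy (lf i)) (T.ll (lf i))
      (T.nn (lf i)) := fun A i => by simpa using (m2 (pth A i)).1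
  obtain ⟨A, hA⟩ := fam.gen t m1 fun A =>
    ⟨hδ, fun i j h => by simpa using congrArg List.length (m1 h), fun i => (m2 _).2,
      fun ξ h => (m3 ξ h).subset fun i hi => ⟨pth A i, pth_length A i, hi⟩,
      nm_good T hr M _ (same A)⟩
  let E : EE := ⟨_, hA⟩
  have h : NmHyp T E := ⟨fun _ _ => rfl, same A, by
    rintro _ ⟨b, -, rfl⟩ _ ⟨b', -, rfl⟩ k
    rw [lf_pair, lf_pair] at k
    rw [k], by
    rintro _ ⟨b, -, rfl⟩
    rw [lf_pair]
    exact Nat.left_le_pair _ _, fun _ => rfl⟩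
  have ho : ∀ τ σ : T.W, Sub τ.1 σ.1 → τ < σ := fun τ σ k => o2 _ _ k
  obtain ⟨φ, hφ⟩ := hα (h.sit ho) (hBr M)
  choose k k1 k2 using hφ
  let Y : Set ℕ := {i | i ∈ E.1.I ∧ ∀ σ, (h.sit ho).Pz φ i σ}
  obtain ⟨z, z1, z2⟩ := hc E (nmPt T E φ) (nmExt _ φ) Y (fun i hi => hi.1)
    ((k2 0).mono fun i hi => ⟨hi.1, hi.2.2⟩) (by
      refine tendsto_pi_nhds.2 fun σ => tendsto_const_nhds.congr' ?_
      rw [EventuallyEq, eventually_inf_principal]
      by_cases cw : σ ∈ T.W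
      · exact Eventually.of_forall fun i hi => (h.hh_on ho φ hi.1 ⟨σ, cw⟩ (hi.2 _)).symm
      · have := (m4 σ).eventually_cofinite_notMem
        rw [Nat.cofinite_eq_atTop] at this
        exact this.mono fun i hi hY => (h.hh_off φ hY.1 fun k =>
          hi ⟨pth A i, pth_length A i, Finset.mem_filter.2 ⟨k, cw⟩⟩).symm)
  obtain ⟨n, hn⟩ := hlow z z1 (hd ((S (T.yy [])).lab (T.ll []) none))
    (fun n => (S (T.yy [k n])).lab (T.ll [k n]) none) fun n => by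
      obtain ⟨a1, -, a3⟩ := T.mono [] [k n] List.nil_suffix
      refine ⟨?_, ?_⟩
      · rw [(S _).lab2 _ _ none a1 trivial]
        exact congrArg (fun x : ℕ × ℕ => hd x.1) (a3.1 _ List.suffix_rfl).1
      · rw [((S _).lab1 _ none trivial).2.1]
        exact (k1 n).trans ((lt_N_cons _ _).le.trans (T.len _))
  refine hn ((hFc _).mem_of_frequently_of_tendsto ?_ z2)
  rw [frequently_inf_principal]
  refine (Nat.frequently_atTop_iff_infinite.2 (k2 n)).mono fun i hi => ⟨⟨hi.1, hi.2.2⟩, ?_⟩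
  have h1 := ((S _).lab1 _ none trivial).1 (h.ptK φ hi.1 hi.2.1)
  have h2 : (S (E.1.y i)).lab (T.ll [k n]) none = (S (T.yy [k n])).lab (T.ll [k n]) none :=
    congrArg Prod.fst ((h.same' i hi.2.1).1 _ List.suffix_rfl).1
  rw [h2] at h1
  exact h1

end Pool.Agent.MP_2e2931_gt.Z3

end

section

open Set Topology Filter Cardinal Function

namespace Pool.Agent.MP_2e2931_gt.Z3

theorem uc_fin {T : Type} {u : Ultrafilter T} {B : ℕ} {P : T → ℕ → Prop}
    (h : ∀ᶠ t in (u : Filter T), ∃ l ≤ B, P t l) : ∃ l ≤ B, ∀ᶠ t in (u : Filter T), P t l :=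
  (Ultrafilter.eventually_exists_mem_iff (f := u) (P := fun l t => P t l)
    (Set.finite_Iic B)).1 h

theorem uc_root (k : ℕ) (a : List ℕ) (h : k ≤ N a) : ∃ c, c <:+ a ∧ IsRoot k c := by
  induction a with
  | nil => exact ⟨[], List.suffix_rfl, h, fun c' h1 h2 => (h2 (List.suffix_nil.1 h1)).elim⟩
  | cons m b ih =>
    by_cases hb : k ≤ N b
    · obtain ⟨c, h1, h2⟩ := ih hb
      exact ⟨c, h1.trans (List.suffix_cons m b), h2⟩
    · refine ⟨m :: b, List.suffix_rfl, h, fun c' h1 h2 => ?_⟩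
      rcases List.suffix_cons_iff.1 h1 with h3 | h3
      · exact (h2 h3).elim
      · exact lt_of_le_of_lt (N_mono h3) (not_le.1 hb)

theorem uc_bdd (f : List ℕ → ℕ) (M : ℕ) : ∃ B, ∀ c, N c < M → f c ≤ B := by
  obtain ⟨B, hB⟩ := ((N_fin M).image f).bddAbove
  exact ⟨B, fun c hc => hB ⟨c, hc, rfl⟩⟩

theorem uc_le {z : ℕ∞} {B : ℕ} (h : z ≤ (B : ℕ)) : ∃ e ≤ B, z = (e : ℕ) := by
  obtain ⟨e, he, h2⟩ := ENat.le_natCast_iff.1 h
  exact ⟨e, h2, he⟩

theorem uc (E : ED) (hE : E.Good) {T : Type} (ix : T → ℕ) (j : T → ℕ∞) (x h : T → VV)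
    (perp : ℕ → ℕ → Prop) (sub : ℕ → ℕ → ℕ → Prop) (inA : T → ℕ → Prop)
    (hx : ∀ t, j t = ((ix t + 1 : ℕ) : ℕ∞) ∨
      (Ex E.wt perp (ix t) (j t) (x t) (sub (ix t)) (inA t) ∧ h t = x t) ∨
        h t = kil (E.y (ix t)))
    (rich : ∀ m s, Seq m s → ∃ Q : Finset (ℕ × ℕ × ℕ),
      (∀ q ∈ Q, perp q.2.1 q.2.2 ∧ ∀ i, sub i (s q.1) q.2.2) ∧
        ∀ᶠ i in atTop, i ∈ E.I → ∀ t, ix t = i → ∃ q ∈ Q, inA t q.2.1)
    (u : ℕ → Ultrafilter T) (hI : ∀ n, {t | ix t ∈ E.I} ∈ u n)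
    (hfree : ∀ n, Tendsto ix (u n : Filter T) atTop) (hj : ∀ n, ∃ v, {t | j t = v} ∈ u n)
    (hpi : ∀ n, ∀ l < n, ∃ v, {t | (E.y (ix t)).2.2 l = v} ∈ u n)
    (htr : ∀ n n' a (v : ℕ), {t | h t a = (v : ℕ)} ∈ u n → {t | h t a = (v : ℕ)} ∈ u n')
    (hperp : ∀ n n' w w', perp w w' → {t | inA t w} ∈ u n → {t | inA t w'} ∉ u n') :
    False := by
  classical
  have hem : ∀ n, ∃ a, (∀ᶠ t in (u n : Filter T), a <:+ lf (ix t)) ∧
      ∀ v, ¬ ∀ᶠ t in (u n : Filter T), (E.y (ix t)).2.2 (E.spl a) = v := fun n =>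
    hE.emax ((u n).map ix) (hI n) (hfree n)
  choose a ha1 ha2 using hem
  have hge : ∀ n B, ∀ᶠ t in (u n : Filter T), B ≤ ix t := fun n B =>
    (hfree n).eventually (eventually_ge_atTop B)
  have htr' : ∀ n n' b (v : ℕ), (∀ᶠ t in (u n : Filter T), h t b = (v : ℕ)) →
      ∀ᶠ t in (u n' : Filter T), h t b = (v : ℕ) := htr
  have hperp' : ∀ n n' w w', perp w w' → (∀ᶠ t in (u n : Filter T), inA t w) →
      ¬ ∀ᶠ t in (u n' : Filter T), inA t w' := hperp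
  have hunb : ∀ M, ∃ n, M ≤ N (a n) := by
    intro M
    obtain ⟨B, hB⟩ := uc_bdd E.spl M
    refine ⟨B + 1, not_lt.1 fun hlt => ?_⟩
    obtain ⟨v, hv⟩ := hpi (B + 1) (E.spl (a (B + 1))) (Nat.lt_succ_of_le (hB _ hlt))
    exact ha2 (B + 1) v hv
  have hor : ∀ n, (∀ᶠ t in (u n : Filter T),
      Ex E.wt perp (ix t) (j t) (x t) (sub (ix t)) (inA t) ∧ h t = x t) ∨
        ∀ᶠ t in (u n : Filter T), h t = kil (E.y (ix t)) := by
    intro n
    rw [← Ultrafilter.eventually_or]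
    obtain ⟨v, hv⟩ := hj n
    have hv' : ∀ᶠ t in (u n : Filter T), j t = v := hv
    filter_upwards [hv', hge n v.toNat] with t h1 h2
    refine (hx t).resolve_left fun h3 => ?_
    rw [← h1, h3, ENat.toNat_natCast] at h2
    omega
  have hex : ∃ n, ∀ᶠ t in (u n : Filter T),
      Ex E.wt perp (ix t) (j t) (x t) (sub (ix t)) (inA t) ∧ h t = x t := by
    by_contra hno
    have hk : ∀ n, ∀ᶠ t in (u n : Filter T), h t = kil (E.y (ix t)) := fun n =>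
      (hor n).resolve_left fun h1 => hno ⟨n, h1⟩
    obtain ⟨v, hv⟩ := hpi (E.spl (a 0) + 1) (E.spl (a 0)) (Nat.lt_succ_self _)
    have hv' : ∀ᶠ t in (u (E.spl (a 0) + 1) : Filter T),
        (E.y (ix t)).2.2 (E.spl (a 0)) = v := hv
    have h1 : ∀ᶠ t in (u (E.spl (a 0) + 1) : Filter T), h t (4, E.spl (a 0)) = (v : ℕ) := by
      filter_upwards [hv', hk _] with t h1 h2
      rw [h2, ← h1]
      simp [kil]
    refine ha2 0 v ?_
    filter_upwards [htr' _ 0 _ _ h1, hk 0] with t h1 h2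
    rw [h2] at h1
    simpa [kil] using h1
  obtain ⟨n0, hn0⟩ := hex
  obtain ⟨k, hk⟩ : ∃ k : ℕ, ∀ᶠ t in (u n0 : Filter T), h t (0, 0) = (k : ℕ) := by
    obtain ⟨v, hv⟩ := hj n0
    have hv' : ∀ᶠ t in (u n0 : Filter T), j t = v := hv
    have h1 : ∀ᶠ t in (u n0 : Filter T), ∃ k ≤ v.toNat, h t (0, 0) = (k : ℕ) := by
      filter_upwards [hv', hn0] with t h1 h2
      obtain ⟨⟨k, -, j', -, h3, h4, h5, -⟩, h6⟩ := h2
      refine ⟨k, ?_, by rw [h6, h3]⟩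
      rw [← h1, h4, ENat.toNat_natCast]
      exact h5
    obtain ⟨k, -, hk⟩ := uc_fin h1
    exact ⟨k, hk⟩
  have hall : ∀ n, ∀ᶠ t in (u n : Filter T), h t = x t ∧ ∀ c, c <:+ lf (ix t) → IsRoot k c →
      LabOK E.wt (ix t) (x t) (sub (ix t)) (inA t) c ∧
        (x t (1, 0) = (N c : ℕ) ∨ RecOK perp (ix t) (x t) (inA t) c) := by
    intro n
    have h1 := htr' n0 n _ _ hk
    rcases hor n with h2 | h2
    · filter_upwards [h1, h2] with t h1 h2
      obtain ⟨⟨k', -, j', -, h3, -, -, h5⟩, h6⟩ := h2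
      rw [h6, h3] at h1
      have h7 : k' = k := by exact_mod_cast h1
      exact ⟨h6, h7 ▸ h5⟩
    · obtain ⟨t, h3, h4⟩ := (h1.and h2).exists
      rw [h4] at h3
      simp [kil] at h3
  have hrt : ∀ n, ∃ c, k ≤ N (a n) → c <:+ a n ∧ IsRoot k c := by
    intro n
    by_cases hn : k ≤ N (a n)
    · obtain ⟨c, hc⟩ := uc_root k (a n) hn
      exact ⟨c, fun _ => hc⟩
    · exact ⟨[], fun h1 => (hn h1).elim⟩
  choose c hc using hrt
  have hat : ∀ n, k ≤ N (a n) → ∀ᶠ t in (u n : Filter T), h t = x t ∧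
      LabOK E.wt (ix t) (x t) (sub (ix t)) (inA t) (c n) ∧
        (x t (1, 0) = (N (c n) : ℕ) ∨ RecOK perp (ix t) (x t) (inA t) (c n)) := by
    intro n hn
    filter_upwards [hall n, ha1 n] with t h1 h2
    exact ⟨h1.1, h1.2 _ ((hc n hn).1.trans h2) (hc n hn).2⟩
  by_cases hA : ∃ c0, ∀ B, ∃ n, B ≤ N (a n) ∧ k ≤ N (a n) ∧ c n = c0
  · obtain ⟨c0, hA⟩ := hA
    choose m hm1 hm2 hm3 using hA
    have hst : ∀ B, ∃ l0 l : ℕ, (∀ᶠ t in (u (m B) : Filter T), h t (3, N c0) = (l0 : ℕ)) ∧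
        hd l = hd l0 ∧ B ≤ lv l ∧
          ∀ᶠ t in (u (m B) : Filter T), ∀ w ≤ ix t, sub (ix t) l w → inA t w := by
      intro B
      have h1 : ∀ᶠ t in (u (m B) : Filter T), ∃ l0 ≤ E.wt c0, ∃ l ≤ E.wt (a (m B)),
          h t (3, N c0) = (l0 : ℕ) ∧ hd l = hd l0 ∧ B ≤ lv l ∧
            ∀ w ≤ ix t, sub (ix t) l w → inA t w := by
        filter_upwards [hat (m B) (hm2 B), ha1 (m B)] with t h1 h2
        obtain ⟨h3, ⟨l0, h4, h5, h6⟩, -⟩ := h1
        obtain ⟨l, h7, -, h8, h9, h10⟩ := h6 (a (m B)) (hc _ (hm2 B)).1 h2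
        rw [hm3 B] at h4 h5
        exact ⟨l0, h4, l, h7, by rw [h3, h5], h8, (hm1 B).trans h9, h10⟩
      obtain ⟨l0, -, h2⟩ := uc_fin h1
      obtain ⟨l, -, h3⟩ := uc_fin h2
      obtain ⟨t0, h4⟩ := h3.exists
      exact ⟨l0, l, h3.mono fun t ht => ht.1, h4.2.1, h4.2.2.1, h3.mono fun t ht => ht.2.2.2⟩
    choose l0 s hs1 hs2 hs3 hs4 using hst
    have hl0 : ∀ B, l0 B = l0 0 := by
      intro B
      obtain ⟨t, h1, h2⟩ := ((htr' _ (m 0) _ _ (hs1 B)).and (hs1 0)).exists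
      rw [h1] at h2
      exact_mod_cast h2
    obtain ⟨Q, hQ1, hQ2⟩ := rich (hd (l0 0)) s fun B => ⟨by rw [hs2, hl0], hs3 B⟩
    have h1 : ∀ᶠ t in (u 0 : Filter T), ∃ q ∈ (Q : Set (ℕ × ℕ × ℕ)), inA t q.2.1 := by
      have hI' : ∀ᶠ t in (u 0 : Filter T), ix t ∈ E.I := hI 0
      filter_upwards [(hfree 0).eventually hQ2, hI'] with t h1 h2
      exact h1 h2 t rfl
    obtain ⟨q, hq, h2⟩ := (Ultrafilter.eventually_exists_mem_iff (f := u 0)
      (P := fun (q : ℕ × ℕ × ℕ) t => inA t q.2.1) Q.finite_toSet).1 h1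
    refine hperp' 0 (m q.1) _ _ (hQ1 q hq).1 h2 ?_
    filter_upwards [hs4 q.1, hge (m q.1) q.2.2] with t h3 h4
    exact h3 _ h4 ((hQ1 q hq).2 _)
  · have hB : ∀ M, ∃ n, k ≤ N (a n) ∧ M < N (c n) := by
      intro M
      push Not at hA
      choose B hB using hA
      obtain ⟨B0, hB0⟩ := uc_bdd B (M + 1)
      obtain ⟨n, hn⟩ := hunb (max B0 k)
      have hk' : k ≤ N (a n) := (le_max_right _ _).trans hn
      refine ⟨n, hk', not_le.1 fun hle => ?_⟩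
      exact hB (c n) n ((hB0 _ (Nat.lt_succ_of_le hle)).trans ((le_max_left _ _).trans hn)) hk' rfl
    obtain ⟨v0, hv0⟩ : ∃ v0 : ℕ, ∀ v : ℕ, (∀ᶠ t in (u 0 : Filter T), h t (1, 0) = (v : ℕ)) →
        v ≤ v0 := by
      by_cases hv : ∃ v : ℕ, ∀ᶠ t in (u 0 : Filter T), h t (1, 0) = (v : ℕ)
      · obtain ⟨v0, hv0⟩ := hv
        refine ⟨v0, fun v hv => ?_⟩
        obtain ⟨t, h1, h2⟩ := (hv.and hv0).exists
        rw [h1] at h2
        exact le_of_eq (by exact_mod_cast h2)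
      · exact ⟨0, fun v h1 => (hv ⟨v, h1⟩).elim⟩
    have hrec : ∀ n, k ≤ N (a n) → v0 < N (c n) → ∀ᶠ t in (u n : Filter T), h t = x t ∧
        RecOK perp (ix t) (x t) (inA t) (c n) := by
      intro n hn hv
      have h1 : ¬ ∀ᶠ t in (u n : Filter T), h t (1, 0) = (N (c n) : ℕ) := fun h1 =>
        absurd (hv0 _ (htr' n 0 _ _ h1)) (not_le.2 hv)
      filter_upwards [hat n hn, Ultrafilter.eventually_not.2 h1] with t h2 h3
      exact ⟨h2.1, h2.2.2.resolve_left fun h4 => h3 (by rw [h2.1, h4])⟩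
    have hval : ∀ n, k ≤ N (a n) → v0 < N (c n) → ∀ m < N (c n), ∃ e ≤ N (c n),
        ∀ n', ∀ᶠ t in (u n' : Filter T), h t (2, m) = (e : ℕ) := by
      intro n hn hv m hm
      have h1 : ∀ᶠ t in (u n : Filter T), ∃ e ≤ N (c n), h t (2, m) = (e : ℕ) := by
        filter_upwards [hrec n hn hv] with t h2
        rw [h2.1]
        exact uc_le (h2.2.1 m hm)
      obtain ⟨e, he, h2⟩ := uc_fin h1
      exact ⟨e, he, fun n' => htr' n n' _ _ h2⟩
    obtain ⟨n1, hn1, h1⟩ := hB v0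
    obtain ⟨n2, hn2, h2⟩ := hB (N (c n1))
    obtain ⟨n3, hn3, h3⟩ := hB (N (c n2))
    obtain ⟨e2, -, he2⟩ := hval n3 hn3 (h1.trans (h2.trans h3)) _ h3
    obtain ⟨e1, he1', he1⟩ := hval n2 hn2 (h1.trans h2) _ h2
    have hne : e1 ≠ 0 := by
      obtain ⟨t, h4, h5⟩ := ((hrec n1 hn1 h1).and (he1 n1)).exists
      intro h6
      apply h4.2.2.1
      rw [← h4.1, h5, h6]
      rfl
    have h4 : ∀ᶠ t in (u n2 : Filter T), (∀ w ∈ dl e2, inA t w) ∧
        ∃ w ∈ dl e2, ∃ w' ∈ dl e1, perp w w' := by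
      filter_upwards [hrec n2 hn2 (h1.trans h2), he2 n2, he1 n2, hge n2 e2] with t h4 h5 h6 h7
      rw [h4.1] at h5 h6
      obtain ⟨h8, h9⟩ := h4.2.2.2 e2 h7 h5
      exact ⟨h8, h9 _ h2 e1 he1' h6 hne⟩
    obtain ⟨t0, -, w, hw, w', hw', hp⟩ := h4.exists
    refine hperp' n2 n1 w w' hp (h4.mono fun t ht => ht.1 w hw) ?_
    filter_upwards [hrec n1 hn1 h1, he1 n1, hge n1 e1] with t h5 h6 h7
    rw [h5.1] at h6
    exact (h5.2.2.2 e1 h7 h6).1 w' hw'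

end Pool.Agent.MP_2e2931_gt.Z3

end

section

open Set Topology Filter Cardinal Function

namespace Pool.Agent.MP_2e2931_gt.Z3

theorem umain_getD (f : ℕ → ℕ) {n l : ℕ} (h : l < n) :
    f l = ((List.range n).map f).getD l 0 := by
  simp [List.getD_eq_getElem?_getD, h]

theorem umain_col (E : ED) (hE : E.Good) (g : Om → ℕ) (hg : InjOn g (Iic E.δ)) (c : ℕ)
    (u : Ultrafilter (ℕ × PP)) (hu : Tendsto Prod.fst (u : Filter (ℕ × PP)) atTop)
    (hc : {t : ℕ × PP | g (E.y t.1).1 = c} ∈ u) : False := by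
  obtain ⟨t0, ht0⟩ := Ultrafilter.nonempty_of_mem hc
  obtain ⟨M, hM⟩ := (hE.fin _ (hE.col t0.1)).bddAbove
  have h2 : {t : ℕ × PP | M < t.1} ∈ u := hu.eventually (eventually_gt_atTop M)
  obtain ⟨t, ht1, ht2⟩ := Ultrafilter.nonempty_of_mem (inter_mem hc h2)
  have e : (E.y t.1).1 = (E.y t0.1).1 :=
    hg (hE.col t.1).le (hE.col t0.1).le ((show g _ = c from ht1).trans (show g _ = c from ht0).symm)
  exact absurd (hM (show (E.y t.1).1 ≤ (E.y t0.1).1 from e.le)) (not_le.2 ht2)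

variable {Y : Type} [TopologicalSpace Y] [CompactSpace Y] [T2Space Y] (fr : Frame Y)

omit [CompactSpace Y] [T2Space Y] in
theorem umain_cl {z : Y} (E : EE) (u : Ultrafilter (ℕ × PP))
    (hu : Tendsto (fun t : ℕ × PP => fr.ι (E.1.y t.1, t.2)) (u : Filter (ℕ × PP)) (𝓝 z))
    {S : Set XP} (hS : {t : ℕ × PP | (E.1.y t.1, t.2) ∈ S} ∈ u) : z ∈ closure (fr.ι '' S) :=
  mem_closure_of_tendsto hu (mem_of_superset hS fun _ ht => mem_image_of_mem _ ht)

theorem Frame.two_of_three (h : FB Y 3 fr.R) : FB Y 2 fr.R := by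
  classical
  obtain ⟨σ, hσ⟩ := fr.data h
  obtain ⟨ds, hds⟩ := Set.countable_iff_exists_subset_range.1 (fr.bad σ)
  choose g hg using fun d : Om => Set.countable_iff_exists_injOn.1 (om_cnt d)
  let S : ℕ → ℕ∞ × List ℕ × List ℕ → Set XP := fun n t =>
    {x | jv x.2 σ = t.1 ∧ (∀ l < n, x.1.2.2 l = t.2.1.getD l 0) ∧
      ∀ r < n, g (ds r) x.1.1 = t.2.2.getD r 0}
  have key : fr.R = ⋂ n, ⋃ t, (fr.P ∪ closure (fr.ι '' S n t)) := by
    apply Subset.antisymm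
    · rintro z (hz | ⟨x, rfl⟩)
      · exact mem_iInter.2 fun n => mem_iUnion.2 ⟨(0, [], []), Or.inl hz⟩
      · refine mem_iInter.2 fun n => mem_iUnion.2 ⟨(jv x.2 σ, (List.range n).map x.1.2.2,
          (List.range n).map fun r => g (ds r) x.1.1), Or.inr (subset_closure ⟨x, ?_, rfl⟩)⟩
        exact ⟨rfl, fun l hl => umain_getD _ hl,
          fun r hr => umain_getD (fun r => g (ds r) x.1.1) hr⟩
    intro z hz
    by_contra hzR
    have hzP : z ∉ fr.P := fun c => hzR (Or.inl c)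
    have h1 : ∀ n, ∃ t, z ∈ closure (fr.ι '' S n t) := fun n => by
      obtain ⟨t, ht⟩ := mem_iUnion.1 (mem_iInter.1 hz n)
      exact ⟨t, ht.resolve_left hzP⟩
    choose t ht using h1
    obtain ⟨E, hE⟩ := fr.ext_ult hzR (fun n => S n (t n)) ht
    choose m hm u hu1 hu2 hu3 using hE
    have good : E.1.Good := fam.good E.1 E.2
    have hI : ∀ n, {s : ℕ × PP | s.1 ∈ E.1.I} ∈ u n := fun n =>
      mem_of_superset (hu1 n) fun _ hs => hs.1
    by_cases hb : E.1.δ ∈ range ds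
    · obtain ⟨r, hr⟩ := hb
      refine umain_col E.1 good (g (ds r)) (hr ▸ hg (ds r)) ((t (m (r + 1))).2.2.getD r 0)
        (u (r + 1)) (hu2 _) (mem_of_superset (hu1 (r + 1)) fun s hs => ?_)
      exact hs.2.2.2 r (Nat.lt_of_lt_of_le (Nat.lt_succ_self r) (hm (r + 1)))
    have nosplit : ∀ a (v : ℕ), z ∈ closure (fr.ι '' tc E σ a v) →
        z ∉ closure (fr.ι '' (tube E \ tc E σ a v)) := fun a v c1 c2 =>
      hb (hds ⟨E, a, v, z, rfl, hzR, c1, c2⟩)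
    refine uc E.1 good (T := ℕ × PP) Prod.fst (fun s => jv s.2 σ) (fun s => s.2 (σ, s.1 + 1))
      (fun s => hh E s.1 s.2 σ) ((rd σ).perp E)
      (fun i l w => (rd σ).F (E.1.y i) l ⊆ (rd σ).A E i w) (fun s w => s.2 ∈ (rd σ).A E s.1 w)
      (fun s => ?_) (fun m' s hs => ?_) u hI hu2 (fun n => ⟨(t (m n)).1, ?_⟩)
      (fun n l hl => ⟨(t (m n)).2.1.getD l 0, ?_⟩) (fun n n' a v hv => ?_)
      (fun n n' w w' hw c1 c2 => ?_)
    · by_cases c1 : jv s.2 σ = ((s.1 + 1 : ℕ) : ℕ∞)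
      · exact Or.inl c1
      by_cases c2 : ExP E s.1 σ s.2
      · exact Or.inr (Or.inl ⟨c2, by simp only [hh]; rw [if_pos (Or.inr c2)]⟩)
      · exact Or.inr (Or.inr (by simp only [hh]; rw [if_neg (not_or.2 ⟨c1, c2⟩)]))
    · obtain ⟨Q, q1, q2⟩ := (rd_valid σ).rich E m' s hs
      refine ⟨Q, q1, q2.mono fun i hi hiI s' hs' => ?_⟩
      subst hs'
      exact hi hiI s'.2
    · exact mem_of_superset (hu1 n) fun s hs => hs.2.1
    · exact mem_of_superset (hu1 n) fun s hs => hs.2.2.1 l (Nat.lt_of_lt_of_le hl (hm n))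
    · have c1 : z ∈ closure (fr.ι '' tc E σ a v) :=
        umain_cl fr E (u n) (hu3 n) (mem_of_superset (inter_mem (hI n) hv) fun s hs =>
          ⟨s.1, hs.1, rfl, hs.2⟩)
      by_contra c
      refine nosplit a v c1 (umain_cl fr E (u n') (hu3 n') (mem_of_superset
        (inter_mem (hI n') (Ultrafilter.compl_mem_iff_notMem.2 c)) fun s hs => ?_))
      refine ⟨⟨s.1, hs.1, rfl⟩, ?_⟩
      rintro ⟨i, -, e, hi⟩
      obtain rfl : s.1 = i := good.inj e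
      exact hs.2 hi
    · have d := hσ E w w' hw
      refine disjoint_left.1 d (umain_cl fr E (u n) (hu3 n) (mem_of_superset
        (inter_mem (hI n) c1) fun s hs => ⟨s.1, hs.1, rfl, hs.2⟩))
        (umain_cl fr E (u n') (hu3 n') (mem_of_superset
          (inter_mem (hI n') c2) fun s hs => ⟨s.1, hs.1, rfl, hs.2⟩))
  rw [key]
  exact fb2_of _ fun n t => fr.cP.union isClosed_closure

end Pool.Agent.MP_2e2931_gt.Z3

end

section

open Set Topology Filter Cardinal Function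

namespace Pool.Agent.MP_2e2931_gt.Z3

variable {Y : Type} [TopologicalSpace Y] [CompactSpace Y] [T2Space Y] (fr : Frame Y)

/-- the points whose third component starts with `s` -/
def two_cyl (s : List ℕ) : Set XP := {x | ∀ l < s.length, x.1.2.2 l = s.getD l 0}

theorem two_cyl_ofFn (σ : ℕ → ℕ) (n : ℕ) (x : XP) :
    x ∈ two_cyl (List.ofFn fun i : Fin n => σ i) ↔ ∀ l < n, x.1.2.2 l = σ l := by
  simp only [two_cyl, mem_ofPred_eq, List.length_ofFn]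
  refine forall₂_congr fun l hl => ?_
  rw [List.getD_eq_getElem _ _ (by simpa using hl), List.getElem_ofFn]

omit [CompactSpace Y] [T2Space Y] in
theorem two_mem {z : Y} (hz : z ∈ fr.R) : ∃ σ : ℕ → ℕ, ∀ n,
    z ∈ fr.P ∪ closure (fr.ι '' two_cyl (List.ofFn fun i : Fin n => σ i)) := by
  rcases hz with hz | ⟨x, rfl⟩
  · exact ⟨fun _ => 0, fun _ => Or.inl hz⟩
  · exact ⟨x.1.2.2, fun n => Or.inr (subset_closure
      ⟨x, (two_cyl_ofFn _ n x).2 fun _ _ => rfl, rfl⟩)⟩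

theorem Frame.susl : Suslin Y fr.R := by
  refine ⟨fun s => fr.P ∪ closure (fr.ι '' two_cyl s), fun s => fr.cP.union isClosed_closure, ?_⟩
  ext z
  simp only [mem_iUnion, mem_iInter]
  refine ⟨fun hz => ?_, fun ⟨σ, hσ⟩ => ?_⟩
  · obtain ⟨σ, hσ⟩ := two_mem fr hz
    exact ⟨σ, fun k => hσ (k + 1)⟩
  by_contra hz
  obtain ⟨E, hE⟩ := fr.ext_ult hz (fun k => two_cyl (List.ofFn fun i : Fin (k + 1) => σ i))
    fun k => (hσ k).resolve_left fun h => hz (Or.inl h)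
  have h1 : ∀ n, ∃ i, i ∈ E.1.I ∧ n ≤ i ∧ ∀ l < n, (E.1.y i).2.2 l = σ l := by
    intro n
    obtain ⟨n', hn, u, h1, h2, -⟩ := hE n
    obtain ⟨t, ⟨ht, ht'⟩, ht2⟩ := Ultrafilter.nonempty_of_mem
      (inter_mem h1 (h2.eventually (eventually_ge_atTop n)))
    exact ⟨t.1, ht, ht2, fun l hl => (two_cyl_ofFn σ _ _).1 ht' l (by omega)⟩
  choose i hI hi hs using h1
  have hh : (hyperfilter ℕ : Filter ℕ) ≤ atTop := by
    rw [← Nat.cofinite_eq_atTop]; exact hyperfilter_le_cofinite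
  obtain ⟨a, -, ha⟩ := (fam.good E.1 E.2).emax ((hyperfilter ℕ).map i)
    (Ultrafilter.mem_map.2 (univ_mem' hI))
    ((tendsto_atTop_mono hi tendsto_id).mono_left hh)
  refine ha (σ (E.1.spl a)) (Ultrafilter.mem_map.2 ?_)
  exact mem_of_superset (hh (eventually_gt_atTop (E.1.spl a))) fun n hn => hs n _ hn

theorem Frame.two_of_sep (h : ∀ (E : EE) (J : Set ℕ),
    Disjoint (closure (fr.ι '' un E J)) (closure (fr.ι '' (un E J)ᶜ))) : FB Y 2 fr.R := by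
  have key : fr.R = ⋂ n, ⋃ t : List ℕ,
      fr.P ∪ closure (fr.ι '' (two_cyl t ∩ {_x | n ≤ t.length})) := by
    ext z
    simp only [mem_iUnion, mem_iInter]
    refine ⟨fun hz n => ?_, fun hσ => ?_⟩
    · obtain ⟨σ, hσ⟩ := two_mem fr hz
      refine ⟨List.ofFn fun i : Fin n => σ i, ?_⟩
      simpa using hσ n
    by_contra hz
    choose τ hτ using hσ
    obtain ⟨E, hE⟩ := fr.ext_ult hz (fun n => two_cyl (τ n) ∩ {_x | n ≤ (τ n).length})
      fun n => (hτ n).resolve_left fun h => hz (Or.inl h)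
    obtain ⟨n0, -, u0, h1, h2, h3⟩ := hE 0
    obtain ⟨a, -, ha⟩ := (fam.good E.1 E.2).emax (u0.map Prod.fst)
      (Ultrafilter.mem_map.2 (mem_of_superset h1 fun t ht => ht.1)) h2
    obtain ⟨n1, hn1, u1, k1, -, k3⟩ := hE (E.1.spl a + 1)
    have hJ := ha ((τ n1).getD (E.1.spl a) 0)
    refine (h E {i | (E.1.y i).2.2 (E.1.spl a) = (τ n1).getD (E.1.spl a) 0}).notMem_of_mem_left
      (a := z) ?_ ?_
    · refine mem_closure_of_tendsto k3 (mem_of_superset k1 fun t ht => ?_)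
      have hl : n1 ≤ (τ n1).length := ht.2.2
      exact ⟨_, ⟨t.1, ht.1, ht.2.1 _ (by omega), rfl⟩, rfl⟩
    · refine mem_closure_of_tendsto h3
        (mem_of_superset (Ultrafilter.mem_map.1 (Ultrafilter.compl_mem_iff_notMem.2 hJ))
          fun t ht => ?_)
      refine ⟨_, ?_, rfl⟩
      rintro ⟨i, -, hi, he⟩
      exact ht ((fam.good E.1 E.2).inj he ▸ hi)
  rw [key]
  exact fb2_of _ fun n t => fr.cP.union isClosed_closure

end Pool.Agent.MP_2e2931_gt.Z3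

end

section

open Set Topology Filter Cardinal Function

namespace Pool.Agent.MP_2e2931_gt.Z3

theorem main_lt (n : ℕ) : (n : Ordinal.{0}) < Ordinal.omega 1 :=
  (Ordinal.natCast_lt_omega0 n).trans Ordinal.omega0_lt_omega_one

theorem main_fb {Y : Type} [TopologicalSpace Y] {A : Set Y} {a : Ordinal.{0}} (h : InF Y a A)
    (ha : a ≤ 3) : FB Y 3 A := by
  rcases h with h | h
  · exact h.2.mono ha
  · exact absurd (h.1 ▸ ha) (not_le.2 (by exact_mod_cast main_lt 3))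

theorem main_one {X : Type} [TopologicalSpace X] (c d : Cpt X) (h : FB d.Y 1 (range d.e)) :
    FB c.Y 1 (range c.e) := by
  rcases h.inv with ⟨e, -⟩ | ⟨b, f, b1, b2, ⟨-, e⟩ | ⟨o, -⟩⟩
  · exact absurd e one_ne_zero
  · have k : ∀ n, IsClosed (f n) := fun n => ((Order.lt_one_iff.1 (b1 n)) ▸ b2 n).zero
    have e' : range c.e = ⋃ n, c.e '' (d.e ⁻¹' f n) := by
      rw [← image_iUnion, ← preimage_iUnion, ← e, preimage_range, image_univ]
    rw [e']
    refine FB.union (fun _ => 0) _ zodd_one (fun _ => zero_lt_one) fun n => .closed ?_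
    exact ((d.emb.isInducing.isCompact_preimage' (k n).isCompact
      (e ▸ subset_iUnion f n)).image c.emb.continuous).isClosed
  · exact absurd zodd_one o

theorem final : T35Space XX ∧ KAnalytic XX ∧ 2 ∈ Cplx XX ∧ 3 ∉ Cplx XX ∧
    ∃ β ∈ Cplx XX, 3 < β ∧ β ≤ Ordinal.omega 1 := by
  obtain ⟨c, hc⟩ := ck
  obtain ⟨d, hd⟩ := cb
  have h23 : (2 : Ordinal.{0}) < 3 := by exact_mod_cast (by norm_num : (2 : ℕ) < 3)
  have h2 : (2 : Ordinal.{0}) < Ordinal.omega 1 := by exact_mod_cast main_lt 2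
  have s1 : Suslin c.Y (range c.e) := by
    obtain ⟨fr, -, e⟩ := frame_of c
    exact e ▸ fr.susl
  have s2 : FB d.Y 2 (range d.e) := by
    obtain ⟨fr, e1, e⟩ := frame_of d
    exact e ▸ fr.two_of_sep (e1 ▸ hd)
  obtain ⟨β, b1, b2⟩ := wellFounded_lt.has_min {a | InF c.Y a (range c.e)} ⟨_, Or.inr ⟨rfl, s1⟩⟩
  refine ⟨inferInstance, ⟨c.Y, _, inferInstance, inferInstance, c.e, c.emb, s1⟩,
    ⟨d, Or.inl ⟨h2, s2⟩, fun x hx => not_lt.1 fun k => ?_⟩, ?_, β,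
    ⟨c, b1, fun x hx => not_lt.1 (b2 x hx)⟩, not_le.1 fun k => not_three c hc (main_fb b1 k),
    not_lt.1 (b2 _ (Or.inr ⟨rfl, s1⟩))⟩
  · have k1 : x ≤ 1 := Order.lt_add_one_iff.1 (by rwa [one_add_one_eq_two])
    rcases hx with hx | hx
    · exact not_three c hc ((main_one c d (hx.2.mono k1)).mono (one_lt_two.trans h23).le)
    · exact absurd (hx.1 ▸ k) (not_lt.2 h2.le)
  rintro ⟨q, q1, q2⟩
  obtain ⟨fr, -, e⟩ := frame_of q
  have h3 := main_fb q1 le_rfl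
  rw [e] at h3
  have h4 := fr.two_of_three h3
  rw [← e] at h4
  exact absurd (q2 (Or.inl ⟨h2, h4⟩)) (not_le.2 h23)

end Pool.Agent.MP_2e2931_gt.Z3

end
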